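import Mathlib

section

set_option autoImplicit false

open Filter Topology Metric

namespace Pool.Agent.Lib.MP_b771e3_an

/-- A bounded holomorphic map minus its linear part is Lipschitz with constant `O(size)`.
Proof: `g(z) = F z - L z` satisfies `‖g z‖ ≤ A ‖z‖²` (Schwarz lemma of order two); the derivative
of `g` at points of norm at most `s` is at most `C s` (Schwarz lemma on a ball of radius `s`);
conclude with the mean value inequality. -/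
theorem lipmap : ∃ A r : ℝ, 1 ≤ A ∧ 0 < r ∧ r ≤ 1 ∧ ∀ (F : ℂ × ℂ → ℂ × ℂ) (lam mu : ℂ),
    DifferentiableOn ℂ F (ball 0 (1 / 2)) → (∀ z ∈ ball (0 : ℂ × ℂ) (1 / 2), ‖F z‖ ≤ 1) →
    F 0 = 0 → (∀ v : ℂ × ℂ, fderiv ℂ F 0 v = (lam * v.1, mu * v.2)) →
    ∀ z w : ℂ × ℂ, ‖z‖ ≤ r → ‖w‖ ≤ r →
      ‖F z - F w - (lam * (z.1 - w.1), mu * (z.2 - w.2))‖ ≤
        A * max ‖z‖ ‖w‖ * ‖z - w‖ := by
  refine ⟨64, 1 / 8, by norm_num, by norm_num, by norm_num, ?_⟩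
  intro F lam mu hd hb h0 hL z w hz hw
  set L : ℂ × ℂ →L[ℂ] ℂ × ℂ := fderiv ℂ F 0 with hLdef
  have hLn : ‖L‖ ≤ 2 := by
    have := Complex.norm_fderiv_le_div_of_mapsTo_ball (R₂ := 1) hd
      (fun v hv => by
        rw [h0, mem_closedBall, dist_zero_right]
        exact hb v hv) (by norm_num)
    norm_num at this
    exact this
  set g : ℂ × ℂ → ℂ × ℂ := fun v => F v - L v with hg
  have hg0 : g 0 = 0 := by simp [hg, h0]
  have hgd : DifferentiableOn ℂ g (ball 0 (1 / 2)) := hd.sub L.differentiable.differentiableOn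
  have hgmaps : Set.MapsTo g (ball 0 (1 / 2)) (closedBall (g 0) 2) := by
    intro v hv
    rw [hg0, mem_closedBall, dist_zero_right]
    have hv' : ‖v‖ < 1 / 2 := by simpa using hv
    calc ‖F v - L v‖ ≤ ‖F v‖ + ‖L v‖ := norm_sub_le _ _
      _ ≤ 1 + ‖L‖ * ‖v‖ := add_le_add (hb v hv) (L.le_opNorm v)
      _ ≤ 1 + 2 * (1 / 2) := by
          gcongr
      _ = 2 := by norm_num
  have hlo : (g · - g 0) =o[𝓝 0] (fun v => ‖v - 0‖ ^ 1) := by
    have hdat : DifferentiableAt ℂ F 0 := hd.differentiableAt (ball_mem_nhds _ (by norm_num))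
    have h1 := hdat.hasFDerivAt.isLittleO
    simp only [pow_one]
    refine (h1.congr_left ?_).norm_right
    intro v
    simp [hg, h0, hLdef]
  have hsq : ∀ v ∈ ball (0 : ℂ × ℂ) (1 / 2), ‖g v‖ ≤ 8 * ‖v‖ ^ 2 := by
    intro v hv
    have := Complex.dist_le_mul_div_pow_of_mapsTo_ball_of_isLittleO (n := 1) hgd hgmaps hlo hv
    rw [hg0, dist_zero_right, dist_zero_right] at this
    calc ‖g v‖ ≤ _ := this
      _ = 8 * ‖v‖ ^ 2 := by ring
  -- the increment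
  have hinc : F z - F w - (lam * (z.1 - w.1), mu * (z.2 - w.2)) = g z - g w := by
    have h1 : (lam * (z.1 - w.1), mu * (z.2 - w.2)) = L z - L w := by
      rw [← map_sub]
      exact (hL (z - w)).symm
    rw [h1]
    simp only [hg]
    abel
  rw [hinc]
  set s : ℝ := max ‖z‖ ‖w‖ with hs
  have hs8 : s ≤ 1 / 8 := max_le hz hw
  have hs0 : 0 ≤ s := le_max_of_le_left (norm_nonneg _)
  rcases hs0.eq_or_lt with hs0 | hspos
  · have hz0 : z = 0 := norm_le_zero_iff.1 (by rw [hs0]; exact le_max_left _ _)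
    have hw0 : w = 0 := norm_le_zero_iff.1 (by rw [hs0]; exact le_max_right _ _)
    rw [hz0, hw0]
    simp
  have hfd : ∀ u ∈ closedBall (0 : ℂ × ℂ) s, ‖fderiv ℂ g u‖ ≤ 64 * s := by
    intro u hu
    have hu' : ‖u‖ ≤ s := by simpa using hu
    have hsub : ball u s ⊆ ball (0 : ℂ × ℂ) (1 / 2) := by
      intro v hv
      rw [mem_ball, dist_zero_right]
      have h1 : ‖v - u‖ < s := by simpa [dist_eq_norm] using hv
      calc ‖v‖ = ‖(v - u) + u‖ := by rw [sub_add_cancel]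
        _ ≤ ‖v - u‖ + ‖u‖ := norm_add_le _ _
        _ < s + s := by linarith
        _ ≤ 1 / 2 := by linarith
    have hbd : ∀ v ∈ ball u s, ‖g v‖ ≤ 32 * s ^ 2 := by
      intro v hv
      have h1 : ‖v - u‖ < s := by simpa [dist_eq_norm] using hv
      have h2 : ‖v‖ ≤ 2 * s := by
        calc ‖v‖ = ‖(v - u) + u‖ := by rw [sub_add_cancel]
          _ ≤ ‖v - u‖ + ‖u‖ := norm_add_le _ _
          _ ≤ 2 * s := by linarith
      calc ‖g v‖ ≤ 8 * ‖v‖ ^ 2 := hsq v (hsub hv)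
        _ ≤ 8 * (2 * s) ^ 2 := by gcongr
        _ = 32 * s ^ 2 := by ring
    have := Complex.norm_fderiv_le_div_of_mapsTo_ball (R₂ := 64 * s ^ 2) (hgd.mono hsub)
      (fun v hv => by
        rw [mem_closedBall, dist_eq_norm]
        calc ‖g v - g u‖ ≤ ‖g v‖ + ‖g u‖ := norm_sub_le _ _
          _ ≤ 32 * s ^ 2 + 32 * s ^ 2 := add_le_add (hbd v hv) (hbd u (mem_ball_self hspos))
          _ = 64 * s ^ 2 := by ring) hspos
    calc ‖fderiv ℂ g u‖ ≤ _ := this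
      _ = 64 * s := by field_simp
  have hdiff : ∀ u ∈ closedBall (0 : ℂ × ℂ) s, DifferentiableAt ℂ g u := by
    intro u hu
    have hu' : ‖u‖ ≤ s := by simpa using hu
    refine hgd.differentiableAt (isOpen_ball.mem_nhds ?_)
    rw [mem_ball, dist_zero_right]
    linarith
  exact Convex.norm_image_sub_le_of_norm_fderiv_le hdiff hfd (convex_closedBall _ _)
    (by rw [mem_closedBall, dist_zero_right]; exact le_max_right _ _)
    (by rw [mem_closedBall, dist_zero_right]; exact le_max_left _ _)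

end Pool.Agent.Lib.MP_b771e3_an
end

section

set_option autoImplicit false

open Filter Topology

namespace Pool.Agent.Lib.MP_b771e3_an

private lemma algA_norm2 (u v : ℂ) (U V : ℝ) (hu : ‖u‖ ≤ U) (hv : ‖v‖ ≤ V) :
    ‖u * v‖ ≤ U * V := by
  rw [norm_mul]
  exact mul_le_mul hu hv (norm_nonneg _) (le_trans (norm_nonneg _) hu)

private lemma algA_add2 (u v : ℂ) (U V : ℝ) (hu : ‖u‖ ≤ U) (hv : ‖v‖ ≤ V) :
    ‖u + v‖ ≤ U + V := (norm_add_le u v).trans (add_le_add hu hv)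

private lemma algA_pow (u : ℂ) (U : ℝ) (hu : ‖u‖ ≤ U) (k : ℕ) :
    ‖u ^ k‖ ≤ U ^ k := by
  rw [norm_pow]
  exact pow_le_pow_left₀ (norm_nonneg _) hu k

/-- First component of `h_{n+1} ∘ f_n - g_n ∘ h_n` (`P1, P2` are the coefficients at time `n+1`,
`p1, p2, q1, q2` those at time `n`, `e2`, `e3` the coefficients of `y²`, `y³` of the model).
The second component is the same statement with the roles of the variables exchanged. -/
theorem errA (A : ℝ) (hA : 1 ≤ A) : ∃ B : ℝ, 0 ≤ B ∧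
    ∀ (lam mu a b s g P1 P2 p1 p2 q1 q2 e2 e3 x y F1 F2 : ℂ) (m : ℝ),
      ‖lam‖ ≤ 1 → ‖mu‖ ≤ 1 → ‖a‖ ≤ A → ‖b‖ ≤ A → ‖s‖ ≤ A → ‖g‖ ≤ A → ‖P1‖ ≤ A → ‖P2‖ ≤ A →
      ‖p1‖ ≤ A → ‖p2‖ ≤ A → ‖q1‖ ≤ A → ‖q2‖ ≤ A → ‖e2‖ ≤ A → ‖e3‖ ≤ A →
      a + P1 * lam ^ 2 = lam * p1 → b + P2 * lam * mu = lam * p2 →
      m = max ‖x‖ ‖y‖ → m ≤ 1 →
      ‖F1 - (lam * x + a * x ^ 2 + b * x * y + s * y ^ 2 + g * y ^ 3)‖ ≤
        A * (‖x‖ * m ^ 2 + m ^ 4) →
      ‖F2 - mu * y‖ ≤ A * m ^ 2 →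
      ‖(F1 + P1 * F1 ^ 2 + P2 * F1 * F2) - (lam * (x + p1 * x ^ 2 + p2 * x * y) +
          e2 * (y + q1 * x * y + q2 * y ^ 2) ^ 2 + e3 * (y + q1 * x * y + q2 * y ^ 2) ^ 3)‖ ≤
        B * (‖s - e2‖ * ‖y‖ ^ 2 + ‖g + P2 * s * mu - 2 * e2 * q2 - e3‖ * ‖y‖ ^ 3 +
          ‖x‖ * m ^ 2 + m ^ 4) := by
  have hA0 : 0 ≤ A := by linarith
  refine ⟨200 * A ^ 4, by positivity, ?_⟩
  intro lam mu a b s g P1 P2 p1 p2 q1 q2 e2 e3 x y F1 F2 m hlam hmu ha hb hs hg hP1 hP2 hp1 hp2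
    hq1 hq2 he2 he3 hE1 hE2 hm hm1 hR1 hR2
  obtain ⟨R1, hR1d⟩ : ∃ R1, R1 = F1 - (lam * x + a * x ^ 2 + b * x * y + s * y ^ 2 + g * y ^ 3) :=
    ⟨_, rfl⟩
  obtain ⟨R2, hR2d⟩ : ∃ R2, R2 = F2 - mu * y := ⟨_, rfl⟩
  rw [← hR1d] at hR1
  rw [← hR2d] at hR2
  have hxm : ‖x‖ ≤ m := by rw [hm]; exact le_max_left _ _
  have hym : ‖y‖ ≤ m := by rw [hm]; exact le_max_right _ _
  have hm0 : 0 ≤ m := (norm_nonneg x).trans hxm
  have hx0 : 0 ≤ ‖x‖ := norm_nonneg x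
  obtain ⟨X, hX⟩ : ∃ X, X = ‖x‖ := ⟨_, rfl⟩
  have hxX : ‖x‖ ≤ X := hX.ge
  rw [← hX] at hxm hx0 hR1
  obtain ⟨T, hT⟩ : ∃ T, T = X * m ^ 2 + m ^ 4 := ⟨_, rfl⟩
  have hm2 : 0 ≤ m ^ 2 := by positivity
  have hm21 : m ^ 2 ≤ 1 := pow_le_one₀ hm0 hm1
  have hm31 : m ^ 3 ≤ 1 := pow_le_one₀ hm0 hm1
  have hm4 : 0 ≤ m ^ 4 := by positivity
  have hXm2 : 0 ≤ X * m ^ 2 := by positivity
  have hT0 : 0 ≤ T := by rw [hT]; positivity
  have hT1 : X * m ^ 2 ≤ T := by rw [hT]; linarith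
  have hT2 : m ^ 4 ≤ T := by rw [hT]; linarith
  have hm32 : m ^ 3 ≤ m ^ 2 := pow_le_pow_of_le_one hm0 hm1 (by norm_num)
  have hm42 : m ^ 4 ≤ m ^ 2 := pow_le_pow_of_le_one hm0 hm1 (by norm_num)
  have hm64 : m ^ 6 ≤ m ^ 4 := pow_le_pow_of_le_one hm0 hm1 (by norm_num)
  have hm54 : m ^ 5 ≤ m ^ 4 := pow_le_pow_of_le_one hm0 hm1 (by norm_num)
  have hTm : T ≤ 2 * m ^ 2 := by
    rw [hT]
    have : X * m ^ 2 ≤ 1 * m ^ 2 := mul_le_mul_of_nonneg_right (hxm.trans hm1) hm2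
    linarith
  rw [← hT] at hR1
  -- the quantity Q
  obtain ⟨Q, hQd⟩ : ∃ Q, Q = a * x ^ 2 + b * x * y + s * y ^ 2 + g * y ^ 3 + R1 := ⟨_, rfl⟩
  have hF1 : F1 = lam * x + Q := by rw [hQd, hR1d]; ring
  have hF2 : F2 = mu * y + R2 := by rw [hR2d]; ring
  have hx2 : ‖x ^ 2‖ ≤ m ^ 2 := algA_pow _ _ (hxX.trans hxm) 2
  have hy2 : ‖y ^ 2‖ ≤ m ^ 2 := algA_pow _ _ hym 2
  have hy3 : ‖y ^ 3‖ ≤ m ^ 3 := algA_pow _ _ hym 3
  have hQ : ‖Q‖ ≤ 6 * A * m ^ 2 := by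
    rw [hQd]
    have h1 := algA_norm2 _ _ _ _ ha hx2
    have h2 := algA_norm2 _ _ _ _ (algA_norm2 _ _ _ _ hb (hxX.trans hxm)) hym
    have h3 := algA_norm2 _ _ _ _ hs hy2
    have h4 := algA_norm2 _ _ _ _ hg hy3
    have h5 := algA_add2 _ _ _ _ (algA_add2 _ _ _ _ (algA_add2 _ _ _ _ (algA_add2 _ _ _ _ h1 h2) h3)
      h4) hR1
    refine h5.trans ?_
    have e1 : A * m ^ 3 ≤ A * m ^ 2 := mul_le_mul_of_nonneg_left hm32 hA0
    have e2 : A * T ≤ A * (2 * m ^ 2) := mul_le_mul_of_nonneg_left hTm hA0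
    have e3 : A * m * m = A * m ^ 2 := by ring
    have e4 : A * (2 * m ^ 2) = 2 * (A * m ^ 2) := by ring
    have e5 : 6 * A * m ^ 2 = 6 * (A * m ^ 2) := by ring
    rw [e3, e5]
    linarith
  obtain ⟨v, hvd⟩ : ∃ v, v = q1 * x * y + q2 * y ^ 2 := ⟨_, rfl⟩
  have hv : ‖v‖ ≤ 2 * A * m ^ 2 := by
    rw [hvd]
    have h2 := algA_norm2 _ _ _ _ (algA_norm2 _ _ _ _ hq1 (hxX.trans hxm)) hym
    have h3 := algA_norm2 _ _ _ _ hq2 hy2
    refine (algA_add2 _ _ _ _ h2 h3).trans (le_of_eq ?_)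
    ring
  have key : (F1 + P1 * F1 ^ 2 + P2 * F1 * F2) - (lam * (x + p1 * x ^ 2 + p2 * x * y) +
          e2 * (y + q1 * x * y + q2 * y ^ 2) ^ 2 + e3 * (y + q1 * x * y + q2 * y ^ 2) ^ 3) =
      (s - e2) * y ^ 2 + (g + P2 * s * mu - 2 * e2 * q2 - e3) * y ^ 3 + R1 +
      P1 * (2 * (lam * (x * Q))) + P1 * Q ^ 2 + P2 * (lam * (x * R2)) +
      P2 * (a * (x * x) * (mu * y)) + P2 * (b * (x * y) * (mu * y)) +
      P2 * (g * y ^ 3 * (mu * y)) + P2 * (R1 * (mu * y)) + P2 * (Q * R2) +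
      (-e2) * (2 * (q1 * (x * y ^ 2))) + (-e2) * (q1 ^ 2 * (x * x * y ^ 2)) +
      (-e2) * (q2 ^ 2 * y ^ 4) + (-e2) * (2 * (q1 * q2 * (x * y ^ 3))) +
      (-e3) * (3 * (y ^ 2 * v)) + (-e3) * (3 * (y * v ^ 2)) + (-e3) * v ^ 3 := by
    have hY : y + q1 * x * y + q2 * y ^ 2 = y + v := by rw [hvd]; ring
    have hY3 : e3 * (y + q1 * x * y + q2 * y ^ 2) ^ 3 =
      e3 * (y ^ 3 + 3 * (y ^ 2 * v) + 3 * (y * v ^ 2) + v ^ 3) := by rw [hY]; ring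
    rw [hY3, hF1, hF2]
    have h1 : P1 * lam ^ 2 = lam * p1 - a := by rw [← hE1]; ring
    have h2 : P2 * lam * mu = lam * p2 - b := by rw [← hE2]; ring
    have e1 : P1 * (lam * x + Q) ^ 2 = (P1 * lam ^ 2) * x ^ 2 + P1 * (2 * (lam * (x * Q))) +
      P1 * Q ^ 2 := by ring
    have e2' : P2 * (lam * x + Q) * (mu * y + R2) = (P2 * lam * mu) * (x * y) +
      P2 * (lam * (x * R2)) + P2 * (Q * (mu * y)) + P2 * (Q * R2) := by ring
    rw [e1, e2', h1, h2]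
    have e3' : P2 * (Q * (mu * y)) = P2 * s * mu * y ^ 3 + P2 * (a * (x * x) * (mu * y)) +
      P2 * (b * (x * y) * (mu * y)) + P2 * (g * y ^ 3 * (mu * y)) + P2 * (R1 * (mu * y)) := by
      rw [hQd]; ring
    rw [e3']
    have e4 : lam * x + Q = lam * x + a * x ^ 2 + b * x * y + s * y ^ 2 + g * y ^ 3 + R1 := by
      rw [hQd]; ring
    rw [e4]
    ring
  rw [key]
  -- bounds
  have hxQ : ‖x * Q‖ ≤ X * (6 * A * m ^ 2) := algA_norm2 _ _ _ _ hxX hQ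
  have n2 : ‖(2 : ℂ)‖ ≤ 2 := by simp
  have n3 : ‖(3 : ℂ)‖ ≤ 3 := by simp
  have he2' : ‖-e2‖ ≤ A := by rwa [norm_neg]
  have he3' : ‖-e3‖ ≤ A := by rwa [norm_neg]
  have hmuy : ‖mu * y‖ ≤ 1 * m := algA_norm2 _ _ _ _ hmu hym
  have t4 := algA_norm2 _ _ _ _ hP1 (algA_norm2 _ _ _ _ n2 (algA_norm2 _ _ _ _ hlam hxQ))
  have t5 := algA_norm2 _ _ _ _ hP1 (algA_pow _ _ hQ 2)
  have t6 := algA_norm2 _ _ _ _ hP2 (algA_norm2 _ _ _ _ hlam (algA_norm2 _ _ _ _ hxX hR2))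
  have t7 := algA_norm2 _ _ _ _ hP2 (algA_norm2 _ _ _ _ (algA_norm2 _ _ _ _ ha
    (algA_norm2 _ _ _ _ hxX (hxX.trans hxm))) hmuy)
  have t8 := algA_norm2 _ _ _ _ hP2 (algA_norm2 _ _ _ _ (algA_norm2 _ _ _ _ hb
    (algA_norm2 _ _ _ _ hxX hym)) hmuy)
  have t9 := algA_norm2 _ _ _ _ hP2 (algA_norm2 _ _ _ _ (algA_norm2 _ _ _ _ hg hy3) hmuy)
  have t10 := algA_norm2 _ _ _ _ hP2 (algA_norm2 _ _ _ _ hR1 hmuy)
  have t11 := algA_norm2 _ _ _ _ hP2 (algA_norm2 _ _ _ _ hQ hR2)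
  have t12 := algA_norm2 _ _ _ _ he2' (algA_norm2 _ _ _ _ n2 (algA_norm2 _ _ _ _ hq1
    (algA_norm2 _ _ _ _ hxX hy2)))
  have t13 := algA_norm2 _ _ _ _ he2' (algA_norm2 _ _ _ _ (algA_pow _ _ hq1 2)
    (algA_norm2 _ _ _ _ (algA_norm2 _ _ _ _ hxX (hxX.trans hxm)) hy2))
  have t14 := algA_norm2 _ _ _ _ he2' (algA_norm2 _ _ _ _ (algA_pow _ _ hq2 2)
    (algA_pow _ _ hym 4))
  have t15 := algA_norm2 _ _ _ _ he2' (algA_norm2 _ _ _ _ n2 (algA_norm2 _ _ _ _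
    (algA_norm2 _ _ _ _ hq1 hq2) (algA_norm2 _ _ _ _ hxX hy3)))
  have t16 := algA_norm2 _ _ _ _ he3' (algA_norm2 _ _ _ _ n3 (algA_norm2 _ _ _ _ hy2 hv))
  have t17 := algA_norm2 _ _ _ _ he3' (algA_norm2 _ _ _ _ n3 (algA_norm2 _ _ _ _ hym
    (algA_pow _ _ hv 2)))
  have t18 := algA_norm2 _ _ _ _ he3' (algA_pow _ _ hv 3)
  have t1 : ‖(s - e2) * y ^ 2‖ ≤ ‖s - e2‖ * ‖y‖ ^ 2 := by rw [norm_mul, norm_pow]
  have t2 : ‖(g + P2 * s * mu - 2 * e2 * q2 - e3) * y ^ 3‖ ≤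
    ‖g + P2 * s * mu - 2 * e2 * q2 - e3‖ * ‖y‖ ^ 3 := by rw [norm_mul, norm_pow]
  have tot := algA_add2 _ _ _ _ (algA_add2 _ _ _ _ (algA_add2 _ _ _ _ (algA_add2 _ _ _ _
    (algA_add2 _ _ _ _ (algA_add2 _ _ _ _ (algA_add2 _ _ _ _ (algA_add2 _ _ _ _
    (algA_add2 _ _ _ _ (algA_add2 _ _ _ _ (algA_add2 _ _ _ _ (algA_add2 _ _ _ _
    (algA_add2 _ _ _ _ (algA_add2 _ _ _ _ (algA_add2 _ _ _ _ (algA_add2 _ _ _ _
    (algA_add2 _ _ _ _ t1 t2) hR1) t4) t5) t6) t7) t8) t9) t10) t11) t12) t13) t14) t15) t16) t17) t18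
  refine tot.trans ?_
  have hs0 : 0 ≤ ‖s - e2‖ * ‖y‖ ^ 2 := by positivity
  have hg0 : 0 ≤ ‖g + P2 * s * mu - 2 * e2 * q2 - e3‖ * ‖y‖ ^ 3 := by positivity
  obtain ⟨S1, hS1⟩ : ∃ S1, S1 = ‖s - e2‖ * ‖y‖ ^ 2 := ⟨_, rfl⟩
  obtain ⟨S2, hS2⟩ : ∃ S2, S2 = ‖g + P2 * s * mu - 2 * e2 * q2 - e3‖ * ‖y‖ ^ 3 := ⟨_, rfl⟩
  rw [← hS1, ← hS2, ← hX]
  rw [← hS1] at hs0
  rw [← hS2] at hg0
  have hA2 : A ≤ A ^ 2 := le_self_pow₀ hA (by norm_num)
  have hA23 : A ^ 2 ≤ A ^ 3 := pow_le_pow_right₀ hA (by norm_num)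
  have hA34 : A ^ 3 ≤ A ^ 4 := pow_le_pow_right₀ hA (by norm_num)
  have hA4 : 1 ≤ A ^ 4 := one_le_pow₀ hA
  have hA14 : A ≤ A ^ 4 := by linarith
  have hA24 : A ^ 2 ≤ A ^ 4 := by linarith
  have hA200 : 1 ≤ 200 * A ^ 4 := by linarith
  have w1 : S1 ≤ 200 * A ^ 4 * S1 := le_mul_of_one_le_left hs0 hA200
  have w2 : S2 ≤ 200 * A ^ 4 * S2 := le_mul_of_one_le_left hg0 hA200
  have hsum : 200 * A ^ 4 * (S1 + S2 + X * m ^ 2 + m ^ 4) =
    200 * A ^ 4 * S1 + 200 * A ^ 4 * S2 + 200 * A ^ 4 * T := by rw [hT]; ring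
  rw [hsum]
  have hXm3 : X * m ^ 3 ≤ X * m ^ 2 := mul_le_mul_of_nonneg_left hm32 hx0
  have hA40 : 0 ≤ A ^ 4 := by positivity
  -- collect all terms as coefficient times `A ^ 4 * T`
  have c1 : ∀ c z : ℝ, 0 ≤ c → c ≤ A ^ 4 → 0 ≤ z → z ≤ T → c * z ≤ A ^ 4 * T := by
    intro c z hc hc' hz hz'
    exact mul_le_mul hc' hz' hz hA40
  have hAp : 0 ≤ A ^ 2 := by positivity
  have hAp3 : 0 ≤ A ^ 3 := by positivity
  have u3 := c1 A T hA0 hA14 hT0 le_rfl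
  have u4 := c1 (A ^ 2) (X * m ^ 2) hAp hA24 hXm2 hT1
  have u5 := c1 (A ^ 3) (m ^ 4) hAp3 hA34 hm4 hT2
  have u7 := c1 (A ^ 2) (X * m ^ 2) hAp hA24 hXm2 hT1
  have u9 := c1 (A ^ 2) (m ^ 4) hAp hA24 hm4 hT2
  have hTm1 : T * m ≤ T := mul_le_of_le_one_right hT0 hm1
  have u10 := c1 (A ^ 2) (T * m) hAp hA24 (by positivity) hTm1
  have hXm3' : 0 ≤ X * m ^ 3 := by positivity
  have u13 := c1 (A ^ 3) (X * m ^ 3) hAp3 hA34 hXm3' (hXm3.trans hT1)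
  have u14 := c1 (A ^ 3) (m ^ 4) hAp3 hA34 hm4 hT2
  have u17 := c1 (A ^ 3) (m ^ 5) hAp3 hA34 (by positivity) (hm54.trans hT2)
  have u18 := c1 (A ^ 4) (m ^ 6) hA40 le_rfl (by positivity) (hm64.trans hT2)
  have f4 : A * (2 * (1 * (X * (6 * A * m ^ 2)))) = 12 * (A ^ 2 * (X * m ^ 2)) := by ring
  have f5 : A * (6 * A * m ^ 2) ^ 2 = 36 * (A ^ 3 * m ^ 4) := by ring
  have f6 : A * (1 * (X * (A * m ^ 2))) = A ^ 2 * (X * m ^ 2) := by ring
  have f7 : A * (A * (X * m) * (1 * m)) = A ^ 2 * (X * m ^ 2) := by ring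
  have f9 : A * (A * m ^ 3 * (1 * m)) = A ^ 2 * m ^ 4 := by ring
  have f10 : A * (A * T * (1 * m)) = A ^ 2 * (T * m) := by ring
  have f11 : A * (6 * A * m ^ 2 * (A * m ^ 2)) = 6 * (A ^ 3 * m ^ 4) := by ring
  have f12 : A * (2 * (A * (X * m ^ 2))) = 2 * (A ^ 2 * (X * m ^ 2)) := by ring
  have f13 : A * (A ^ 2 * (X * m * m ^ 2)) = A ^ 3 * (X * m ^ 3) := by ring
  have f14 : A * (A ^ 2 * m ^ 4) = A ^ 3 * m ^ 4 := by ring
  have f15 : A * (2 * (A * A * (X * m ^ 3))) = 2 * (A ^ 3 * (X * m ^ 3)) := by ring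
  have f16 : A * (3 * (m ^ 2 * (2 * A * m ^ 2))) = 6 * (A ^ 2 * m ^ 4) := by ring
  have f17 : A * (3 * (m * (2 * A * m ^ 2) ^ 2)) = 12 * (A ^ 3 * m ^ 5) := by ring
  have f18 : A * (2 * A * m ^ 2) ^ 3 = 8 * (A ^ 4 * m ^ 6) := by ring
  rw [f4, f5, f6, f7, f9, f10, f11, f12, f13, f14, f15, f16, f17, f18]
  have hAT : 0 ≤ A ^ 4 * T := mul_nonneg hA40 hT0
  linarith

end Pool.Agent.Lib.MP_b771e3_an
end

section

set_option autoImplicit false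

open Filter Topology

namespace Pool.Agent.Lib.MP_b771e3_an

/-- Clipped path of exponents.  `dX n = -log |λ_n|`, `dY n = -log |μ_n|`; `(ξ, η)` is the path of
exponents clipped to the cone of ratio `2 - τ`, `kx`, `ky` are the amounts clipped and `c` is the
total amount clipped so far. -/
structure PD where
  a : ℝ
  b : ℝ
  τ : ℝ
  dX : ℕ → ℝ
  dY : ℕ → ℝ
  ξ : ℕ → ℝ
  η : ℕ → ℝ
  c : ℕ → ℝ
  kx : ℕ → ℝ
  ky : ℕ → ℝ
  ha : 0 < a
  hτ : 0 < τ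
  hτ1 : τ ≤ 1 / 1000
  hab : b ≤ (4 - 100 * τ) * a
  hX : ∀ n, a ≤ dX n ∧ dX n ≤ b
  hY : ∀ n, a ≤ dY n ∧ dY n ≤ b
  ξ0 : ξ 0 = 1
  η0 : η 0 = 1
  c0 : c 0 = 0
  ξs : ∀ n, ξ (n + 1) = ξ n + dX n - kx n
  ηs : ∀ n, η (n + 1) = η n + dY n - ky n
  cs : ∀ n, c (n + 1) = c n + kx n + ky n
  kx0 : ∀ n, 0 ≤ kx n
  ky0 : ∀ n, 0 ≤ ky n
  kxb : ∀ n, kx n ≤ b
  kyb : ∀ n, ky n ≤ b
  kxy : ∀ n, kx n = 0 ∨ ky n = 0
  cone1 : ∀ n, ξ n ≤ (2 - τ) * η n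
  cone2 : ∀ n, η n ≤ (2 - τ) * ξ n
  clipx : ∀ n, 0 < kx n →
    ξ (n + 1) = (2 - τ) * η (n + 1) ∧ kx n ≤ (2 - 99 * τ) * (η (n + 1) - η n)
  clipy : ∀ n, 0 < ky n →
    η (n + 1) = (2 - τ) * ξ (n + 1) ∧ ky n ≤ (2 - 99 * τ) * (ξ (n + 1) - ξ n)
  ξa : ∀ n, a ≤ ξ (n + 1) - ξ n
  ηa : ∀ n, a ≤ η (n + 1) - η n
  cξ : ∀ n, c n ≤ (2 - 99 * τ) * ξ n
  cη : ∀ n, c n ≤ (2 - 99 * τ) * η n

namespace PD

variable (P : PD)

/-- The smaller exponent. -/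
noncomputable def M (n : ℕ) : ℝ := min (P.ξ n) (P.η n)

/-- `y²` in the first component is kept at time `n`. -/
def I2 (n : ℕ) : Prop := 2 * P.η n - P.ξ n ≤ P.c n + P.τ * P.M n

/-- `x²` in the second component is kept at time `n`. -/
def J2 (n : ℕ) : Prop := 2 * P.ξ n - P.η n ≤ P.c n + P.τ * P.M n

/-- `y³` in the first component is kept at time `n`. -/
def I3 (n : ℕ) : Prop := P.I2 n ∧ P.η n < P.c n

/-- `x³` in the second component is kept at time `n`. -/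
def J3 (n : ℕ) : Prop := P.J2 n ∧ P.ξ n < P.c n

/-- The adapted norm at time `n`. -/
noncomputable def N (n : ℕ) (v : ℂ × ℂ) : ℝ :=
  max (Real.exp (P.ξ n) * ‖v.1‖) (Real.exp (P.η n) * ‖v.2‖)

/-- Exchange of the two coordinates. -/
def swap : PD where
  a := P.a
  b := P.b
  τ := P.τ
  dX := P.dY
  dY := P.dX
  ξ := P.η
  η := P.ξ
  c := P.c
  kx := P.ky
  ky := P.kx
  ha := P.ha
  hτ := P.hτ
  hτ1 := P.hτ1
  hab := P.hab
  hX := P.hY
  hY := P.hX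
  ξ0 := P.η0
  η0 := P.ξ0
  c0 := P.c0
  ξs := P.ηs
  ηs := P.ξs
  cs := fun n => by rw [P.cs n]; ring
  kx0 := P.ky0
  ky0 := P.kx0
  kxb := P.kyb
  kyb := P.kxb
  kxy := fun n => (P.kxy n).symm
  cone1 := P.cone2
  cone2 := P.cone1
  clipx := P.clipy
  clipy := P.clipx
  ξa := P.ηa
  ηa := P.ξa
  cξ := P.cη
  cη := P.cξ

end PD

/-- Iteration of a sequence of maps: `it F n = F (n-1) ∘ ⋯ ∘ F 0`. -/
def it (F : ℕ → ℂ × ℂ → ℂ × ℂ) : ℕ → ℂ × ℂ → ℂ × ℂ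
  | 0, z => z
  | n + 1, z => F n (it F n z)

/-- Iteration of the inverses: `iti Fi n = Fi 0 ∘ ⋯ ∘ Fi (n-1)`. -/
def iti (Fi : ℕ → ℂ × ℂ → ℂ × ℂ) : ℕ → ℂ × ℂ → ℂ × ℂ
  | 0, z => z
  | n + 1, z => iti Fi n (Fi n z)

/-- A sequence of automorphisms of `ℂ²` with diagonal linear parts and uniform Taylor bounds. -/
structure Dyn (P : PD) where
  A : ℝ
  r : ℝ
  hA : 1 ≤ A
  hr : 0 < r
  hr1 : r ≤ 1
  lam : ℕ → ℂ
  mu : ℕ → ℂ
  a1 : ℕ → ℂ
  b1 : ℕ → ℂ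
  s1 : ℕ → ℂ
  g1 : ℕ → ℂ
  a2 : ℕ → ℂ
  b2 : ℕ → ℂ
  s2 : ℕ → ℂ
  g2 : ℕ → ℂ
  f : ℕ → ℂ × ℂ → ℂ × ℂ
  fi : ℕ → ℂ × ℂ → ℂ × ℂ
  hlam : ∀ n, ‖lam n‖ = Real.exp (-P.dX n)
  hmu : ∀ n, ‖mu n‖ = Real.exp (-P.dY n)
  ha1 : ∀ n, ‖a1 n‖ ≤ A
  hb1 : ∀ n, ‖b1 n‖ ≤ A
  hs1 : ∀ n, ‖s1 n‖ ≤ A
  hg1 : ∀ n, ‖g1 n‖ ≤ A
  ha2 : ∀ n, ‖a2 n‖ ≤ A
  hb2 : ∀ n, ‖b2 n‖ ≤ A
  hs2 : ∀ n, ‖s2 n‖ ≤ A
  hg2 : ∀ n, ‖g2 n‖ ≤ A
  hf : ∀ n, Differentiable ℂ (f n)
  hfi : ∀ n, Differentiable ℂ (fi n)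
  left : ∀ n z, fi n (f n z) = z
  right : ∀ n z, f n (fi n z) = z
  exp1 : ∀ n z, ‖z‖ ≤ r →
    ‖(f n z).1 - (lam n * z.1 + a1 n * z.1 ^ 2 + b1 n * z.1 * z.2 + s1 n * z.2 ^ 2 +
      g1 n * z.2 ^ 3)‖ ≤ A * (‖z.1‖ * ‖z‖ ^ 2 + ‖z‖ ^ 4)
  exp2 : ∀ n z, ‖z‖ ≤ r →
    ‖(f n z).2 - (mu n * z.2 + a2 n * z.2 ^ 2 + b2 n * z.1 * z.2 + s2 n * z.1 ^ 2 +
      g2 n * z.1 ^ 3)‖ ≤ A * (‖z.2‖ * ‖z‖ ^ 2 + ‖z‖ ^ 4)
  lip : ∀ n z w, ‖z‖ ≤ r → ‖w‖ ≤ r →
    ‖f n z - f n w - (lam n * (z.1 - w.1), mu n * (z.2 - w.2))‖ ≤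
      A * max ‖z‖ ‖w‖ * ‖z - w‖

/-- The quadratic conjugacy removing the mixed quadratic terms. -/
structure Conj {P : PD} (D : Dyn P) where
  B : ℝ
  hB : 1 ≤ B
  p1 : ℕ → ℂ
  p2 : ℕ → ℂ
  q1 : ℕ → ℂ
  q2 : ℕ → ℂ
  hp1 : ∀ n, ‖p1 n‖ ≤ B
  hp2 : ∀ n, ‖p2 n‖ ≤ B
  hq1 : ∀ n, ‖q1 n‖ ≤ B
  hq2 : ∀ n, ‖q2 n‖ ≤ B
  ep1 : ∀ n, D.a1 n + p1 (n + 1) * D.lam n ^ 2 = D.lam n * p1 n
  ep2 : ∀ n, D.b1 n + p2 (n + 1) * D.lam n * D.mu n = D.lam n * p2 n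
  eq1 : ∀ n, D.b2 n + q1 (n + 1) * D.lam n * D.mu n = D.mu n * q1 n
  eq2 : ∀ n, D.a2 n + q2 (n + 1) * D.mu n ^ 2 = D.mu n * q2 n

namespace Conj

variable {P : PD} {D : Dyn P} (C : Conj D)

/-- `h_n`. -/
def H (n : ℕ) (z : ℂ × ℂ) : ℂ × ℂ :=
  (z.1 + C.p1 n * z.1 ^ 2 + C.p2 n * z.1 * z.2, z.2 + C.q1 n * z.1 * z.2 + C.q2 n * z.2 ^ 2)

/-- An approximate inverse of `h_n`. -/
def Ht (n : ℕ) (z : ℂ × ℂ) : ℂ × ℂ :=
  (z.1 - C.p1 n * z.1 ^ 2 - C.p2 n * z.1 * z.2, z.2 - C.q1 n * z.1 * z.2 - C.q2 n * z.2 ^ 2)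

/-- Coefficient of `y³` in the model. -/
def gam1 (n : ℕ) : ℂ := D.g1 n + C.p2 (n + 1) * D.s1 n * D.mu n - 2 * D.s1 n * C.q2 n

/-- Coefficient of `x³` in the model. -/
def gam2 (n : ℕ) : ℂ := D.g2 n + C.q1 (n + 1) * D.s2 n * D.lam n - 2 * D.s2 n * C.p1 n

open Classical in
/-- The model map `g_n`. -/
noncomputable def G (n : ℕ) (z : ℂ × ℂ) : ℂ × ℂ :=
  (D.lam n * z.1 + (if P.I2 n then D.s1 n else 0) * z.2 ^ 2 +
      (if P.I3 n then C.gam1 n else 0) * z.2 ^ 3,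
    D.mu n * z.2 + (if P.J2 n then D.s2 n else 0) * z.1 ^ 2 +
      (if P.J3 n then C.gam2 n else 0) * z.1 ^ 3)

open Classical in
/-- The inverse of the model map. -/
noncomputable def Gi (n : ℕ) (w : ℂ × ℂ) : ℂ × ℂ :=
  if P.I2 n then
    ((w.1 - D.s1 n * (w.2 / D.mu n) ^ 2 -
      (if P.I3 n then C.gam1 n else 0) * (w.2 / D.mu n) ^ 3) / D.lam n, w.2 / D.mu n)
  else
    (w.1 / D.lam n, (w.2 - (if P.J2 n then D.s2 n else 0) * (w.1 / D.lam n) ^ 2 -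
      (if P.J3 n then C.gam2 n else 0) * (w.1 / D.lam n) ^ 3) / D.mu n)

end Conj

/-- The hypotheses under which `(G^n)⁻¹ ∘ H_n ∘ F^n` converges. -/
structure Trans (P : PD) (F G Gi H : ℕ → ℂ × ℂ → ℂ × ℂ) : Prop where
  gl : ∀ n z, Gi n (G n z) = z
  gr : ∀ n z, G n (Gi n z) = z
  lip : ∀ K : ℝ, ∃ A : ℝ, ∃ n₀ : ℕ, 0 ≤ A ∧ ∀ n, n₀ ≤ n → ∀ w v, P.N n w ≤ K →
    P.N (n + 1) (v - G n w) ≤ Real.exp (-P.b) / 4 →
    P.N n (Gi n v - w) ≤
      Real.exp (P.kx n + P.ky n) * (1 + A * Real.exp (-P.τ * P.M n)) * P.N (n + 1) (v - G n w)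
  err : ∀ K : ℝ, ∃ A : ℝ, ∃ n₀ : ℕ, 0 ≤ A ∧ ∀ n, n₀ ≤ n → ∀ z, P.N n z ≤ K →
    P.N (n + 1) (H (n + 1) (F n z) - G n (H n z)) ≤
      A * (Real.exp (-P.c n) * Real.exp (-P.τ * P.M n))
  hb : ∀ K : ℝ, ∃ K' : ℝ, ∃ n₀ : ℕ, ∀ n, n₀ ≤ n → ∀ z, P.N n z ≤ K → P.N n (H n z) ≤ K'

end Pool.Agent.Lib.MP_b771e3_an
end

section

set_option autoImplicit false

open Filter Topology

namespace Pool.Agent.Lib.MP_b771e3_an

namespace PD

variable (P : PD)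

theorem bpos : 0 < P.b := by
  have := P.hX 0
  have := P.ha
  linarith

/-- `ξ n ≥ 1 + a n` etc. -/
theorem lower (n : ℕ) : 1 + P.a * n ≤ P.ξ n ∧ 1 + P.a * n ≤ P.η n := by
  induction n with
  | zero => simp [P.ξ0, P.η0]
  | succ n ih =>
    have h1 := P.ξa n
    have h2 := P.ηa n
    push_cast
    constructor <;> nlinarith [ih.1, ih.2]

theorem upper (n : ℕ) : P.ξ n ≤ 1 + P.b * n ∧ P.η n ≤ 1 + P.b * n := by
  induction n with
  | zero => simp [P.ξ0, P.η0]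
  | succ n ih =>
    have h1 := P.ξs n
    have h2 := P.ηs n
    have h3 := P.kx0 n
    have h4 := P.ky0 n
    have h5 := (P.hX n).2
    have h6 := (P.hY n).2
    push_cast
    constructor <;> nlinarith [ih.1, ih.2]

theorem c_nonneg (n : ℕ) : 0 ≤ P.c n := by
  induction n with
  | zero => simp [P.c0]
  | succ n ih =>
    rw [P.cs n]
    have h3 := P.kx0 n
    have h4 := P.ky0 n
    linarith

theorem M_lower (n : ℕ) : 1 + P.a * n ≤ P.M n :=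
  le_min (P.lower n).1 (P.lower n).2

theorem M_pos (n : ℕ) : 0 < P.M n := by
  have h1 := P.M_lower n
  have h2 : 0 ≤ P.a * n := mul_nonneg P.ha.le (Nat.cast_nonneg n)
  linarith

theorem M_mono (n : ℕ) : P.M n ≤ P.M (n + 1) := by
  have h1 := P.ξa n
  have h2 := P.ηa n
  have h3 := P.ha
  unfold M
  exact min_le_min (by linarith) (by linarith)

/-- If only the second type is kept. -/
theorem J_of_I (n : ℕ) (h1 : 7 / 2 * P.c n ≤ 4 * P.ξ n - P.η n) (h2 : P.J2 n) :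
    ¬ P.I2 n ∧ 7 / 2 * P.c n ≤ 4 * P.η n - P.ξ n := by
  unfold J2 at h2
  unfold I2
  have hM := P.M_pos n
  have hMξ : P.M n ≤ P.ξ n := min_le_left _ _
  have ht : P.τ * P.M n ≤ 1 / 1000 * P.M n := mul_le_mul_of_nonneg_right P.hτ1 hM.le
  have ht0 : 0 < P.τ * P.M n := mul_pos P.hτ hM
  generalize P.τ * P.M n = s at *
  constructor
  · rw [not_le]
    linarith
  · linarith

/-- After a clip of the first type. -/
theorem of_kx (n : ℕ) (h : 0 < P.kx n) :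
    P.I2 (n + 1) ∧ ¬ P.J2 (n + 1) ∧ 7 / 2 * P.c (n + 1) ≤ 4 * P.ξ (n + 1) - P.η (n + 1) := by
  obtain ⟨h1, h2⟩ := P.clipx n h
  have hky : P.ky n = 0 := (P.kxy n).resolve_left h.ne'
  have hc : P.c (n + 1) = P.c n + P.kx n := by rw [P.cs n, hky]; ring
  have hc0 := P.c_nonneg (n + 1)
  have hcb : P.c (n + 1) ≤ (2 - 99 * P.τ) * P.η (n + 1) := by
    have := P.cη n
    rw [hc]
    nlinarith
  have hη : 0 < P.η (n + 1) := lt_of_lt_of_le (P.M_pos (n + 1)) (min_le_right _ _)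
  have hτ := P.hτ
  have hτ1 := P.hτ1
  have hte : 0 < P.τ * P.η (n + 1) := mul_pos hτ hη
  have hte1 : P.τ * P.η (n + 1) ≤ 1 / 1000 * P.η (n + 1) :=
    mul_le_mul_of_nonneg_right hτ1 hη.le
  have hM : P.M (n + 1) = P.η (n + 1) := by
    unfold M
    apply min_eq_right
    rw [h1]
    nlinarith
  unfold I2 J2
  rw [hM, h1]
  refine ⟨by nlinarith, ?_, by nlinarith⟩
  rw [not_le]
  nlinarith

/-- After a clip of the second type. -/
theorem of_ky (n : ℕ) (h : 0 < P.ky n) :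
    P.J2 (n + 1) ∧ ¬ P.I2 (n + 1) ∧ 7 / 2 * P.c (n + 1) ≤ 4 * P.η (n + 1) - P.ξ (n + 1) := by
  obtain ⟨h1, h2⟩ := P.clipy n h
  have hkx : P.kx n = 0 := (P.kxy n).resolve_right h.ne'
  have hc : P.c (n + 1) = P.c n + P.ky n := by rw [P.cs n, hkx]; ring
  have hc0 := P.c_nonneg (n + 1)
  have hcb : P.c (n + 1) ≤ (2 - 99 * P.τ) * P.ξ (n + 1) := by
    have := P.cξ n
    rw [hc]
    nlinarith
  have hξ : 0 < P.ξ (n + 1) := lt_of_lt_of_le (P.M_pos (n + 1)) (min_le_left _ _)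
  have hτ := P.hτ
  have hτ1 := P.hτ1
  have hte : 0 < P.τ * P.ξ (n + 1) := mul_pos hτ hξ
  have hte1 : P.τ * P.ξ (n + 1) ≤ 1 / 1000 * P.ξ (n + 1) :=
    mul_le_mul_of_nonneg_right hτ1 hξ.le
  have hM : P.M (n + 1) = P.ξ (n + 1) := by
    unfold M
    apply min_eq_left
    rw [h1]
    nlinarith
  unfold I2 J2
  rw [hM, h1]
  refine ⟨by nlinarith, ?_, by nlinarith⟩
  rw [not_le]
  nlinarith

/-- At every time one of the two types is excluded and `c` is controlled. -/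
theorem state (n : ℕ) :
    (¬ P.J2 n ∧ 7 / 2 * P.c n ≤ 4 * P.ξ n - P.η n) ∨
      (¬ P.I2 n ∧ 7 / 2 * P.c n ≤ 4 * P.η n - P.ξ n) := by
  induction n with
  | zero =>
    left
    unfold J2 M
    rw [P.ξ0, P.η0, P.c0]
    have hτ1 := P.hτ1
    constructor
    · rw [not_le]
      simp
      linarith
    · norm_num
  | succ n ih =>
    rcases (P.kx0 n).lt_or_eq with hkx | hkx
    · exact Or.inl (P.of_kx n hkx).2
    rcases (P.ky0 n).lt_or_eq with hky | hky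
    · exact Or.inr (P.of_ky n hky).2
    have hc : P.c (n + 1) = P.c n := by rw [P.cs n, ← hkx, ← hky]; ring
    have hξ : P.ξ (n + 1) = P.ξ n + P.dX n := by rw [P.ξs n, ← hkx]; ring
    have hη : P.η (n + 1) = P.η n + P.dY n := by rw [P.ηs n, ← hky]; ring
    have hab : 0 ≤ 4 * P.a - P.b := by
      have := P.hab
      have := mul_pos P.hτ P.ha
      nlinarith
    have hX := P.hX n
    have hY := P.hY n
    rcases ih with ⟨_, h⟩ | ⟨_, h⟩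
    · have h' : 7 / 2 * P.c (n + 1) ≤ 4 * P.ξ (n + 1) - P.η (n + 1) := by
        rw [hc, hξ, hη]; linarith
      by_cases hJ : P.J2 (n + 1)
      · exact Or.inr (P.J_of_I (n + 1) h' hJ)
      · exact Or.inl ⟨hJ, h'⟩
    · have h' : 7 / 2 * P.c (n + 1) ≤ 4 * P.η (n + 1) - P.ξ (n + 1) := by
        rw [hc, hξ, hη]; linarith
      by_cases hI : P.I2 (n + 1)
      · left
        have hI' : P.swap.J2 (n + 1) := by
          show 2 * P.η (n + 1) - P.ξ (n + 1) ≤ P.c (n + 1) + P.τ * min (P.η (n + 1)) (P.ξ (n + 1))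
          rw [min_comm]
          exact hI
        have := P.swap.J_of_I (n + 1) h' hI'
        refine ⟨fun hJ => this.1 ?_, this.2⟩
        show 2 * P.ξ (n + 1) - P.η (n + 1) ≤ P.c (n + 1) + P.τ * min (P.η (n + 1)) (P.ξ (n + 1))
        rw [min_comm]
        exact hJ
      · exact Or.inr ⟨hI, h'⟩

theorem not_both (n : ℕ) : ¬ (P.I2 n ∧ P.J2 n) := by
  rintro ⟨hI, hJ⟩
  rcases P.state n with h | h
  · exact h.1 hJ
  · exact h.1 hI

end PD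

end Pool.Agent.Lib.MP_b771e3_an
end

section

set_option autoImplicit false

open Filter Topology

namespace Pool.Agent.Lib.MP_b771e3_an

variable {P : PD}

/-! ### Elementary facts on the adapted norm -/

theorem N_nonneg (n : ℕ) (v : ℂ × ℂ) : 0 ≤ P.N n v :=
  le_max_of_le_left (by positivity)

theorem N_add (n : ℕ) (v w : ℂ × ℂ) : P.N n (v + w) ≤ P.N n v + P.N n w := by
  unfold PD.N
  refine max_le ?_ ?_
  · calc Real.exp (P.ξ n) * ‖(v + w).1‖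
        ≤ Real.exp (P.ξ n) * (‖v.1‖ + ‖w.1‖) := by
          refine mul_le_mul_of_nonneg_left ?_ (Real.exp_pos _).le
          exact norm_add_le _ _
      _ = Real.exp (P.ξ n) * ‖v.1‖ + Real.exp (P.ξ n) * ‖w.1‖ := by ring
      _ ≤ _ := add_le_add (le_max_left _ _) (le_max_left _ _)
  · calc Real.exp (P.η n) * ‖(v + w).2‖
        ≤ Real.exp (P.η n) * (‖v.2‖ + ‖w.2‖) := by
          refine mul_le_mul_of_nonneg_left ?_ (Real.exp_pos _).le
          exact norm_add_le _ _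
      _ = Real.exp (P.η n) * ‖v.2‖ + Real.exp (P.η n) * ‖w.2‖ := by ring
      _ ≤ _ := add_le_add (le_max_right _ _) (le_max_right _ _)

theorem N_sub_comm (n : ℕ) (v w : ℂ × ℂ) : P.N n (v - w) = P.N n (w - v) := by
  unfold PD.N
  rw [Prod.fst_sub, Prod.snd_sub, Prod.fst_sub, Prod.snd_sub, norm_sub_rev v.1 w.1,
    norm_sub_rev v.2 w.2]

theorem N_smul (n : ℕ) (t : ℝ) (ht : 0 ≤ t) (v : ℂ × ℂ) : P.N n ((t : ℂ) • v) = t * P.N n v := by
  unfold PD.N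
  have h1 : ‖((t : ℂ) • v).1‖ = t * ‖v.1‖ := by
    rw [Prod.smul_fst, norm_smul, Complex.norm_real, Real.norm_of_nonneg ht]
  have h2 : ‖((t : ℂ) • v).2‖ = t * ‖v.2‖ := by
    rw [Prod.smul_snd, norm_smul, Complex.norm_real, Real.norm_of_nonneg ht]
  rw [h1, h2, mul_max_of_nonneg _ _ ht]
  congr 1 <;> ring

theorem fst_le_N (n : ℕ) (v : ℂ × ℂ) : ‖v.1‖ ≤ Real.exp (-P.ξ n) * P.N n v := by
  have h : Real.exp (P.ξ n) * ‖v.1‖ ≤ P.N n v := le_max_left _ _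
  calc ‖v.1‖ = Real.exp (-P.ξ n) * (Real.exp (P.ξ n) * ‖v.1‖) := by
        rw [← mul_assoc, ← Real.exp_add, neg_add_cancel, Real.exp_zero, one_mul]
    _ ≤ _ := mul_le_mul_of_nonneg_left h (Real.exp_pos _).le

theorem snd_le_N (n : ℕ) (v : ℂ × ℂ) : ‖v.2‖ ≤ Real.exp (-P.η n) * P.N n v := by
  have h : Real.exp (P.η n) * ‖v.2‖ ≤ P.N n v := le_max_right _ _
  calc ‖v.2‖ = Real.exp (-P.η n) * (Real.exp (P.η n) * ‖v.2‖) := by
        rw [← mul_assoc, ← Real.exp_add, neg_add_cancel, Real.exp_zero, one_mul]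
    _ ≤ _ := mul_le_mul_of_nonneg_left h (Real.exp_pos _).le

/-- The sup norm is controlled: `‖v‖ ≤ exp (-M n) N n v`. -/
theorem norm_le_N (n : ℕ) (v : ℂ × ℂ) : ‖v‖ ≤ Real.exp (-P.M n) * P.N n v := by
  rw [Prod.norm_def]
  refine max_le ?_ ?_
  · refine (fst_le_N (P := P) n v).trans ?_
    refine mul_le_mul_of_nonneg_right ?_ (N_nonneg n v)
    exact Real.exp_le_exp.mpr (neg_le_neg (min_le_left _ _))
  · refine (snd_le_N (P := P) n v).trans ?_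
    refine mul_le_mul_of_nonneg_right ?_ (N_nonneg n v)
    exact Real.exp_le_exp.mpr (neg_le_neg (min_le_right _ _))

/-- `N n v ≤ exp (max ξ η) ‖v‖`. -/
theorem N_le_norm (n : ℕ) (v : ℂ × ℂ) :
    P.N n v ≤ Real.exp (max (P.ξ n) (P.η n)) * ‖v‖ := by
  unfold PD.N
  refine max_le ?_ ?_
  · exact mul_le_mul (Real.exp_le_exp.mpr (le_max_left _ _)) (norm_fst_le v) (norm_nonneg _)
      (Real.exp_pos _).le
  · exact mul_le_mul (Real.exp_le_exp.mpr (le_max_right _ _)) (norm_snd_le v) (norm_nonneg _)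
      (Real.exp_pos _).le

theorem continuous_N (n : ℕ) : Continuous (P.N n) := by
  have : P.N n = fun v : ℂ × ℂ =>
      max (Real.exp (P.ξ n) * ‖v.1‖) (Real.exp (P.η n) * ‖v.2‖) := by
    funext v; rfl
  rw [this]
  fun_prop

theorem tendsto_lin : Tendsto (fun n : ℕ => 1 + P.a * (n : ℝ)) atTop atTop :=
  tendsto_atTop_add_const_left _ _
    (Tendsto.const_mul_atTop P.ha tendsto_natCast_atTop_atTop)

/-- The sup norm of points of bounded adapted norm is eventually small. -/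
theorem eventually_small (K r : ℝ) (hr : 0 < r) :
    ∃ n₀ : ℕ, ∀ n, n₀ ≤ n → ∀ z : ℂ × ℂ, P.N n z ≤ K → ‖z‖ ≤ r := by
  have h1 : Tendsto (fun n : ℕ => Real.exp (-(1 + P.a * (n : ℝ))) * |K|) atTop (𝓝 (0 * |K|)) :=
    (Real.tendsto_exp_neg_atTop_nhds_zero.comp (tendsto_lin (P := P))).mul_const _
  rw [zero_mul] at h1
  have h2 := (h1.eventually (gt_mem_nhds hr))
  obtain ⟨n₀, h3⟩ := eventually_atTop.mp h2
  refine ⟨n₀, fun n hn z hz => ?_⟩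
  calc ‖z‖ ≤ Real.exp (-P.M n) * P.N n z := norm_le_N n z
    _ ≤ Real.exp (-P.M n) * |K| :=
        mul_le_mul_of_nonneg_left (hz.trans (le_abs_self K)) (Real.exp_pos _).le
    _ ≤ Real.exp (-(1 + P.a * (n : ℝ))) * |K| :=
        mul_le_mul_of_nonneg_right (Real.exp_le_exp.mpr (neg_le_neg (P.M_lower n)))
          (abs_nonneg _)
    _ ≤ r := (h3 n hn).le

/-- `exp (-τ M n)` is summable. -/
theorem summable_exp_M : Summable fun n => Real.exp (-P.τ * P.M n) := by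
  have hq : Real.exp (-(P.τ * P.a)) < 1 := by
    rw [Real.exp_lt_one_iff]
    have := mul_pos P.hτ P.ha
    linarith
  have h1 : Summable fun n : ℕ => Real.exp (-(P.τ * P.a)) ^ n :=
    summable_geometric_of_lt_one (Real.exp_pos _).le hq
  refine Summable.of_nonneg_of_le (fun n => (Real.exp_pos _).le) (fun n => ?_) h1
  rw [← Real.exp_nat_mul]
  refine Real.exp_le_exp.mpr ?_
  have h2 : P.a * n ≤ P.M n := by
    have := P.M_lower n
    linarith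
  have h3 : P.τ * (P.a * n) ≤ P.τ * P.M n := mul_le_mul_of_nonneg_left h2 P.hτ.le
  calc -P.τ * P.M n = -(P.τ * P.M n) := by ring
    _ ≤ -(P.τ * (P.a * n)) := neg_le_neg h3
    _ = (n : ℝ) * -(P.τ * P.a) := by ring

theorem tendsto_exp_M : Tendsto (fun n => Real.exp (-P.τ * P.M n)) atTop (𝓝 0) :=
  (summable_exp_M (P := P)).tendsto_atTop_zero

end Pool.Agent.Lib.MP_b771e3_an
end

section

set_option autoImplicit false

open Filter Topology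

namespace Pool.Agent.Lib.MP_b771e3_an

variable {P : PD} {D : Dyn P} (C : Conj D)

theorem conv_max_le (P : PD) (n : ℕ) :
    P.ξ n ≤ (2 - P.τ) * P.M n ∧ P.η n ≤ (2 - P.τ) * P.M n ∧ P.c n ≤ (2 - 99 * P.τ) * P.M n ∧
      0 ≤ P.M n ∧ P.M n ≤ P.ξ n ∧ P.M n ≤ P.η n := by
  have h1 := P.cone1 n
  have h2 := P.cone2 n
  have h3 := P.cξ n
  have h4 := P.cη n
  have hτ := P.hτ
  have hτ1 := P.hτ1
  have hM := (P.M_pos n).le
  unfold PD.M at hM ⊢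
  rcases le_total (P.ξ n) (P.η n) with h | h
  · rw [min_eq_left h] at hM ⊢
    refine ⟨?_, h2, h3, hM, le_rfl, h⟩
    nlinarith
  · rw [min_eq_right h] at hM ⊢
    refine ⟨h1, ?_, h4, hM, h, le_rfl⟩
    nlinarith

/-- Conversion of the four kinds of error terms into the adapted norm, first component:
if `N n z ≤ K` then (with `m = ‖z‖`)
* `exp ξ ‖y‖²` is small unless `I2`; * `exp ξ ‖y‖³` is small unless `I3`;
* `exp ξ (‖x‖ m² + m⁴)` is small. -/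
theorem conv1 (P : PD) (K : ℝ) (hK : 1 ≤ K) (n : ℕ) (z : ℂ × ℂ) (hz : P.N n z ≤ K) :
    (¬ P.I2 n → Real.exp (P.ξ n) * ‖z.2‖ ^ 2 ≤
      K ^ 4 * (Real.exp (-P.c n) * Real.exp (-P.τ * P.M n))) ∧
    (¬ P.I3 n → Real.exp (P.ξ n) * ‖z.2‖ ^ 3 ≤
      K ^ 4 * (Real.exp (-P.c n) * Real.exp (-P.τ * P.M n))) ∧
    Real.exp (P.ξ n) * (‖z.1‖ * ‖z‖ ^ 2 + ‖z‖ ^ 4) ≤
      2 * K ^ 4 * (Real.exp (-P.c n) * Real.exp (-P.τ * P.M n)) := by
  obtain ⟨hM1, hM2, hM3, hM0, hMξ, hMη⟩ := conv_max_le P n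
  have hτ := P.hτ
  have hτ1 := P.hτ1
  have hK0 : 0 ≤ K := zero_le_one.trans hK
  have hx : ‖z.1‖ ≤ Real.exp (-P.ξ n) * K :=
    (fst_le_N n z).trans (mul_le_mul_of_nonneg_left hz (Real.exp_pos _).le)
  have hy : ‖z.2‖ ≤ Real.exp (-P.η n) * K :=
    (snd_le_N n z).trans (mul_le_mul_of_nonneg_left hz (Real.exp_pos _).le)
  have hm : ‖z‖ ≤ Real.exp (-P.M n) * K :=
    (norm_le_N n z).trans (mul_le_mul_of_nonneg_left hz (Real.exp_pos _).le)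
  have hK24 : K ^ 2 ≤ K ^ 4 := pow_le_pow_right₀ hK (by norm_num)
  have hK34 : K ^ 3 ≤ K ^ 4 := pow_le_pow_right₀ hK (by norm_num)
  have hE : Real.exp (-P.c n) * Real.exp (-P.τ * P.M n) = Real.exp (-P.c n + -P.τ * P.M n) :=
    (Real.exp_add _ _).symm
  rw [hE]
  -- a general estimate
  have gen : ∀ (t : ℝ) (j : ℕ), t ≤ -P.c n + -P.τ * P.M n → j ≤ 4 → Real.exp t * K ^ j ≤
      K ^ 4 * Real.exp (-P.c n + -P.τ * P.M n) := by
    intro t j ht hj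
    rw [mul_comm (K ^ 4)]
    exact mul_le_mul (Real.exp_le_exp.mpr ht) (pow_le_pow_right₀ hK hj) (pow_nonneg hK0 _)
      (Real.exp_pos _).le
  refine ⟨?_, ?_, ?_⟩
  · intro hI
    have hI' : P.c n + P.τ * P.M n < 2 * P.η n - P.ξ n := not_le.mp hI
    calc Real.exp (P.ξ n) * ‖z.2‖ ^ 2 ≤ Real.exp (P.ξ n) * (Real.exp (-P.η n) * K) ^ 2 :=
          mul_le_mul_of_nonneg_left (pow_le_pow_left₀ (norm_nonneg _) hy 2) (Real.exp_pos _).le
      _ = Real.exp (P.ξ n + ((2 : ℕ) : ℝ) * (-P.η n)) * K ^ 2 := by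
          rw [mul_pow, ← Real.exp_nat_mul, Real.exp_add]
          ring
      _ ≤ _ := gen _ _ (by push_cast; linarith) (by norm_num)
  · intro hI
    have hexp : P.ξ n + ((3 : ℕ) : ℝ) * (-P.η n) ≤ -P.c n + -P.τ * P.M n := by
      push_cast
      by_cases h2 : P.I2 n
      · have h3 : P.c n ≤ P.η n := by
          by_contra hcon
          exact hI ⟨h2, not_le.mp hcon⟩
        have h4 := P.cone1 n
        have h5 : P.τ * P.M n ≤ P.τ * P.η n := mul_le_mul_of_nonneg_left hMη hτ.le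
        linarith
      · have hI' : P.c n + P.τ * P.M n < 2 * P.η n - P.ξ n := not_le.mp h2
        linarith
    calc Real.exp (P.ξ n) * ‖z.2‖ ^ 3 ≤ Real.exp (P.ξ n) * (Real.exp (-P.η n) * K) ^ 3 :=
          mul_le_mul_of_nonneg_left (pow_le_pow_left₀ (norm_nonneg _) hy 3) (Real.exp_pos _).le
      _ = Real.exp (P.ξ n + ((3 : ℕ) : ℝ) * (-P.η n)) * K ^ 3 := by
          rw [mul_pow, ← Real.exp_nat_mul, Real.exp_add]
          ring
      _ ≤ _ := gen _ _ hexp (by norm_num)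
  · have hτM : 0 ≤ P.τ * P.M n := mul_nonneg hτ.le hM0
    have h1 : Real.exp (P.ξ n) * (‖z.1‖ * ‖z‖ ^ 2) ≤
        K ^ 4 * Real.exp (-P.c n + -P.τ * P.M n) := by
      calc Real.exp (P.ξ n) * (‖z.1‖ * ‖z‖ ^ 2) ≤
          Real.exp (P.ξ n) * ((Real.exp (-P.ξ n) * K) * (Real.exp (-P.M n) * K) ^ 2) := by
            refine mul_le_mul_of_nonneg_left ?_ (Real.exp_pos _).le
            exact mul_le_mul hx (pow_le_pow_left₀ (norm_nonneg _) hm 2)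
              (pow_nonneg (norm_nonneg _) 2) (by positivity)
        _ = Real.exp (((2 : ℕ) : ℝ) * (-P.M n)) * K ^ 3 := by
            rw [mul_pow, ← Real.exp_nat_mul]
            have : Real.exp (P.ξ n) * Real.exp (-P.ξ n) = 1 := by
              rw [← Real.exp_add, add_neg_cancel, Real.exp_zero]
            calc _ = (Real.exp (P.ξ n) * Real.exp (-P.ξ n)) *
                  (Real.exp (((2 : ℕ) : ℝ) * (-P.M n)) * K ^ 3) := by ring
              _ = _ := by rw [this, one_mul]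
        _ ≤ _ := gen _ _ (by push_cast; nlinarith) (by norm_num)
    have h2 : Real.exp (P.ξ n) * ‖z‖ ^ 4 ≤ K ^ 4 * Real.exp (-P.c n + -P.τ * P.M n) := by
      calc Real.exp (P.ξ n) * ‖z‖ ^ 4 ≤ Real.exp (P.ξ n) * (Real.exp (-P.M n) * K) ^ 4 :=
            mul_le_mul_of_nonneg_left (pow_le_pow_left₀ (norm_nonneg _) hm 4) (Real.exp_pos _).le
        _ = Real.exp (P.ξ n + ((4 : ℕ) : ℝ) * (-P.M n)) * K ^ 4 := by
            rw [mul_pow, ← Real.exp_nat_mul, Real.exp_add]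
            ring
        _ ≤ _ := gen _ _ (by push_cast; nlinarith) (by norm_num)
    calc Real.exp (P.ξ n) * (‖z.1‖ * ‖z‖ ^ 2 + ‖z‖ ^ 4) =
        Real.exp (P.ξ n) * (‖z.1‖ * ‖z‖ ^ 2) + Real.exp (P.ξ n) * ‖z‖ ^ 4 := by ring
      _ ≤ K ^ 4 * Real.exp (-P.c n + -P.τ * P.M n) + K ^ 4 * Real.exp (-P.c n + -P.τ * P.M n) :=
          add_le_add h1 h2
      _ = _ := by ring

theorem conv_swap_M (P : PD) (n : ℕ) : P.swap.M n = P.M n := min_comm _ _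

theorem conv_swap_N (P : PD) (n : ℕ) (z : ℂ × ℂ) : P.swap.N n (z.2, z.1) = P.N n z :=
  max_comm _ _

/-- The same for the second component. -/
theorem conv2 (P : PD) (K : ℝ) (hK : 1 ≤ K) (n : ℕ) (z : ℂ × ℂ) (hz : P.N n z ≤ K) :
    (¬ P.J2 n → Real.exp (P.η n) * ‖z.1‖ ^ 2 ≤
      K ^ 4 * (Real.exp (-P.c n) * Real.exp (-P.τ * P.M n))) ∧
    (¬ P.J3 n → Real.exp (P.η n) * ‖z.1‖ ^ 3 ≤
      K ^ 4 * (Real.exp (-P.c n) * Real.exp (-P.τ * P.M n))) ∧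
    Real.exp (P.η n) * (‖z.2‖ * ‖z‖ ^ 2 + ‖z‖ ^ 4) ≤
      2 * K ^ 4 * (Real.exp (-P.c n) * Real.exp (-P.τ * P.M n)) := by
  have h := conv1 P.swap K hK n (z.2, z.1) (by rw [conv_swap_N]; exact hz)
  have hM := conv_swap_M P n
  have hI2 : P.swap.I2 n ↔ P.J2 n := by
    unfold PD.I2 PD.J2
    rw [hM]
    rfl
  have hI3 : P.swap.I3 n ↔ P.J3 n := by
    unfold PD.I3 PD.J3
    rw [hI2]
    rfl
  have hn : ‖((z.2, z.1) : ℂ × ℂ)‖ = ‖z‖ := by
    rw [Prod.norm_def, Prod.norm_def]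
    exact max_comm _ _
  rw [hI2, hI3, hM, hn] at h
  exact h

theorem conv_hb (P : PD) (B : ℝ) (hB : 1 ≤ B) (K : ℝ) (n : ℕ) (z w : ℂ × ℂ) (hz : P.N n z ≤ K)
    (h1 : ‖w.1‖ ≤ ‖z.1‖ * (1 + 2 * B * ‖z‖)) (h2 : ‖w.2‖ ≤ ‖z.2‖ * (1 + 2 * B * ‖z‖)) :
    P.N n w ≤ K * (1 + 2 * B * K) := by
  have hK0 : 0 ≤ K := (N_nonneg n z).trans hz
  have hM0 := (P.M_pos n).le
  have hm : ‖z‖ ≤ K := by
    refine (norm_le_N (P := P) n z).trans ?_
    calc Real.exp (-P.M n) * P.N n z ≤ 1 * K :=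
          mul_le_mul (Real.exp_le_one_iff.mpr (by linarith)) hz (N_nonneg n z) zero_le_one
      _ = K := one_mul K
  have hfac : 1 + 2 * B * ‖z‖ ≤ 1 + 2 * B * K := by
    have : 0 ≤ 2 * B := by linarith
    nlinarith
  have hfac0 : 0 ≤ 1 + 2 * B * ‖z‖ := by positivity
  have hz1 : Real.exp (P.ξ n) * ‖z.1‖ ≤ K := (le_max_left _ _).trans hz
  have hz2 : Real.exp (P.η n) * ‖z.2‖ ≤ K := (le_max_right _ _).trans hz
  refine max_le ?_ ?_
  · calc Real.exp (P.ξ n) * ‖w.1‖ ≤ Real.exp (P.ξ n) * (‖z.1‖ * (1 + 2 * B * ‖z‖)) :=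
          mul_le_mul_of_nonneg_left h1 (Real.exp_pos _).le
      _ = (Real.exp (P.ξ n) * ‖z.1‖) * (1 + 2 * B * ‖z‖) := by ring
      _ ≤ K * (1 + 2 * B * K) := mul_le_mul hz1 hfac hfac0 hK0
  · calc Real.exp (P.η n) * ‖w.2‖ ≤ Real.exp (P.η n) * (‖z.2‖ * (1 + 2 * B * ‖z‖)) :=
          mul_le_mul_of_nonneg_left h2 (Real.exp_pos _).le
      _ = (Real.exp (P.η n) * ‖z.2‖) * (1 + 2 * B * ‖z‖) := by ring
      _ ≤ K * (1 + 2 * B * K) := mul_le_mul hz2 hfac hfac0 hK0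

theorem conv_est (B : ℝ) (hB : 1 ≤ B) (p q : ℂ) (hp : ‖p‖ ≤ B) (hq : ‖q‖ ≤ B) (z : ℂ × ℂ)
    (x y : ℂ) (hx : ‖x‖ ≤ ‖z‖) (hy : ‖y‖ ≤ ‖z‖) :
    ‖x + (p * x ^ 2 + q * x * y)‖ ≤ ‖x‖ * (1 + 2 * B * ‖z‖) ∧
    ‖x - (p * x ^ 2 + q * x * y)‖ ≤ ‖x‖ * (1 + 2 * B * ‖z‖) := by
  have hB0 : 0 ≤ B := zero_le_one.trans hB
  have h1 : ‖p * x ^ 2 + q * x * y‖ ≤ ‖x‖ * (2 * B * ‖z‖) := by
    calc ‖p * x ^ 2 + q * x * y‖ ≤ ‖p * x ^ 2‖ + ‖q * x * y‖ := norm_add_le _ _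
      _ = ‖x‖ * (‖p‖ * ‖x‖) + ‖x‖ * (‖q‖ * ‖y‖) := by
          rw [norm_mul, norm_pow, norm_mul, norm_mul]
          ring
      _ ≤ ‖x‖ * (B * ‖z‖) + ‖x‖ * (B * ‖z‖) := by
          refine add_le_add ?_ ?_
          · exact mul_le_mul_of_nonneg_left (mul_le_mul hp hx (norm_nonneg _) hB0) (norm_nonneg _)
          · exact mul_le_mul_of_nonneg_left (mul_le_mul hq hy (norm_nonneg _) hB0) (norm_nonneg _)
      _ = _ := by ring
  constructor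
  · calc _ ≤ ‖x‖ + ‖p * x ^ 2 + q * x * y‖ := norm_add_le _ _
      _ ≤ ‖x‖ + ‖x‖ * (2 * B * ‖z‖) := by linarith
      _ = _ := by ring
  · calc _ ≤ ‖x‖ + ‖p * x ^ 2 + q * x * y‖ := norm_sub_le _ _
      _ ≤ ‖x‖ + ‖x‖ * (2 * B * ‖z‖) := by linarith
      _ = _ := by ring

theorem hb_H : ∀ K : ℝ, ∃ K' : ℝ, ∃ n₀ : ℕ, ∀ n, n₀ ≤ n → ∀ z, P.N n z ≤ K →
    P.N n (C.H n z) ≤ K' := by
  intro K
  refine ⟨K * (1 + 2 * C.B * K), 0, fun n _ z hz => conv_hb P C.B C.hB K n z _ hz ?_ ?_⟩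
  · have h := (conv_est C.B C.hB _ _ (C.hp1 n) (C.hp2 n) z z.1 z.2 (norm_fst_le z)
      (norm_snd_le z)).1
    have e : z.1 + (C.p1 n * z.1 ^ 2 + C.p2 n * z.1 * z.2) = (C.H n z).1 := by
      simp only [Conj.H]
      ring
    rwa [e] at h
  · have h := (conv_est C.B C.hB _ _ (C.hq2 n) (C.hq1 n) z z.2 z.1 (norm_snd_le z)
      (norm_fst_le z)).1
    have e : z.2 + (C.q2 n * z.2 ^ 2 + C.q1 n * z.2 * z.1) = (C.H n z).2 := by
      simp only [Conj.H]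
      ring
    rwa [e] at h

theorem hb_Ht : ∀ K : ℝ, ∃ K' : ℝ, ∃ n₀ : ℕ, ∀ n, n₀ ≤ n → ∀ z, P.N n z ≤ K →
    P.N n (C.Ht n z) ≤ K' := by
  intro K
  refine ⟨K * (1 + 2 * C.B * K), 0, fun n _ z hz => conv_hb P C.B C.hB K n z _ hz ?_ ?_⟩
  · have h := (conv_est C.B C.hB _ _ (C.hp1 n) (C.hp2 n) z z.1 z.2 (norm_fst_le z)
      (norm_snd_le z)).2
    have e : z.1 - (C.p1 n * z.1 ^ 2 + C.p2 n * z.1 * z.2) = (C.Ht n z).1 := by
      simp only [Conj.Ht]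
      ring
    rwa [e] at h
  · have h := (conv_est C.B C.hB _ _ (C.hq2 n) (C.hq1 n) z z.2 z.1 (norm_snd_le z)
      (norm_fst_le z)).2
    have e : z.2 - (C.q2 n * z.2 ^ 2 + C.q1 n * z.2 * z.1) = (C.Ht n z).2 := by
      simp only [Conj.Ht]
      ring
    rwa [e] at h

end Pool.Agent.Lib.MP_b771e3_an
end

section

set_option autoImplicit false

open Filter Topology

namespace Pool.Agent.Lib.MP_b771e3_an

variable {P : PD} (D : Dyn P)

private theorem lipF_k (n : ℕ) : P.kx n + P.ky n ≤ P.b := by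
  have h1 := P.kxb n
  have h2 := P.kyb n
  rcases P.kxy n with h | h <;> rw [h] <;> linarith

private theorem lipF_k0 (n : ℕ) : 0 ≤ P.kx n + P.ky n := add_nonneg (P.kx0 n) (P.ky0 n)

private theorem lipF_M (n : ℕ) : P.M (n + 1) ≤ P.M n + P.b := by
  have h1 : P.ξ (n + 1) ≤ P.ξ n + P.b := by
    have := (P.hX n).2
    have := P.kx0 n
    rw [P.ξs]
    linarith
  have h2 : P.η (n + 1) ≤ P.η n + P.b := by
    have := (P.hY n).2
    have := P.ky0 n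
    rw [P.ηs]
    linarith
  unfold PD.M
  rw [← min_add_add_right]
  exact min_le_min h1 h2

private theorem lipF_max (n : ℕ) : max (P.ξ n) (P.η n) ≤ (2 - P.τ) * P.M n := by
  have hτ := P.hτ
  have hτ1 := P.hτ1
  have hM := P.M_pos n
  have hξ : 0 < P.ξ n := lt_of_lt_of_le hM (min_le_left _ _)
  have hη : 0 < P.η n := lt_of_lt_of_le hM (min_le_right _ _)
  have h1 := P.cone1 n
  have h2 := P.cone2 n
  have h3 : P.M n = P.ξ n ∨ P.M n = P.η n := by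
    unfold PD.M
    exact min_choice _ _
  rcases h3 with h3 | h3 <;> rw [h3] <;> apply max_le <;> nlinarith

private theorem lipF_neg (n : ℕ) (e : ℂ × ℂ) : P.N n (-e) = P.N n e := by
  have := N_sub_comm (P := P) n 0 e
  rwa [zero_sub, sub_zero] at this

private theorem lipF_lin (n : ℕ) (v : ℂ × ℂ) :
    Real.exp (-(P.kx n + P.ky n)) * P.N n v ≤
      P.N (n + 1) (D.lam n * v.1, D.mu n * v.2) := by
  unfold PD.N
  rw [mul_max_of_nonneg _ _ (Real.exp_pos _).le]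
  have hkx := P.kx0 n
  have hky := P.ky0 n
  apply max_le_max
  · rw [norm_mul, D.hlam, P.ξs, ← mul_assoc, ← mul_assoc, ← Real.exp_add, ← Real.exp_add]
    apply mul_le_mul_of_nonneg_right _ (norm_nonneg _)
    apply Real.exp_le_exp.2
    linarith
  · rw [norm_mul, D.hmu, P.ηs, ← mul_assoc, ← mul_assoc, ← Real.exp_add, ← Real.exp_add]
    apply mul_le_mul_of_nonneg_right _ (norm_nonneg _)
    apply Real.exp_le_exp.2
    linarith

/-- A priori form: if both points are in the region and at adapted distance at most one. -/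
theorem lip_F_aux (K : ℝ) : ∃ A : ℝ, ∃ n₀ : ℕ, 0 ≤ A ∧ ∀ n, n₀ ≤ n → ∀ w w', P.N n w ≤ K →
    P.N n (w' - w) ≤ 1 →
    P.N n (w' - w) ≤
      Real.exp (P.kx n + P.ky n) * (1 + A * Real.exp (-P.τ * P.M n)) *
        P.N (n + 1) (D.f n w' - D.f n w) := by
  set K2 : ℝ := |K| + 1 with hK2
  have hK2pos : 0 < K2 := by positivity
  have hA := D.hA
  set A1 : ℝ := D.A * K2 * Real.exp ((2 - P.τ) * P.b) with hA1
  have hA1pos : 0 < A1 := by positivity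
  obtain ⟨n1, hn1⟩ := eventually_small (P := P) K2 D.r D.hr
  have htend : Tendsto (fun n => A1 * Real.exp P.b * Real.exp (-P.τ * P.M n)) atTop (𝓝 0) := by
    have := (tendsto_exp_M (P := P)).const_mul (A1 * Real.exp P.b)
    simpa using this
  obtain ⟨n2, hn2⟩ := eventually_atTop.1
    (htend.eventually (ge_mem_nhds (by norm_num : (0 : ℝ) < 1 / 2)))
  refine ⟨2 * (A1 * Real.exp P.b), max n1 n2, by positivity, ?_⟩
  intro n hn w w' hw hd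
  have hn1' := hn1 n (le_trans (le_max_left _ _) hn)
  have hx := hn2 n (le_trans (le_max_right _ _) hn)
  set s : ℝ := Real.exp (-P.τ * P.M n) with hs
  have hspos : 0 < s := Real.exp_pos _
  set x : ℝ := A1 * Real.exp P.b * s with hxdef
  have hx0 : 0 ≤ x := by positivity
  have hwK : P.N n w ≤ K2 := by
    have := le_abs_self K
    linarith
  have hw'K : P.N n w' ≤ K2 := by
    have h1 : P.N n w' ≤ P.N n (w' - w) + P.N n w := by
      have := N_add (P := P) n (w' - w) w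
      rwa [sub_add_cancel] at this
    have := le_abs_self K
    linarith
  have hwr := hn1' w hwK
  have hw'r := hn1' w' hw'K
  have hM : 0 < P.M n := P.M_pos n
  have hwn : ‖w‖ ≤ Real.exp (-P.M n) * K2 :=
    (norm_le_N n w).trans (mul_le_mul_of_nonneg_left hwK (Real.exp_pos _).le)
  have hw'n : ‖w'‖ ≤ Real.exp (-P.M n) * K2 :=
    (norm_le_N n w').trans (mul_le_mul_of_nonneg_left hw'K (Real.exp_pos _).le)
  set X : ℝ := P.N n (w' - w) with hX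
  have hX0 : 0 ≤ X := N_nonneg _ _
  have hdn : ‖w' - w‖ ≤ Real.exp (-P.M n) * X := norm_le_N n _
  set Y : ℝ := P.N (n + 1) (D.f n w' - D.f n w) with hY
  have hY0 : 0 ≤ Y := N_nonneg _ _
  set ld : ℂ × ℂ := (D.lam n * (w'.1 - w.1), D.mu n * (w'.2 - w.2)) with hld
  set e : ℂ × ℂ := D.f n w' - D.f n w - ld with he
  have hen : ‖e‖ ≤ D.A * (Real.exp (-P.M n) * K2) * (Real.exp (-P.M n) * X) := by
    calc ‖e‖ ≤ D.A * max ‖w'‖ ‖w‖ * ‖w' - w‖ := D.lip n w' w hw'r hwr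
      _ ≤ D.A * (Real.exp (-P.M n) * K2) * (Real.exp (-P.M n) * X) := by
          gcongr
          exact max_le hw'n hwn
  have heN : P.N (n + 1) e ≤ A1 * s * X := by
    have h1 : max (P.ξ (n + 1)) (P.η (n + 1)) ≤ (2 - P.τ) * (P.M n + P.b) := by
      refine (lipF_max (n + 1)).trans ?_
      apply mul_le_mul_of_nonneg_left (lipF_M n)
      have := P.hτ1
      linarith
    calc P.N (n + 1) e ≤ Real.exp (max (P.ξ (n + 1)) (P.η (n + 1))) * ‖e‖ := N_le_norm _ _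
      _ ≤ Real.exp ((2 - P.τ) * (P.M n + P.b)) *
          (D.A * (Real.exp (-P.M n) * K2) * (Real.exp (-P.M n) * X)) := by
          gcongr
      _ = (D.A * K2 * Real.exp ((2 - P.τ) * P.b)) * s * X := by
          have h2 : Real.exp ((2 - P.τ) * (P.M n + P.b)) * Real.exp (-P.M n) *
              Real.exp (-P.M n) = Real.exp ((2 - P.τ) * P.b) * s := by
            rw [hs, ← Real.exp_add, ← Real.exp_add, ← Real.exp_add]
            congr 1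
            ring
          calc _ = D.A * K2 * (Real.exp ((2 - P.τ) * (P.M n + P.b)) * Real.exp (-P.M n) *
              Real.exp (-P.M n)) * X := by ring
            _ = _ := by rw [h2]; ring
  have hlow : Real.exp (-(P.kx n + P.ky n)) * X ≤ Y + A1 * s * X := by
    calc Real.exp (-(P.kx n + P.ky n)) * X ≤ P.N (n + 1) ld := lipF_lin D n (w' - w)
      _ = P.N (n + 1) ((D.f n w' - D.f n w) + -e) := by
          congr 1
          rw [he]
          abel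
      _ ≤ Y + P.N (n + 1) (-e) := N_add _ _ _
      _ ≤ Y + A1 * s * X := by
          rw [lipF_neg]
          linarith
  -- conclusion
  set k : ℝ := P.kx n + P.ky n with hk
  have hkb : k ≤ P.b := lipF_k n
  have h1 : A1 * s ≤ Real.exp (-k) * x := by
    have h2 : Real.exp (-k) * Real.exp P.b ≥ 1 := by
      rw [← Real.exp_add]
      exact Real.one_le_exp (by linarith)
    calc A1 * s = (A1 * s) * 1 := (mul_one _).symm
      _ ≤ (A1 * s) * (Real.exp (-k) * Real.exp P.b) :=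
          mul_le_mul_of_nonneg_left h2 (by positivity)
      _ = Real.exp (-k) * x := by rw [hxdef]; ring
  have h2 : Real.exp (-k) * (1 - x) * X ≤ Y := by
    have h3 : A1 * s * X ≤ Real.exp (-k) * x * X := mul_le_mul_of_nonneg_right h1 hX0
    nlinarith
  have h3 : (1 : ℝ) ≤ (1 - x) * (1 + 2 * x) := by nlinarith
  have h4 : Real.exp k * Real.exp (-k) = 1 := by
    rw [← Real.exp_add, add_neg_cancel, Real.exp_zero]
  calc X = 1 * X := (one_mul _).symm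
    _ ≤ (1 - x) * (1 + 2 * x) * X := mul_le_mul_of_nonneg_right h3 hX0
    _ = (Real.exp k * Real.exp (-k)) * ((1 - x) * (1 + 2 * x) * X) := by rw [h4, one_mul]
    _ = Real.exp k * (1 + 2 * x) * (Real.exp (-k) * (1 - x) * X) := by ring
    _ ≤ Real.exp k * (1 + 2 * x) * Y := mul_le_mul_of_nonneg_left h2 (by positivity)
    _ = _ := by rw [hxdef]; ring

/-- Lipschitz bound for the inverse of `f n`.  Proof: apply `lip_F_aux` to
`w' = fi n (f n w + t (v - f n w))`, `t ∈ [0,1]`; by continuity in `t` the adapted distance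
of `w'` to `w` never reaches `1`. -/
theorem lip_F : ∀ K : ℝ, ∃ A : ℝ, ∃ n₀ : ℕ, 0 ≤ A ∧ ∀ n, n₀ ≤ n → ∀ w v, P.N n w ≤ K →
    P.N (n + 1) (v - D.f n w) ≤ Real.exp (-P.b) / 4 →
    P.N n (D.fi n v - w) ≤
      Real.exp (P.kx n + P.ky n) * (1 + A * Real.exp (-P.τ * P.M n)) *
        P.N (n + 1) (v - D.f n w) := by
  intro K
  obtain ⟨A, n1, hA, hn1⟩ := lip_F_aux D K
  have htend : Tendsto (fun n => A * Real.exp (-P.τ * P.M n)) atTop (𝓝 0) := by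
    have := (tendsto_exp_M (P := P)).const_mul A
    simpa using this
  obtain ⟨n2, hn2⟩ := eventually_atTop.1
    (htend.eventually (ge_mem_nhds (by norm_num : (0 : ℝ) < 1)))
  refine ⟨A, max n1 n2, hA, ?_⟩
  intro n hn w v hw hv
  have hn1' := hn1 n (le_trans (le_max_left _ _) hn)
  have hs := hn2 n (le_trans (le_max_right _ _) hn)
  set z : ℂ × ℂ := v - D.f n w with hz
  let p : ℝ → ℂ × ℂ := fun t => D.fi n (D.f n w + (t : ℂ) • z)
  have hp : Continuous p := by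
    have h1 : Continuous (D.fi n) := (D.hfi n).continuous
    exact h1.comp (continuous_const.add ((Complex.continuous_ofReal).smul continuous_const))
  let φ : ℝ → ℝ := fun t => P.N n (p t - w)
  have hφ : Continuous φ := (continuous_N n).comp (hp.sub continuous_const)
  have hp0 : p 0 = w := by
    show D.fi n (D.f n w + ((0 : ℝ) : ℂ) • z) = w
    rw [Complex.ofReal_zero, zero_smul, add_zero, D.left]
  have hp1 : p 1 = D.fi n v := by
    show D.fi n (D.f n w + ((1 : ℝ) : ℂ) • z) = D.fi n v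
    rw [Complex.ofReal_one, one_smul, hz, add_sub_cancel]
  have hφ0 : φ 0 = 0 := by
    show P.N n (p 0 - w) = 0
    rw [hp0, sub_self]
    simp [PD.N]
  have hfp : ∀ t : ℝ, 0 ≤ t → P.N (n + 1) (D.f n (p t) - D.f n w) = t * P.N (n + 1) z := by
    intro t ht
    show P.N (n + 1) (D.f n (D.fi n (D.f n w + (t : ℂ) • z)) - D.f n w) = _
    rw [D.right, add_sub_cancel_left, N_smul _ _ ht]
  have hzN : 0 ≤ P.N (n + 1) z := N_nonneg _ _
  have hle : φ 1 ≤ 1 := by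
    by_contra hcon
    push Not at hcon
    have hmem : (1 : ℝ) ∈ Set.Icc (φ 0) (φ 1) := ⟨by rw [hφ0]; norm_num, hcon.le⟩
    obtain ⟨t, ht, hφt⟩ := intermediate_value_Icc (by norm_num : (0 : ℝ) ≤ 1)
      hφ.continuousOn hmem
    have h1 := hn1' w (p t) hw (le_of_eq hφt)
    rw [hfp t ht.1] at h1
    have h1' : (1 : ℝ) ≤ Real.exp (P.kx n + P.ky n) * (1 + A * Real.exp (-P.τ * P.M n)) *
        (t * P.N (n + 1) z) := by
      calc (1 : ℝ) = φ t := hφt.symm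
        _ ≤ _ := h1
    have h2 : t * P.N (n + 1) z ≤ Real.exp (-P.b) / 4 := by
      calc t * P.N (n + 1) z ≤ 1 * P.N (n + 1) z := mul_le_mul_of_nonneg_right ht.2 hzN
        _ = P.N (n + 1) z := one_mul _
        _ ≤ _ := hv
    have h3 : Real.exp (P.kx n + P.ky n) ≤ Real.exp P.b := Real.exp_le_exp.2 (lipF_k n)
    have h4 : Real.exp (P.kx n + P.ky n) * (1 + A * Real.exp (-P.τ * P.M n)) *
        (t * P.N (n + 1) z) ≤ Real.exp P.b * 2 * (Real.exp (-P.b) / 4) := by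
      have h5 : 0 ≤ t * P.N (n + 1) z := mul_nonneg ht.1 hzN
      have h6 : 1 + A * Real.exp (-P.τ * P.M n) ≤ 2 := by linarith
      have h7 : 0 ≤ 1 + A * Real.exp (-P.τ * P.M n) := by positivity
      gcongr
    have h5 : Real.exp P.b * 2 * (Real.exp (-P.b) / 4) = 1 / 2 := by
      have : Real.exp P.b * Real.exp (-P.b) = 1 := by
        rw [← Real.exp_add, add_neg_cancel, Real.exp_zero]
      calc Real.exp P.b * 2 * (Real.exp (-P.b) / 4) = (Real.exp P.b * Real.exp (-P.b)) / 2 := by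
            ring
        _ = 1 / 2 := by rw [this]
    rw [h5] at h4
    linarith
  have hle' : P.N n (D.fi n v - w) ≤ 1 := by
    have : φ 1 = P.N n (D.fi n v - w) := by
      show P.N n (p 1 - w) = _
      rw [hp1]
    rwa [this] at hle
  have h1 := hn1' w (D.fi n v) hw hle'
  rwa [D.right] at h1

end Pool.Agent.Lib.MP_b771e3_an
end

section

set_option autoImplicit false

open Filter Topology

namespace Pool.Agent.Lib.MP_b771e3_an

/-- The smaller exponent grows at least linearly. -/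
private theorem bdd_aux_M (P : PD) (n : ℕ) : P.a * n ≤ P.M n := by
  have h1 : ∀ n : ℕ, P.a * n ≤ P.ξ n ∧ P.a * n ≤ P.η n := by
    intro n
    induction n with
    | zero =>
      constructor
      · rw [P.ξ0]; simp
      · rw [P.η0]; simp
    | succ n ih =>
      have hx := P.ξa n
      have hy := P.ηa n
      push_cast
      constructor
      · linarith [ih.1]
      · linarith [ih.2]
  exact le_min (h1 n).1 (h1 n).2

/-- One step: the cross term is at most `2 A exp (-(τ a / 2) n) S`. -/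
private theorem bdd_aux_step (P : PD) (A : ℝ) (hA : 0 ≤ A) (n : ℕ) (s : ℝ) (hs : 0 ≤ s)
    (hb : s ≤ Real.exp (P.τ * P.a / 8 * n)) :
    A * Real.exp (-(P.τ * P.M n)) * (s ^ 2 + s ^ 3) ≤
      2 * A * Real.exp (-(P.τ * P.a / 2 * n)) * s := by
  have ha := P.ha
  have hτ := P.hτ
  have hM := bdd_aux_M P n
  have hn : (0 : ℝ) ≤ n := Nat.cast_nonneg n
  have hta : 0 ≤ P.τ * P.a * n := by positivity
  set E := Real.exp (P.τ * P.a / 8 * n) with hE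
  have hE1 : 1 ≤ E := by
    rw [hE]
    apply Real.one_le_exp
    have : P.τ * P.a / 8 * n = P.τ * P.a * n / 8 := by ring
    rw [this]; positivity
  have h1 : s ^ 2 + s ^ 3 ≤ s * (2 * E ^ 2) := by
    have h2 : s + s ^ 2 ≤ 2 * E ^ 2 := by
      have h3 : s ^ 2 ≤ E ^ 2 := by gcongr
      have h4 : s ≤ E ^ 2 := by nlinarith
      linarith
    calc s ^ 2 + s ^ 3 = s * (s + s ^ 2) := by ring
      _ ≤ s * (2 * E ^ 2) := by gcongr
  have h5 : Real.exp (-(P.τ * P.M n)) * E ^ 2 ≤ Real.exp (-(P.τ * P.a / 2 * n)) := by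
    rw [hE, ← Real.exp_nat_mul, ← Real.exp_add]
    apply Real.exp_le_exp.mpr
    have h6 : P.τ * (P.a * n) ≤ P.τ * P.M n := by gcongr
    push_cast
    nlinarith
  have hexp : 0 < Real.exp (-(P.τ * P.M n)) := Real.exp_pos _
  calc A * Real.exp (-(P.τ * P.M n)) * (s ^ 2 + s ^ 3)
      ≤ A * Real.exp (-(P.τ * P.M n)) * (s * (2 * E ^ 2)) := by gcongr
    _ = 2 * A * s * (Real.exp (-(P.τ * P.M n)) * E ^ 2) := by ring
    _ ≤ 2 * A * s * Real.exp (-(P.τ * P.a / 2 * n)) := by gcongr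
    _ = 2 * A * Real.exp (-(P.τ * P.a / 2 * n)) * s := by ring

/-- A Gronwall bound: once the deficits are at most `exp (τ a n / 8)` they are bounded, with a
bound which depends only on the constants. -/
theorem bdd_of_small (P : PD) (A : ℝ) (hA : 0 ≤ A) (n₀ : ℕ) :
    ∃ K : ℝ, ∀ R S : ℕ → ℝ, (∀ n, 0 ≤ R n) → (∀ n, 0 ≤ S n) →
      (∀ n, n₀ ≤ n → R n ≤ Real.exp (P.τ * P.a / 8 * n)) →
      (∀ n, n₀ ≤ n → S n ≤ Real.exp (P.τ * P.a / 8 * n)) →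
      (∀ n, n₀ ≤ n → R (n + 1) ≤ R n * (1 + A * Real.exp (-(P.a * n))) +
        A * Real.exp (-(P.τ * P.M n)) * (S n ^ 2 + S n ^ 3)) →
      (∀ n, n₀ ≤ n → S (n + 1) ≤ S n * (1 + A * Real.exp (-(P.a * n))) +
        A * Real.exp (-(P.τ * P.M n)) * (R n ^ 2 + R n ^ 3)) →
      ∀ n, n₀ ≤ n → R n ≤ K ∧ S n ≤ K := by
  have ha := P.ha
  have hτ := P.hτ
  have hτ1 := P.hτ1
  set q := Real.exp (-(P.τ * P.a / 2)) with hq
  have hq0 : 0 < q := Real.exp_pos _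
  have hq1 : q < 1 := by
    rw [hq, Real.exp_lt_one_iff]
    have : 0 < P.τ * P.a := by positivity
    linarith
  have hqn : ∀ n : ℕ, Real.exp (-(P.τ * P.a / 2 * n)) = q ^ n := by
    intro n
    rw [hq, ← Real.exp_nat_mul]
    congr 1
    ring
  refine ⟨2 * Real.exp (P.τ * P.a / 8 * n₀) * Real.exp (3 * A * (1 - q)⁻¹), ?_⟩
  intro R S hR hS hR8 hS8 hRs hSs
  have hstep : ∀ n, n₀ ≤ n → R (n + 1) + S (n + 1) ≤ (R n + S n) * Real.exp (3 * A * q ^ n) := by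
    intro n hn
    have h1 := hRs n hn
    have h2 := hSs n hn
    have h3 := bdd_aux_step P A hA n (S n) (hS n) (hS8 n hn)
    have h4 := bdd_aux_step P A hA n (R n) (hR n) (hR8 n hn)
    have h5 : Real.exp (-(P.a * n)) ≤ q ^ n := by
      rw [← hqn n]
      apply Real.exp_le_exp.mpr
      have hn0 : (0 : ℝ) ≤ n := Nat.cast_nonneg n
      have h6 : 0 ≤ P.a * n := by positivity
      nlinarith
    rw [hqn n] at h3 h4
    have h7 : (1 : ℝ) + 3 * A * q ^ n ≤ Real.exp (3 * A * q ^ n) := by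
      have := Real.add_one_le_exp (3 * A * q ^ n)
      linarith
    have hRS : 0 ≤ R n + S n := add_nonneg (hR n) (hS n)
    calc R (n + 1) + S (n + 1)
        ≤ (R n + S n) * (1 + A * Real.exp (-(P.a * n))) + 2 * A * q ^ n * (R n + S n) := by
          nlinarith
      _ ≤ (R n + S n) * (1 + A * q ^ n) + 2 * A * q ^ n * (R n + S n) := by gcongr
      _ = (R n + S n) * (1 + 3 * A * q ^ n) := by ring
      _ ≤ (R n + S n) * Real.exp (3 * A * q ^ n) := by gcongr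
  have hsum : ∀ k, R (n₀ + k) + S (n₀ + k) ≤ (R n₀ + S n₀) *
      Real.exp (3 * A * ∑ i ∈ Finset.range k, q ^ (n₀ + i)) := by
    intro k
    induction k with
    | zero => simp
    | succ k ih =>
      have h1 := hstep (n₀ + k) (Nat.le_add_right _ _)
      rw [Finset.sum_range_succ, mul_add, Real.exp_add]
      calc R (n₀ + (k + 1)) + S (n₀ + (k + 1))
          ≤ (R (n₀ + k) + S (n₀ + k)) * Real.exp (3 * A * q ^ (n₀ + k)) := h1
        _ ≤ ((R n₀ + S n₀) * Real.exp (3 * A * ∑ i ∈ Finset.range k, q ^ (n₀ + i))) *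
            Real.exp (3 * A * q ^ (n₀ + k)) := by gcongr
        _ = _ := by ring
  have hgeo : ∀ k, ∑ i ∈ Finset.range k, q ^ (n₀ + i) ≤ (1 - q)⁻¹ := by
    intro k
    have h1 : ∑ i ∈ Finset.range k, q ^ (n₀ + i) ≤ ∑ i ∈ Finset.range k, q ^ i := by
      apply Finset.sum_le_sum
      intro i _
      exact pow_le_pow_of_le_one hq0.le hq1.le (Nat.le_add_left _ _)
    have h2 : ∑ i ∈ Finset.range k, q ^ i ≤ (1 - q)⁻¹ := by
      rw [← tsum_geometric_of_lt_one hq0.le hq1]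
      exact (summable_geometric_of_lt_one hq0.le hq1).sum_le_tsum _ (fun i _ => by positivity)
    exact h1.trans h2
  intro n hn
  obtain ⟨k, rfl⟩ := Nat.exists_eq_add_of_le hn
  have h1 := hsum k
  have h2 : R n₀ + S n₀ ≤ 2 * Real.exp (P.τ * P.a / 8 * n₀) := by
    have := hR8 n₀ le_rfl
    have := hS8 n₀ le_rfl
    linarith
  have h3 : R (n₀ + k) + S (n₀ + k) ≤
      2 * Real.exp (P.τ * P.a / 8 * n₀) * Real.exp (3 * A * (1 - q)⁻¹) := by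
    refine h1.trans ?_
    have h4 := hgeo k
    gcongr
  constructor
  · linarith [hS (n₀ + k)]
  · linarith [hR (n₀ + k)]

end Pool.Agent.Lib.MP_b771e3_an
end

section

set_option autoImplicit false

open Filter Topology

namespace Pool.Agent.Lib.MP_b771e3_an

/-- One step of the clipped path, clipping the first coordinate. -/
private lemma stepA {a b τ ξ η c dx dy : ℝ} (ha : 0 < a) (hτ : 0 < τ) (hτ1 : τ ≤ 1 / 1000)
    (hab : b ≤ (4 - 100 * τ) * a) (hx : a ≤ dx ∧ dx ≤ b) (hy : a ≤ dy ∧ dy ≤ b)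
    (hη : 0 < η) (h1 : ξ ≤ (2 - τ) * η)
    (hcη : c ≤ (2 - 99 * τ) * η)
    (h : (2 - τ) * (η + dy) < ξ + dx) :
    (η + dy) - (2 - τ) * (ξ + dx) ≤ 0 ∧
    ξ + dx - (2 - τ) * (η + dy) ≤ b ∧
    (2 - τ) * (η + dy) ≤ (2 - τ) * (η + dy) ∧
    η + dy ≤ (2 - τ) * ((2 - τ) * (η + dy)) ∧
    ξ + dx - (2 - τ) * (η + dy) ≤ (2 - 99 * τ) * (η + dy - η) ∧
    a ≤ (2 - τ) * (η + dy) - ξ ∧ a ≤ η + dy - η ∧
    c + (ξ + dx - (2 - τ) * (η + dy)) ≤ (2 - 99 * τ) * ((2 - τ) * (η + dy)) ∧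
    c + (ξ + dx - (2 - τ) * (η + dy)) ≤ (2 - 99 * τ) * (η + dy) := by
  have hy0 : 0 < η + dy := by linarith [hy.1]
  have hb1 : η + dy ≤ (2 - τ) * (η + dy) := by nlinarith
  have hk1 : ξ + dx - (2 - τ) * (η + dy) ≤ dx - (2 - τ) * dy := by linarith
  have hk2 : dx - (2 - τ) * dy ≤ (2 - 99 * τ) * dy := by
    have : (4 - 100 * τ) * a ≤ (4 - 100 * τ) * dy := by
      apply mul_le_mul_of_nonneg_left hy.1; linarith
    linarith [hx.2]
  have hk3 : 0 ≤ (2 - τ) * dy := by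
    apply mul_nonneg <;> linarith [hy.1]
  have h5 : c + (ξ + dx - (2 - τ) * (η + dy)) ≤ (2 - 99 * τ) * (η + dy) := by linarith
  refine ⟨?_, ?_, le_rfl, ?_, ?_, ?_, ?_, ?_, h5⟩
  · have : (2 - τ) * ((2 - τ) * (η + dy)) ≤ (2 - τ) * (ξ + dx) :=
      mul_le_mul_of_nonneg_left h.le (by linarith)
    nlinarith
  · linarith [hx.2]
  · nlinarith
  · linarith
  · have : (2 - τ) * (η + dy) - ξ ≥ (2 - τ) * dy := by linarith
    nlinarith [hy.1]
  · linarith [hy.1]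
  · have : (2 - 99 * τ) * (η + dy) ≤ (2 - 99 * τ) * ((2 - τ) * (η + dy)) :=
      mul_le_mul_of_nonneg_left hb1 (by linarith)
    linarith

/-- The amount clipped from the first coordinate. -/
private noncomputable def clp (τ x y : ℝ) : ℝ := max 0 (x - (2 - τ) * y)

private lemma step {a b τ ξ η c dx dy kx ky : ℝ} (ha : 0 < a) (hτ : 0 < τ)
    (hτ1 : τ ≤ 1 / 1000)
    (hab : b ≤ (4 - 100 * τ) * a) (hx : a ≤ dx ∧ dx ≤ b) (hy : a ≤ dy ∧ dy ≤ b)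
    (hξ : 0 < ξ) (hη : 0 < η) (h1 : ξ ≤ (2 - τ) * η) (h2 : η ≤ (2 - τ) * ξ)
    (hcξ : c ≤ (2 - 99 * τ) * ξ) (hcη : c ≤ (2 - 99 * τ) * η)
    (hkx : kx = clp τ (ξ + dx) (η + dy)) (hky : ky = clp τ (η + dy) (ξ + dx)) :
    0 ≤ kx ∧ 0 ≤ ky ∧ kx ≤ b ∧ ky ≤ b ∧ (kx = 0 ∨ ky = 0) ∧
    ξ + dx - kx ≤ (2 - τ) * (η + dy - ky) ∧ η + dy - ky ≤ (2 - τ) * (ξ + dx - kx) ∧
    (0 < kx → ξ + dx - kx = (2 - τ) * (η + dy - ky) ∧
      kx ≤ (2 - 99 * τ) * (η + dy - ky - η)) ∧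
    (0 < ky → η + dy - ky = (2 - τ) * (ξ + dx - kx) ∧
      ky ≤ (2 - 99 * τ) * (ξ + dx - kx - ξ)) ∧
    a ≤ ξ + dx - kx - ξ ∧ a ≤ η + dy - ky - η ∧
    c + kx + ky ≤ (2 - 99 * τ) * (ξ + dx - kx) ∧
    c + kx + ky ≤ (2 - 99 * τ) * (η + dy - ky) := by
  have hb0 : 0 ≤ b := by linarith [hx.1, hx.2]
  rcases lt_or_ge ((2 - τ) * (η + dy)) (ξ + dx) with h | h
  · obtain ⟨g1, g2, g3, g4, g5, g6, g7, g8, g9⟩ := stepA ha hτ hτ1 hab hx hy hη h1 hcη h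
    have e1 : kx = ξ + dx - (2 - τ) * (η + dy) := by
      rw [hkx, clp, max_eq_right (by linarith)]
    have e2 : ky = 0 := by
      rw [hky, clp, max_eq_left g1]
    have e3 : ξ + dx - kx = (2 - τ) * (η + dy) := by rw [e1]; ring
    have e4 : η + dy - ky = η + dy := by rw [e2]; ring
    rw [e3, e4]
    refine ⟨by linarith, by linarith, by linarith, by linarith, Or.inr e2, g3, g4, ?_, ?_, g6, g7,
      ?_, ?_⟩
    · intro _
      exact ⟨rfl, by linarith⟩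
    · intro h'
      linarith
    · linarith
    · linarith
  · rcases lt_or_ge ((2 - τ) * (ξ + dx)) (η + dy) with h' | h'
    · obtain ⟨g1, g2, g3, g4, g5, g6, g7, g8, g9⟩ := stepA ha hτ hτ1 hab hy hx hξ h2 hcξ h'
      have e1 : ky = η + dy - (2 - τ) * (ξ + dx) := by
        rw [hky, clp, max_eq_right (by linarith)]
      have e2 : kx = 0 := by
        rw [hkx, clp, max_eq_left g1]
      have e3 : η + dy - ky = (2 - τ) * (ξ + dx) := by rw [e1]; ring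
      have e4 : ξ + dx - kx = ξ + dx := by rw [e2]; ring
      rw [e3, e4]
      refine ⟨by linarith, by linarith, by linarith, by linarith, Or.inl e2, g4, g3, ?_, ?_, g7, g6,
        ?_, ?_⟩
      · intro h''
        linarith
      · intro _
        exact ⟨rfl, by linarith⟩
      · linarith
      · linarith
    · have e1 : kx = 0 := by rw [hkx, clp, max_eq_left (by linarith)]
      have e2 : ky = 0 := by rw [hky, clp, max_eq_left (by linarith)]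
      rw [e1, e2]
      have hp1 : 0 ≤ (2 - 99 * τ) * dx := by apply mul_nonneg <;> linarith [hx.1]
      have hp2 : 0 ≤ (2 - 99 * τ) * dy := by apply mul_nonneg <;> linarith [hy.1]
      refine ⟨le_rfl, le_rfl, hb0, hb0, Or.inl rfl, by linarith, by linarith, ?_, ?_,
        by linarith [hx.1], by linarith [hy.1], by linarith, by linarith⟩
      · intro h''; exact absurd h'' (lt_irrefl _)
      · intro h''; exact absurd h'' (lt_irrefl _)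

/-- The clipped path. -/
private noncomputable def pth (τ : ℝ) (dX dY : ℕ → ℝ) : ℕ → ℝ × ℝ × ℝ
  | 0 => (1, 1, 0)
  | n + 1 =>
    ((pth τ dX dY n).1 + dX n -
        clp τ ((pth τ dX dY n).1 + dX n) ((pth τ dX dY n).2.1 + dY n),
      (pth τ dX dY n).2.1 + dY n -
        clp τ ((pth τ dX dY n).2.1 + dY n) ((pth τ dX dY n).1 + dX n),
      (pth τ dX dY n).2.2 + clp τ ((pth τ dX dY n).1 + dX n) ((pth τ dX dY n).2.1 + dY n) +
        clp τ ((pth τ dX dY n).2.1 + dY n) ((pth τ dX dY n).1 + dX n))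

/-- Existence of the clipped path.  Define `(ξ, η, c)` recursively from `(1, 1, 0)`:
with `x = ξ n + dX n`, `y = η n + dY n`, `β = 2 - τ`:
if `β * y < x` take `(β * y, y, c + (x - β * y))` (`kx = x - β * y`, `ky = 0`),
else if `β * x < y` take `(x, β * x, c + (y - β * x))`, else `(x, y, c)`. -/
theorem exists_PD (a b τ : ℝ) (dX dY : ℕ → ℝ) (ha : 0 < a) (hτ : 0 < τ) (hτ1 : τ ≤ 1 / 1000)
    (hab : b ≤ (4 - 100 * τ) * a) (hX : ∀ n, a ≤ dX n ∧ dX n ≤ b)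
    (hY : ∀ n, a ≤ dY n ∧ dY n ≤ b) :
    ∃ P : PD, P.a = a ∧ P.b = b ∧ P.τ = τ ∧ P.dX = dX ∧ P.dY = dY := by
  have key : ∀ n, (0 < (pth τ dX dY n).1 ∧ 0 < (pth τ dX dY n).2.1) ∧
      ((pth τ dX dY n).1 ≤ (2 - τ) * (pth τ dX dY n).2.1 ∧
      (pth τ dX dY n).2.1 ≤ (2 - τ) * (pth τ dX dY n).1) ∧
      ((pth τ dX dY n).2.2 ≤ (2 - 99 * τ) * (pth τ dX dY n).1 ∧
      (pth τ dX dY n).2.2 ≤ (2 - 99 * τ) * (pth τ dX dY n).2.1) := by
    intro n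
    induction n with
    | zero =>
      simp only [pth]
      refine ⟨⟨one_pos, one_pos⟩, ⟨by linarith, by linarith⟩, by linarith, by linarith⟩
    | succ n ih =>
      obtain ⟨⟨i1, i2⟩, ⟨i3, i4⟩, i5, i6⟩ := ih
      obtain ⟨g1, g2, g3, g4, g5, g6, g7, g8, g9, g10, g11, g12, g13⟩ :=
        step ha hτ hτ1 hab (hX n) (hY n) i1 i2 i3 i4 i5 i6 rfl rfl
      simp only [pth]
      exact ⟨⟨by linarith, by linarith⟩, ⟨g6, g7⟩, g12, g13⟩
  have st := fun n => step ha hτ hτ1 hab (hX n) (hY n) (key n).1.1 (key n).1.2 (key n).2.1.1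
    (key n).2.1.2 (key n).2.2.1 (key n).2.2.2 rfl rfl
  refine ⟨{
    a := a
    b := b
    τ := τ
    dX := dX
    dY := dY
    ξ := fun n => (pth τ dX dY n).1
    η := fun n => (pth τ dX dY n).2.1
    c := fun n => (pth τ dX dY n).2.2
    kx := fun n => clp τ ((pth τ dX dY n).1 + dX n) ((pth τ dX dY n).2.1 + dY n)
    ky := fun n => clp τ ((pth τ dX dY n).2.1 + dY n) ((pth τ dX dY n).1 + dX n)
    ha := ha
    hτ := hτ
    hτ1 := hτ1
    hab := hab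
    hX := hX
    hY := hY
    ξ0 := rfl
    η0 := rfl
    c0 := rfl
    ξs := fun n => rfl
    ηs := fun n => rfl
    cs := fun n => rfl
    kx0 := fun n => (st n).1
    ky0 := fun n => (st n).2.1
    kxb := fun n => (st n).2.2.1
    kyb := fun n => (st n).2.2.2.1
    kxy := fun n => (st n).2.2.2.2.1
    cone1 := fun n => (key n).2.1.1
    cone2 := fun n => (key n).2.1.2
    clipx := fun n => (st n).2.2.2.2.2.2.2.1
    clipy := fun n => (st n).2.2.2.2.2.2.2.2.1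
    ξa := fun n => (st n).2.2.2.2.2.2.2.2.2.1
    ηa := fun n => (st n).2.2.2.2.2.2.2.2.2.2.1
    cξ := fun n => (key n).2.2.1
    cη := fun n => (key n).2.2.2 }, rfl, rfl, rfl, rfl, rfl⟩

end Pool.Agent.Lib.MP_b771e3_an
end
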