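import Mathlib
import Pool.Agent.Lib.MP_b771e3_an.Mg.G001
import Pool.Agent.Lib.MP_ca0fc2_an.Osgood

section

set_option autoImplicit false

open Filter Topology

namespace Pool.Agent.Lib.MP_b771e3_an

variable {P : PD} {D : Dyn P} (C : Conj D)

/-- Assembling the four kinds of errors. -/
theorem fg_key {E' E eb X B0 AA K4 ε c2 c3 y2 y3 t : ℝ} (hE : 0 ≤ E) (heb : 0 ≤ eb)
    (hX0 : 0 ≤ X) (hB0 : 0 ≤ B0) (hE' : E' ≤ eb * E)
    (hX : X ≤ B0 * (c2 * y2 + c3 * y3 + t))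
    (h2 : c2 * (E * y2) ≤ AA * (K4 * ε)) (h3 : c3 * (E * y3) ≤ AA * (K4 * ε))
    (ht : E * t ≤ 2 * K4 * ε) :
    E' * X ≤ eb * B0 * (2 * AA + 2) * K4 * ε := by
  have h4 : E' * X ≤ eb * E * X := mul_le_mul_of_nonneg_right hE' hX0
  have h5 : eb * E * X ≤ eb * E * (B0 * (c2 * y2 + c3 * y3 + t)) :=
    mul_le_mul_of_nonneg_left hX (mul_nonneg heb hE)
  have h6 : eb * E * (B0 * (c2 * y2 + c3 * y3 + t)) =
      (eb * B0) * (c2 * (E * y2) + c3 * (E * y3) + E * t) := by ring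
  have h7 : (eb * B0) * (c2 * (E * y2) + c3 * (E * y3) + E * t) ≤
      (eb * B0) * (AA * (K4 * ε) + AA * (K4 * ε) + 2 * K4 * ε) :=
    mul_le_mul_of_nonneg_left (by linarith) (mul_nonneg heb hB0)
  calc E' * X ≤ eb * E * X := h4
    _ ≤ _ := h5
    _ = _ := h6
    _ ≤ _ := h7
    _ = _ := by ring

theorem exp_xi_succ (n : ℕ) : Real.exp (P.ξ (n + 1)) ≤ Real.exp P.b * Real.exp (P.ξ n) := by
  rw [← Real.exp_add]
  apply Real.exp_le_exp.2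
  have := P.ξs n
  have := P.kx0 n
  have := (P.hX n).2
  linarith

theorem exp_eta_succ (n : ℕ) : Real.exp (P.η (n + 1)) ≤ Real.exp P.b * Real.exp (P.η n) := by
  rw [← Real.exp_add]
  apply Real.exp_le_exp.2
  have := P.ηs n
  have := P.ky0 n
  have := (P.hY n).2
  linarith

theorem lam_le_one (D : Dyn P) (n : ℕ) : ‖D.lam n‖ ≤ 1 := by
  rw [D.hlam, Real.exp_le_one_iff]
  have := (P.hX n).1
  have := P.ha
  linarith

theorem mu_le_one (D : Dyn P) (n : ℕ) : ‖D.mu n‖ ≤ 1 := by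
  rw [D.hmu, Real.exp_le_one_iff]
  have := (P.hY n).1
  have := P.ha
  linarith

/-- Bounds of cubic coefficients of the type `g + p s u - 2 s q`. -/
theorem cub_bound {A B : ℝ} (hA : 1 ≤ A) (hB : 1 ≤ B) (g p s u s' q : ℂ) (hg : ‖g‖ ≤ A)
    (hp : ‖p‖ ≤ B) (hs : ‖s‖ ≤ A) (hu : ‖u‖ ≤ 1) (hs' : ‖s'‖ ≤ A) (hq : ‖q‖ ≤ B) :
    ‖g + p * s * u - 2 * s' * q‖ ≤ 4 * A * B := by
  have hA0 : 0 ≤ A := by linarith
  have hB0 : 0 ≤ B := by linarith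
  have h1 : ‖p * s * u‖ ≤ B * A * 1 := by
    rw [norm_mul, norm_mul]
    exact mul_le_mul (mul_le_mul hp hs (norm_nonneg _) hB0) hu (norm_nonneg _)
      (mul_nonneg hB0 hA0)
  have h2 : ‖2 * s' * q‖ ≤ 2 * A * B := by
    rw [norm_mul, norm_mul, Complex.norm_ofNat]
    exact mul_le_mul (mul_le_mul_of_nonneg_left hs' (by norm_num)) hq (norm_nonneg _)
      (by positivity)
  have h3 : ‖g + p * s * u - 2 * s' * q‖ ≤ ‖g‖ + ‖p * s * u‖ + ‖2 * s' * q‖ :=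
    (norm_sub_le _ _).trans (add_le_add_left (norm_add_le _ _) _)
  nlinarith

/-- The second order expansion. -/
theorem quad_bound {A : ℝ} (hA : 1 ≤ A) (F l y x a b s g : ℂ) (m : ℝ) (hx : ‖x‖ ≤ m)
    (hy : ‖y‖ ≤ m) (hm : m ≤ 1) (ha : ‖a‖ ≤ A) (hb : ‖b‖ ≤ A) (hs : ‖s‖ ≤ A) (hg : ‖g‖ ≤ A)
    (hF : ‖F - (l * y + a * y ^ 2 + b * x * y + s * x ^ 2 + g * x ^ 3)‖ ≤
      A * (‖y‖ * m ^ 2 + m ^ 4)) : ‖F - l * y‖ ≤ 6 * A * m ^ 2 := by
  have hA0 : 0 ≤ A := by linarith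
  have hm0 : 0 ≤ m := (norm_nonneg _).trans hx
  have h1 : ‖a * y ^ 2‖ ≤ A * m ^ 2 := by
    rw [norm_mul, norm_pow]
    exact mul_le_mul ha (pow_le_pow_left₀ (norm_nonneg _) hy 2) (by positivity) hA0
  have h2 : ‖b * x * y‖ ≤ A * m ^ 2 := by
    rw [mul_assoc, norm_mul, norm_mul, sq]
    exact mul_le_mul hb (mul_le_mul hx hy (norm_nonneg _) hm0) (by positivity) hA0
  have h3 : ‖s * x ^ 2‖ ≤ A * m ^ 2 := by
    rw [norm_mul, norm_pow]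
    exact mul_le_mul hs (pow_le_pow_left₀ (norm_nonneg _) hx 2) (by positivity) hA0
  have h4 : ‖g * x ^ 3‖ ≤ A * m ^ 2 := by
    rw [norm_mul, norm_pow]
    refine mul_le_mul hg ((pow_le_pow_left₀ (norm_nonneg _) hx 3).trans ?_) (by positivity) hA0
    exact pow_le_pow_of_le_one hm0 hm (by norm_num)
  have h5 : A * (‖y‖ * m ^ 2 + m ^ 4) ≤ A * (2 * m ^ 2) := by
    refine mul_le_mul_of_nonneg_left ?_ hA0
    have h6 : ‖y‖ * m ^ 2 ≤ 1 * m ^ 2 := mul_le_mul_of_nonneg_right (hy.trans hm) (by positivity)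
    have h7 : m ^ 4 ≤ m ^ 2 := pow_le_pow_of_le_one hm0 hm (by norm_num)
    linarith
  have h8 : F - l * y = (F - (l * y + a * y ^ 2 + b * x * y + s * x ^ 2 + g * x ^ 3)) +
      a * y ^ 2 + b * x * y + s * x ^ 2 + g * x ^ 3 := by ring
  rw [h8]
  have h9 := norm_add_le ((F - (l * y + a * y ^ 2 + b * x * y + s * x ^ 2 + g * x ^ 3)) +
      a * y ^ 2 + b * x * y + s * x ^ 2) (g * x ^ 3)
  have h10 := norm_add_le ((F - (l * y + a * y ^ 2 + b * x * y + s * x ^ 2 + g * x ^ 3)) +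
      a * y ^ 2 + b * x * y) (s * x ^ 2)
  have h11 := norm_add_le ((F - (l * y + a * y ^ 2 + b * x * y + s * x ^ 2 + g * x ^ 3)) +
      a * y ^ 2) (b * x * y)
  have h12 := norm_add_le (F - (l * y + a * y ^ 2 + b * x * y + s * x ^ 2 + g * x ^ 3))
      (a * y ^ 2)
  linarith

/-- `h_{n+1} ∘ f_n ≈ g_n ∘ h_n`. -/
theorem err_FG : ∀ K : ℝ, ∃ A : ℝ, ∃ n₀ : ℕ, 0 ≤ A ∧ ∀ n, n₀ ≤ n → ∀ z, P.N n z ≤ K →
    P.N (n + 1) (C.H (n + 1) (D.f n z) - C.G n (C.H n z)) ≤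
      A * (Real.exp (-P.c n) * Real.exp (-P.τ * P.M n)) := by
  classical
  intro K
  have hA1 := D.hA
  have hB1 := C.hB
  have hA0 : 0 ≤ D.A := by linarith
  have hB0' : 0 ≤ C.B := by linarith
  have hAB : D.A * 1 ≤ D.A * C.B := mul_le_mul_of_nonneg_left hB1 hA0
  have hBA : 1 * C.B ≤ D.A * C.B := mul_le_mul_of_nonneg_right hA1 hB0'
  have hAA1 : 1 ≤ 6 * (D.A * C.B) := by linarith
  obtain ⟨B0, hB0, hE⟩ := errA (6 * (D.A * C.B)) hAA1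
  obtain ⟨n₀, hn₀⟩ := eventually_small (P := P) K D.r D.hr
  set K1 : ℝ := max K 1 with hK1
  have hK11 : 1 ≤ K1 := le_max_right _ _
  refine ⟨Real.exp P.b * B0 * (2 * (6 * (D.A * C.B)) + 2) * K1 ^ 4, n₀, by positivity, ?_⟩
  intro n hn z hz
  have hzr := hn₀ n hn z hz
  have hz1 : ‖z‖ ≤ 1 := hzr.trans D.hr1
  have hzK : P.N n z ≤ K1 := hz.trans (le_max_left _ _)
  obtain ⟨c1, c2, c3⟩ := conv1 P K1 hK11 n z hzK
  obtain ⟨d1, d2, d3⟩ := conv2 P K1 hK11 n z hzK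
  set ε : ℝ := Real.exp (-P.c n) * Real.exp (-P.τ * P.M n) with hε
  have hε0 : 0 < ε := by positivity
  have hx : ‖z.1‖ ≤ ‖z‖ := norm_fst_le z
  have hy : ‖z.2‖ ≤ ‖z‖ := norm_snd_le z
  have e1 := D.exp1 n z hzr
  have e2 := D.exp2 n z hzr
  have hA6 : D.A ≤ 6 * (D.A * C.B) := by linarith
  have hB6 : C.B ≤ 6 * (D.A * C.B) := by linarith
  have hl := lam_le_one D n
  have hu := mu_le_one D n
  have hm0 : 0 ≤ ‖z.1‖ * ‖z‖ ^ 2 + ‖z‖ ^ 4 := by positivity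
  have hm0' : 0 ≤ ‖z.2‖ * ‖z‖ ^ 2 + ‖z‖ ^ 4 := by positivity
  have hgam1 : ‖C.gam1 n‖ ≤ 4 * D.A * C.B :=
    cub_bound hA1 hB1 _ _ _ _ _ _ (D.hg1 n) (C.hp2 (n + 1)) (D.hs1 n) hu (D.hs1 n) (C.hq2 n)
  have hgam2 : ‖C.gam2 n‖ ≤ 4 * D.A * C.B :=
    cub_bound hA1 hB1 _ _ _ _ _ _ (D.hg2 n) (C.hq1 (n + 1)) (D.hs2 n) hl (D.hs2 n) (C.hp1 n)
  refine max_le ?_ ?_
  · -- first component
    have hF2 : ‖(D.f n z).2 - D.mu n * z.2‖ ≤ 6 * (D.A * C.B) * ‖z‖ ^ 2 := by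
      refine (quad_bound hA1 (D.f n z).2 (D.mu n) z.2 z.1 (D.a2 n) (D.b2 n) (D.s2 n) (D.g2 n)
        ‖z‖ hx hy hz1 (D.ha2 n) (D.hb2 n) (D.hs2 n) (D.hg2 n) e2).trans ?_
      refine mul_le_mul_of_nonneg_right ?_ (by positivity)
      linarith
    have key := hE (D.lam n) (D.mu n) (D.a1 n) (D.b1 n) (D.s1 n) (D.g1 n) (C.p1 (n + 1))
      (C.p2 (n + 1)) (C.p1 n) (C.p2 n) (C.q1 n) (C.q2 n) (if P.I2 n then D.s1 n else 0)
      (if P.I3 n then C.gam1 n else 0) z.1 z.2 (D.f n z).1 (D.f n z).2 ‖z‖ hl hu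
      ((D.ha1 n).trans hA6) ((D.hb1 n).trans hA6) ((D.hs1 n).trans hA6) ((D.hg1 n).trans hA6)
      ((C.hp1 _).trans hB6) ((C.hp2 _).trans hB6) ((C.hp1 _).trans hB6) ((C.hp2 _).trans hB6)
      ((C.hq1 _).trans hB6) ((C.hq2 _).trans hB6)
      (by split_ifs
          · exact (D.hs1 n).trans hA6
          · rw [norm_zero]; linarith)
      (by split_ifs
          · linarith
          · rw [norm_zero]; linarith)
      (C.ep1 n) (C.ep2 n) (Prod.norm_def z) hz1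
      (e1.trans (mul_le_mul_of_nonneg_right hA6 hm0)) hF2
    have hfin := fg_key (E := Real.exp (P.ξ n)) (Real.exp_pos _).le (Real.exp_pos P.b).le
      (norm_nonneg _) hB0 (exp_xi_succ (P := P) n)
      (by rw [add_assoc _ _ (‖z‖ ^ 4)] at key; exact key)
      (AA := 6 * (D.A * C.B)) (K4 := K1 ^ 4) (ε := ε) ?_ ?_ c3
    · exact hfin
    · by_cases h : P.I2 n
      · rw [if_pos h, sub_self, norm_zero, zero_mul]; positivity
      · rw [if_neg h, sub_zero]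
        exact mul_le_mul ((D.hs1 n).trans hA6) (c1 h) (by positivity) (by positivity)
    · by_cases h : P.I3 n
      · rw [if_pos h, if_pos h.1]
        have : D.g1 n + C.p2 (n + 1) * D.s1 n * D.mu n - 2 * D.s1 n * C.q2 n - C.gam1 n = 0 := by
          unfold Conj.gam1; ring
        rw [this, norm_zero, zero_mul]; positivity
      · rw [if_neg h, sub_zero]
        refine mul_le_mul ?_ (c2 h) (by positivity) (by positivity)
        refine (cub_bound hA1 hB1 _ _ _ _ _ _ (D.hg1 n) (C.hp2 (n + 1)) (D.hs1 n) hu ?_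
          (C.hq2 n)).trans (by linarith)
        split_ifs
        · exact D.hs1 n
        · rw [norm_zero]; linarith
  · -- second component
    have hF1 : ‖(D.f n z).1 - D.lam n * z.1‖ ≤ 6 * (D.A * C.B) * ‖z‖ ^ 2 := by
      refine (quad_bound hA1 (D.f n z).1 (D.lam n) z.1 z.2 (D.a1 n) (D.b1 n) (D.s1 n) (D.g1 n)
        ‖z‖ hy hx hz1 (D.ha1 n) (D.hb1 n) (D.hs1 n) (D.hg1 n) ?_).trans ?_
      · rw [show D.lam n * z.1 + D.a1 n * z.1 ^ 2 + D.b1 n * z.2 * z.1 + D.s1 n * z.2 ^ 2 +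
          D.g1 n * z.2 ^ 3 = D.lam n * z.1 + D.a1 n * z.1 ^ 2 + D.b1 n * z.1 * z.2 +
          D.s1 n * z.2 ^ 2 + D.g1 n * z.2 ^ 3 by ring]
        exact e1
      · refine mul_le_mul_of_nonneg_right ?_ (by positivity)
        linarith
    have key := hE (D.mu n) (D.lam n) (D.a2 n) (D.b2 n) (D.s2 n) (D.g2 n) (C.q2 (n + 1))
      (C.q1 (n + 1)) (C.q2 n) (C.q1 n) (C.p2 n) (C.p1 n) (if P.J2 n then D.s2 n else 0)
      (if P.J3 n then C.gam2 n else 0) z.2 z.1 (D.f n z).2 (D.f n z).1 ‖z‖ hu hl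
      ((D.ha2 n).trans hA6) ((D.hb2 n).trans hA6) ((D.hs2 n).trans hA6) ((D.hg2 n).trans hA6)
      ((C.hq2 _).trans hB6) ((C.hq1 _).trans hB6) ((C.hq2 _).trans hB6) ((C.hq1 _).trans hB6)
      ((C.hp2 _).trans hB6) ((C.hp1 _).trans hB6)
      (by split_ifs
          · exact (D.hs2 n).trans hA6
          · rw [norm_zero]; linarith)
      (by split_ifs
          · linarith
          · rw [norm_zero]; linarith)
      (C.eq2 n) (by rw [← C.eq1 n]; ring) (by rw [max_comm]; exact Prod.norm_def z) hz1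
      (by
        rw [show D.mu n * z.2 + D.a2 n * z.2 ^ 2 + D.b2 n * z.2 * z.1 + D.s2 n * z.1 ^ 2 +
          D.g2 n * z.1 ^ 3 = D.mu n * z.2 + D.a2 n * z.2 ^ 2 + D.b2 n * z.1 * z.2 +
          D.s2 n * z.1 ^ 2 + D.g2 n * z.1 ^ 3 by ring]
        exact e2.trans (mul_le_mul_of_nonneg_right hA6 hm0')) hF1
    have hfin := fg_key (E := Real.exp (P.η n)) (Real.exp_pos _).le (Real.exp_pos P.b).le
      (norm_nonneg _) hB0 (exp_eta_succ (P := P) n)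
      (by rw [add_assoc _ _ (‖z‖ ^ 4)] at key; exact key)
      (AA := 6 * (D.A * C.B)) (K4 := K1 ^ 4) (ε := ε) ?_ ?_ d3
    · refine le_trans (le_of_eq ?_) hfin
      congr 2
      show (D.f n z).2 + C.q1 (n + 1) * (D.f n z).1 * (D.f n z).2 +
        C.q2 (n + 1) * (D.f n z).2 ^ 2 - _ = _
      unfold Conj.G Conj.H
      dsimp only
      ring
    · by_cases h : P.J2 n
      · rw [if_pos h, sub_self, norm_zero, zero_mul]; positivity
      · rw [if_neg h, sub_zero]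
        exact mul_le_mul ((D.hs2 n).trans hA6) (d1 h) (by positivity) (by positivity)
    · by_cases h : P.J3 n
      · rw [if_pos h, if_pos h.1]
        have : D.g2 n + C.q1 (n + 1) * D.s2 n * D.lam n - 2 * D.s2 n * C.p1 n - C.gam2 n = 0 := by
          unfold Conj.gam2; ring
        rw [this, norm_zero, zero_mul]; positivity
      · rw [if_neg h, sub_zero]
        refine mul_le_mul ?_ (d2 h) (by positivity) (by positivity)
        refine (cub_bound hA1 hB1 _ _ _ _ _ _ (D.hg2 n) (C.hq1 (n + 1)) (D.hs2 n) hl ?_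
          (C.hp1 n)).trans (by linarith)
        split_ifs
        · exact D.hs2 n
        · rw [norm_zero]; linarith

end Pool.Agent.Lib.MP_b771e3_an
end

section

set_option autoImplicit false

open Filter Topology

namespace Pool.Agent.Lib.MP_b771e3_an

private lemma nmul_le {u v : ℂ} {U V : ℝ} (hu : ‖u‖ ≤ U) (hv : ‖v‖ ≤ V) : ‖u * v‖ ≤ U * V := by
  rw [norm_mul]
  exact mul_le_mul hu hv (norm_nonneg _) ((norm_nonneg _).trans hu)

private lemma nadd_le {u v : ℂ} {U V : ℝ} (hu : ‖u‖ ≤ U) (hv : ‖v‖ ≤ V) : ‖u + v‖ ≤ U + V :=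
  (norm_add_le _ _).trans (add_le_add hu hv)

private lemma nsub_le {u v : ℂ} {U V : ℝ} (hu : ‖u‖ ≤ U) (hv : ‖v‖ ≤ V) : ‖u - v‖ ≤ U + V :=
  (norm_sub_le _ _).trans (add_le_add hu hv)

/-- First component of `ht_{n+1} ∘ g_n - f_n ∘ ht_n`, with `X = x - p1 x² - p2 x y`,
`Y = y - q1 x y - q2 y²`, `G1 = lam x + e2 y² + e3 y³` and `F1 = f_n(X, Y)`. -/
theorem errB (A : ℝ) (hA : 1 ≤ A) : ∃ B : ℝ, 0 ≤ B ∧
    ∀ (lam mu a b s g P1 P2 p1 p2 q1 q2 e2 e3 x y X Y F1 G1 G2 : ℂ) (m m' : ℝ),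
      ‖lam‖ ≤ 1 → ‖mu‖ ≤ 1 → ‖a‖ ≤ A → ‖b‖ ≤ A → ‖s‖ ≤ A → ‖g‖ ≤ A → ‖P1‖ ≤ A → ‖P2‖ ≤ A →
      ‖p1‖ ≤ A → ‖p2‖ ≤ A → ‖q1‖ ≤ A → ‖q2‖ ≤ A → ‖e2‖ ≤ A → ‖e3‖ ≤ A →
      a + P1 * lam ^ 2 = lam * p1 → b + P2 * lam * mu = lam * p2 →
      m = max ‖x‖ ‖y‖ → m ≤ 1 →
      X = x - p1 * x ^ 2 - p2 * x * y → Y = y - q1 * x * y - q2 * y ^ 2 →
      m' = max ‖X‖ ‖Y‖ →
      ‖F1 - (lam * X + a * X ^ 2 + b * X * Y + s * Y ^ 2 + g * Y ^ 3)‖ ≤
        A * (‖X‖ * m' ^ 2 + m' ^ 4) →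
      G1 = lam * x + e2 * y ^ 2 + e3 * y ^ 3 →
      ‖G2 - mu * y‖ ≤ A * ‖x‖ ^ 2 →
      ‖(G1 - P1 * G1 ^ 2 - P2 * G1 * G2) - F1‖ ≤
        B * (‖s - e2‖ * ‖y‖ ^ 2 + ‖g + P2 * e2 * mu - 2 * s * q2 - e3‖ * ‖y‖ ^ 3 +
          ‖x‖ * m ^ 2 + m ^ 4) := by
  refine ⟨1000 * A ^ 5, by positivity, ?_⟩
  intro lam mu a b s g P1 P2 p1 p2 q1 q2 e2 e3 x y X Y F1 G1 G2 m m' hlam hmu ha hb hs hg hP1 hP2
    hp1 hp2 hq1 hq2 he2 he3 h1 h2 hm hm1 hX hY hm' hF hG1 hG2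
  have hA0 : 0 ≤ A := by linarith
  have hx : ‖x‖ ≤ m := by rw [hm]; exact le_max_left _ _
  have hy : ‖y‖ ≤ m := by rw [hm]; exact le_max_right _ _
  have hx0 : 0 ≤ ‖x‖ := norm_nonneg x
  have hm0 : 0 ≤ m := hx0.trans hx
  have hy0 : 0 ≤ ‖y‖ := norm_nonneg y
  set nx := ‖x‖ with hnx
  set r : ℂ := G2 - mu * y with hr
  set ρ : ℂ := F1 - (lam * X + a * X ^ 2 + b * X * Y + s * Y ^ 2 + g * Y ^ 3) with hρ
  set w : ℂ := e2 * y ^ 2 + e3 * y ^ 3 with hw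
  set δ : ℂ := q1 * x + q2 * y with hδ
  have hpow : ∀ (z : ℂ) (k : ℕ) (M : ℝ), ‖z‖ ≤ M → ‖z ^ k‖ ≤ M ^ k := by
    intro z k M hz
    rw [norm_pow]
    exact pow_le_pow_left₀ (norm_nonneg _) hz k
  have hm2 : m ^ 2 ≤ m := pow_le_of_le_one hm0 hm1 two_ne_zero
  have hm3 : m ^ 3 ≤ m ^ 2 := pow_le_pow_of_le_one hm0 hm1 (by norm_num)
  have hm34 : m ^ 5 ≤ m ^ 4 := pow_le_pow_of_le_one hm0 hm1 (by norm_num)
  have hm36 : m ^ 6 ≤ m ^ 4 := pow_le_pow_of_le_one hm0 hm1 (by norm_num)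
  have hδb : ‖δ‖ ≤ 2 * A * m := by
    have := nadd_le (nmul_le hq1 hx) (nmul_le hq2 hy)
    rw [hδ]; linarith
  have hxX : ‖x - X‖ ≤ 2 * A * (nx * m) := by
    have h3 : x - X = x * (p1 * x + p2 * y) := by rw [hX]; ring
    rw [h3]
    have := nmul_le (le_refl ‖x‖) (nadd_le (nmul_le hp1 hx) (nmul_le hp2 hy))
    refine this.trans (le_of_eq ?_); ring
  have hXb : ‖X‖ ≤ (1 + 2 * A) * nx := by
    have h3 : X = x - (x - X) := by ring
    rw [h3]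
    refine (nsub_le (le_refl ‖x‖) hxX).trans ?_
    have h4 : nx * m ≤ nx * 1 := mul_le_mul_of_nonneg_left hm1 hx0
    have h5 := mul_le_mul_of_nonneg_left h4 (show 0 ≤ 2 * A by linarith)
    rw [← hnx]
    linarith
  have hyY : ‖y - Y‖ ≤ 2 * A * m ^ 2 := by
    have h3 : y - Y = y * δ := by rw [hY, hδ]; ring
    rw [h3]
    refine (nmul_le hy hδb).trans (le_of_eq ?_); ring
  have hYb : ‖Y‖ ≤ (1 + 2 * A) * m := by
    have h3 : Y = y - (y - Y) := by ring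
    rw [h3]
    refine (nsub_le hy hyY).trans ?_
    have h5 := mul_le_mul_of_nonneg_left hm2 (show 0 ≤ 2 * A by linarith)
    linarith
  have hwb : ‖w‖ ≤ 2 * A * m ^ 2 := by
    have := nadd_le (nmul_le he2 (hpow y 2 m hy)) (nmul_le he3 (hpow y 3 m hy))
    rw [hw]
    have h4 : A * m ^ 3 ≤ A * m ^ 2 := mul_le_mul_of_nonneg_left hm3 hA0
    linarith
  have hrb : ‖r‖ ≤ A * (nx * m) := by
    refine hG2.trans ?_
    have : nx ^ 2 ≤ nx * m := by rw [sq]; exact mul_le_mul_of_nonneg_left hx hx0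
    exact mul_le_mul_of_nonneg_left this hA0
  have hm'b : m' ≤ (1 + 2 * A) * m := by
    rw [hm']
    refine max_le (hXb.trans ?_) hYb
    exact mul_le_mul_of_nonneg_left hx (by linarith)
  have hm'0 : 0 ≤ m' := by rw [hm']; exact (norm_nonneg X).trans (le_max_left _ _)
  have hA3 : (1 + 2 * A) ≤ 3 * A := by linarith
  have hρb : ‖ρ‖ ≤ 81 * A ^ 5 * (nx * m ^ 2 + m ^ 4) := by
    refine hF.trans ?_
    have h3 : ‖X‖ ≤ 3 * A * nx := hXb.trans (mul_le_mul_of_nonneg_right hA3 hx0)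
    have h4 : m' ≤ 3 * A * m := hm'b.trans (mul_le_mul_of_nonneg_right hA3 hm0)
    have h5 : m' ^ 2 ≤ (3 * A * m) ^ 2 := pow_le_pow_left₀ hm'0 h4 2
    have h6 : m' ^ 4 ≤ (3 * A * m) ^ 4 := pow_le_pow_left₀ hm'0 h4 4
    have h7 : ‖X‖ * m' ^ 2 ≤ (3 * A * nx) * (3 * A * m) ^ 2 :=
      mul_le_mul h3 h5 (by positivity) (by positivity)
    have h8 : A * (‖X‖ * m' ^ 2 + m' ^ 4) ≤
        A * ((3 * A * nx) * (3 * A * m) ^ 2 + (3 * A * m) ^ 4) :=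
      mul_le_mul_of_nonneg_left (add_le_add h7 h6) hA0
    refine h8.trans ?_
    have h9 : A * ((3 * A * nx) * (3 * A * m) ^ 2 + (3 * A * m) ^ 4) =
      27 * A ^ 4 * (nx * m ^ 2) + 81 * A ^ 5 * m ^ 4 := by ring
    rw [h9]
    have h10 : A ^ 4 ≤ A ^ 5 := pow_le_pow_right₀ hA (by norm_num)
    have h11 : 27 * A ^ 4 ≤ 81 * A ^ 5 := by linarith [pow_nonneg hA0 4, pow_nonneg hA0 5]
    have h12 := mul_le_mul_of_nonneg_right h11 (show 0 ≤ nx * m ^ 2 by positivity)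
    linarith
  -- the decomposition
  have hdec : (G1 - P1 * G1 ^ 2 - P2 * G1 * G2) - F1 =
      -((s - e2) * y ^ 2) - (g + P2 * e2 * mu - 2 * s * q2 - e3) * y ^ 3 +
      (a * ((x - X) * (x + X)) + b * ((x - X) * y) + b * (X * (y - Y)) -
        P1 * (w * (2 * lam * x + w)) - P2 * (lam * x * r + e3 * mu * y ^ 4 + w * r) +
        2 * s * q1 * x * y ^ 2 - s * (y ^ 2 * δ ^ 2) + g * (y ^ 3 * (3 * δ - 3 * δ ^ 2 + δ ^ 3)) -
        ρ) := by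
    have hp1' : lam * X = lam * x - (a + P1 * lam ^ 2) * x ^ 2 - (b + P2 * lam * mu) * (x * y) := by
      rw [h1, h2, hX]; ring
    have hF1 : F1 = ρ + (lam * X + a * X ^ 2 + b * X * Y + s * Y ^ 2 + g * Y ^ 3) := by
      rw [hρ]; ring
    have hG2' : G2 = mu * y + r := by rw [hr]; ring
    have hG1' : G1 = lam * x + w := by rw [hG1, hw]; ring
    have hY' : Y = y * (1 - δ) := by rw [hY, hδ]; ring
    have hsY : s * Y ^ 2 = s * y ^ 2 - 2 * s * q2 * y ^ 3 - 2 * s * q1 * x * y ^ 2 +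
        s * (y ^ 2 * δ ^ 2) := by rw [hY', hδ]; ring
    have hgY : g * Y ^ 3 = g * y ^ 3 - g * (y ^ 3 * (3 * δ - 3 * δ ^ 2 + δ ^ 3)) := by
      rw [hY']; ring
    have hww : P2 * w * mu * y = P2 * e2 * mu * y ^ 3 + P2 * e3 * mu * y ^ 4 := by
      rw [hw]; ring
    rw [hF1, hsY, hgY, hp1', hG2', hG1']
    have hwe : w = e2 * y ^ 2 + e3 * y ^ 3 := hw
    linear_combination (1 : ℂ) * hwe - (1 : ℂ) * hww
  rw [hdec]
  have hq1' := hq1
  clear hq1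
  have hq1 : 0 ≤ nx * m ^ 2 := by positivity
  have hq2 : 0 ≤ m ^ 4 := by positivity
  have hA5 : ∀ k : ℕ, k ≤ 5 → A ^ k ≤ A ^ 5 := fun k hk => pow_le_pow_right₀ hA hk
  have hA5' : A ≤ A ^ 5 := by simpa using hA5 1 (by norm_num)
  have hXX : ‖x + X‖ ≤ 4 * A * m := by
    refine (nadd_le hx (hXb.trans (mul_le_mul_of_nonneg_right hA3 hx0))).trans ?_
    have h4 : 3 * A * nx ≤ 3 * A * m := mul_le_mul_of_nonneg_left hx (by positivity)
    have h5 : 1 * m ≤ A * m := mul_le_mul_of_nonneg_right hA hm0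
    linarith
  have hXb3 : ‖X‖ ≤ 3 * A * nx := hXb.trans (mul_le_mul_of_nonneg_right hA3 hx0)
  have B1 : ‖a * ((x - X) * (x + X))‖ ≤ 8 * A ^ 5 * (nx * m ^ 2) := by
    refine (nmul_le ha (nmul_le hxX hXX)).trans ?_
    have : A * (2 * A * (nx * m) * (4 * A * m)) = 8 * A ^ 3 * (nx * m ^ 2) := by ring
    rw [this]
    exact mul_le_mul_of_nonneg_right (by linarith [hA5 3 (by norm_num)]) hq1
  have B2 : ‖b * ((x - X) * y)‖ ≤ 2 * A ^ 5 * (nx * m ^ 2) := by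
    refine (nmul_le hb (nmul_le hxX hy)).trans ?_
    have : A * (2 * A * (nx * m) * m) = 2 * A ^ 2 * (nx * m ^ 2) := by ring
    rw [this]
    exact mul_le_mul_of_nonneg_right (by linarith [hA5 2 (by norm_num)]) hq1
  have B3 : ‖b * (X * (y - Y))‖ ≤ 6 * A ^ 5 * (nx * m ^ 2) := by
    refine (nmul_le hb (nmul_le hXb3 hyY)).trans ?_
    have : A * (3 * A * nx * (2 * A * m ^ 2)) = 6 * A ^ 3 * (nx * m ^ 2) := by ring
    rw [this]
    exact mul_le_mul_of_nonneg_right (by linarith [hA5 3 (by norm_num)]) hq1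
  have hlx : ‖2 * lam * x‖ ≤ 2 * nx := by
    have h3 : ‖(2 : ℂ) * lam‖ ≤ 2 * 1 := nmul_le (by simp) hlam
    refine (nmul_le h3 (le_refl ‖x‖)).trans (le_of_eq (by ring))
  have B4 : ‖P1 * (w * (2 * lam * x + w))‖ ≤ 4 * A ^ 5 * (nx * m ^ 2) + 4 * A ^ 5 * m ^ 4 := by
    refine (nmul_le hP1 (nmul_le hwb (nadd_le hlx hwb))).trans ?_
    have : A * (2 * A * m ^ 2 * (2 * nx + 2 * A * m ^ 2)) =
        4 * A ^ 2 * (nx * m ^ 2) + 4 * A ^ 3 * m ^ 4 := by ring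
    rw [this]
    exact add_le_add
      (mul_le_mul_of_nonneg_right (by linarith [hA5 2 (by norm_num)]) hq1)
      (mul_le_mul_of_nonneg_right (by linarith [hA5 3 (by norm_num)]) hq2)
  have hlx1 : ‖lam * x‖ ≤ m := by
    refine (nmul_le hlam hx).trans (le_of_eq (by ring))
  have hwm : ‖w‖ ≤ 2 * A * m := by
    refine hwb.trans ?_
    exact mul_le_mul_of_nonneg_left hm2 (by positivity)
  have B5 : ‖P2 * (lam * x * r + e3 * mu * y ^ 4 + w * r)‖ ≤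
      3 * A ^ 5 * (nx * m ^ 2) + A ^ 5 * m ^ 4 := by
    have h3 : ‖e3 * mu * y ^ 4‖ ≤ A * 1 * m ^ 4 := nmul_le (nmul_le he3 hmu) (hpow y 4 m hy)
    refine (nmul_le hP2 (nadd_le (nadd_le (nmul_le hlx1 hrb) h3) (nmul_le hwm hrb))).trans ?_
    have : A * (m * (A * (nx * m)) + A * 1 * m ^ 4 + 2 * A * m * (A * (nx * m))) =
        (A ^ 2 + 2 * A ^ 3) * (nx * m ^ 2) + A ^ 2 * m ^ 4 := by ring
    rw [this]
    exact add_le_add
      (mul_le_mul_of_nonneg_right (by linarith [hA5 2 (by norm_num), hA5 3 (by norm_num)]) hq1)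
      (mul_le_mul_of_nonneg_right (by linarith [hA5 2 (by norm_num)]) hq2)
  have B6 : ‖2 * s * q1 * x * y ^ 2‖ ≤ 2 * A ^ 5 * (nx * m ^ 2) := by
    have h3 : ‖(2 : ℂ) * s‖ ≤ 2 * A := nmul_le (by simp) hs
    refine (nmul_le (nmul_le (nmul_le h3 hq1') (le_refl ‖x‖)) (hpow y 2 m hy)).trans ?_
    have : 2 * A * A * ‖x‖ * m ^ 2 = 2 * A ^ 2 * (nx * m ^ 2) := by rw [← hnx]; ring
    rw [this]
    exact mul_le_mul_of_nonneg_right (by linarith [hA5 2 (by norm_num)]) hq1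
  have B7 : ‖s * (y ^ 2 * δ ^ 2)‖ ≤ 4 * A ^ 5 * m ^ 4 := by
    refine (nmul_le hs (nmul_le (hpow y 2 m hy) (hpow δ 2 _ hδb))).trans ?_
    have : A * (m ^ 2 * (2 * A * m) ^ 2) = 4 * A ^ 3 * m ^ 4 := by ring
    rw [this]
    exact mul_le_mul_of_nonneg_right (by linarith [hA5 3 (by norm_num)]) hq2
  have B8 : ‖g * (y ^ 3 * (3 * δ - 3 * δ ^ 2 + δ ^ 3))‖ ≤ 26 * A ^ 5 * m ^ 4 := by
    have h3 : ‖(3 : ℂ) * δ‖ ≤ 3 * (2 * A * m) := nmul_le (by simp) hδb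
    have h4 : ‖(3 : ℂ) * δ ^ 2‖ ≤ 3 * (2 * A * m) ^ 2 := nmul_le (by simp) (hpow δ 2 _ hδb)
    refine (nmul_le hg (nmul_le (hpow y 3 m hy)
      (nadd_le (nsub_le h3 h4) (hpow δ 3 _ hδb)))).trans ?_
    have : A * (m ^ 3 * (3 * (2 * A * m) + 3 * (2 * A * m) ^ 2 + (2 * A * m) ^ 3)) =
        6 * A ^ 2 * m ^ 4 + 12 * A ^ 3 * m ^ 5 + 8 * A ^ 4 * m ^ 6 := by ring
    rw [this]
    have h5 : 6 * A ^ 2 * m ^ 4 ≤ 6 * A ^ 5 * m ^ 4 :=
      mul_le_mul_of_nonneg_right (by linarith [hA5 2 (by norm_num)]) hq2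
    have h6 : 12 * A ^ 3 * m ^ 5 ≤ 12 * A ^ 5 * m ^ 4 :=
      mul_le_mul (by linarith [hA5 3 (by norm_num)]) hm34 (by positivity) (by positivity)
    have h7 : 8 * A ^ 4 * m ^ 6 ≤ 8 * A ^ 5 * m ^ 4 :=
      mul_le_mul (by linarith [hA5 4 (by norm_num)]) hm36 (by positivity) (by positivity)
    linarith
  have hR : ‖a * ((x - X) * (x + X)) + b * ((x - X) * y) + b * (X * (y - Y)) -
        P1 * (w * (2 * lam * x + w)) - P2 * (lam * x * r + e3 * mu * y ^ 4 + w * r) +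
        2 * s * q1 * x * y ^ 2 - s * (y ^ 2 * δ ^ 2) + g * (y ^ 3 * (3 * δ - 3 * δ ^ 2 + δ ^ 3)) -
        ρ‖ ≤ 200 * A ^ 5 * (nx * m ^ 2 + m ^ 4) := by
    refine (nsub_le (nadd_le (nsub_le (nadd_le (nsub_le (nsub_le (nadd_le (nadd_le B1 B2) B3)
      B4) B5) B6) B7) B8) hρb).trans ?_
    have h5 : 0 ≤ A ^ 5 * (nx * m ^ 2) := by positivity
    have h6 : 0 ≤ A ^ 5 * m ^ 4 := by positivity
    linarith
  have hT1 : ‖-((s - e2) * y ^ 2)‖ ≤ ‖s - e2‖ * ‖y‖ ^ 2 := by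
    rw [norm_neg, norm_mul, norm_pow]
  have hT2 : ‖(g + P2 * e2 * mu - 2 * s * q2 - e3) * y ^ 3‖ ≤
      ‖g + P2 * e2 * mu - 2 * s * q2 - e3‖ * ‖y‖ ^ 3 := by
    rw [norm_mul, norm_pow]
  refine (nadd_le (nsub_le hT1 hT2) hR).trans ?_
  have h7 : 0 ≤ ‖s - e2‖ * ‖y‖ ^ 2 := by positivity
  have h8 : 0 ≤ ‖g + P2 * e2 * mu - 2 * s * q2 - e3‖ * ‖y‖ ^ 3 := by positivity
  have h9 : 1 ≤ 1000 * A ^ 5 := by
    have := one_le_pow₀ hA (n := 5)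
    linarith
  have h10 := mul_le_mul_of_nonneg_right h9 h7
  have h11 := mul_le_mul_of_nonneg_right h9 h8
  have h12 : 200 * A ^ 5 * (nx * m ^ 2 + m ^ 4) ≤ 1000 * A ^ 5 * (nx * m ^ 2 + m ^ 4) :=
    mul_le_mul_of_nonneg_right (by linarith [pow_nonneg hA0 5]) (by positivity)
  calc _ = 1 * (‖s - e2‖ * ‖y‖ ^ 2) + 1 * (‖g + P2 * e2 * mu - 2 * s * q2 - e3‖ * ‖y‖ ^ 3) +
        200 * A ^ 5 * (nx * m ^ 2 + m ^ 4) := by ring
    _ ≤ 1000 * A ^ 5 * (‖s - e2‖ * ‖y‖ ^ 2) +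
        1000 * A ^ 5 * (‖g + P2 * e2 * mu - 2 * s * q2 - e3‖ * ‖y‖ ^ 3) +
        1000 * A ^ 5 * (nx * m ^ 2 + m ^ 4) := add_le_add (add_le_add h10 h11) h12
    _ = _ := by ring

end Pool.Agent.Lib.MP_b771e3_an
end

section

set_option autoImplicit false

open Filter Topology

namespace Pool.Agent.Lib.MP_b771e3_an

private theorem errC_aux (A : ℝ) (hA : 1 ≤ A) (p1 p2 q1 q2 x y : ℂ) (m : ℝ)
    (h1 : ‖p1‖ ≤ A) (h2 : ‖p2‖ ≤ A) (h3 : ‖q1‖ ≤ A) (h4 : ‖q2‖ ≤ A)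
    (hm : m = max ‖x‖ ‖y‖) (hm1 : m ≤ 1) (X Y : ℂ)
    (hX : X - x = x * (p1 * x + p2 * y)) (hY : Y - y = y * (q1 * x + q2 * y)) :
    ‖p1 * (X ^ 2 - x ^ 2) + p2 * (X * Y - x * y)‖ ≤ 16 * A ^ 3 * (‖x‖ * m ^ 2) := by
  have hx : ‖x‖ ≤ m := hm ▸ le_max_left _ _
  have hy : ‖y‖ ≤ m := hm ▸ le_max_right _ _
  have hx0 : 0 ≤ ‖x‖ := norm_nonneg _
  have hy0 : 0 ≤ ‖y‖ := norm_nonneg _
  have hm0 : 0 ≤ m := hx0.trans hx
  have hA0 : 0 ≤ A := by linarith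
  have e1 : ‖p1 * x + p2 * y‖ ≤ 2 * A * m := by
    calc ‖p1 * x + p2 * y‖ ≤ ‖p1‖ * ‖x‖ + ‖p2‖ * ‖y‖ := by
          refine (norm_add_le _ _).trans ?_
          rw [norm_mul, norm_mul]
      _ ≤ A * m + A * m := by gcongr
      _ = 2 * A * m := by ring
  have e2 : ‖q1 * x + q2 * y‖ ≤ 2 * A * m := by
    calc ‖q1 * x + q2 * y‖ ≤ ‖q1‖ * ‖x‖ + ‖q2‖ * ‖y‖ := by
          refine (norm_add_le _ _).trans ?_
          rw [norm_mul, norm_mul]
      _ ≤ A * m + A * m := by gcongr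
      _ = 2 * A * m := by ring
  have hXx : ‖X - x‖ ≤ ‖x‖ * (2 * A * m) := by
    rw [hX, norm_mul]; gcongr
  have hYy : ‖Y - y‖ ≤ m * (2 * A * m) := by
    rw [hY, norm_mul]; gcongr
  have hAm : 2 * A * m ≤ 2 * A := by nlinarith
  have hXp : ‖X + x‖ ≤ 4 * A * m := by
    have : X + x = (X - x) + 2 * x := by ring
    rw [this]
    calc ‖(X - x) + 2 * x‖ ≤ ‖X - x‖ + ‖2 * x‖ := norm_add_le _ _
      _ ≤ ‖x‖ * (2 * A * m) + 2 * ‖x‖ := by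
          rw [norm_mul]; simp only [Complex.norm_ofNat]; linarith
      _ ≤ m * (2 * A) + 2 * m := by gcongr
      _ ≤ 4 * A * m := by nlinarith
  have hYn : ‖Y‖ ≤ 3 * A * m := by
    have : Y = (Y - y) + y := by ring
    rw [this]
    calc ‖(Y - y) + y‖ ≤ ‖Y - y‖ + ‖y‖ := norm_add_le _ _
      _ ≤ m * (2 * A * m) + m := by linarith
      _ ≤ m * (2 * A) + m := by gcongr
      _ ≤ 3 * A * m := by nlinarith
  have f1 : ‖X ^ 2 - x ^ 2‖ ≤ (‖x‖ * (2 * A * m)) * (4 * A * m) := by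
    have : X ^ 2 - x ^ 2 = (X - x) * (X + x) := by ring
    rw [this, norm_mul]; gcongr
  have f2 : ‖X * Y - x * y‖ ≤ (‖x‖ * (2 * A * m)) * (3 * A * m) + ‖x‖ * (m * (2 * A * m)) := by
    have : X * Y - x * y = (X - x) * Y + x * (Y - y) := by ring
    rw [this]
    refine (norm_add_le _ _).trans ?_
    rw [norm_mul, norm_mul]; gcongr
  calc ‖p1 * (X ^ 2 - x ^ 2) + p2 * (X * Y - x * y)‖
      ≤ ‖p1‖ * ‖X ^ 2 - x ^ 2‖ + ‖p2‖ * ‖X * Y - x * y‖ := by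
        refine (norm_add_le _ _).trans ?_
        rw [norm_mul, norm_mul]
    _ ≤ A * ((‖x‖ * (2 * A * m)) * (4 * A * m)) +
        A * ((‖x‖ * (2 * A * m)) * (3 * A * m) + ‖x‖ * (m * (2 * A * m))) := by gcongr
    _ = (14 * A ^ 3 + 2 * A ^ 2) * (‖x‖ * m ^ 2) := by ring
    _ ≤ 16 * A ^ 3 * (‖x‖ * m ^ 2) := by
        have : 14 * A ^ 3 + 2 * A ^ 2 ≤ 16 * A ^ 3 := by nlinarith [sq_nonneg A]
        gcongr

/-- First component of `h ∘ ht - id` and of `ht ∘ h - id`. -/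
theorem errC (A : ℝ) (hA : 1 ≤ A) : ∃ B : ℝ, 0 ≤ B ∧
    ∀ (p1 p2 q1 q2 x y : ℂ) (m : ℝ), ‖p1‖ ≤ A → ‖p2‖ ≤ A → ‖q1‖ ≤ A → ‖q2‖ ≤ A →
      m = max ‖x‖ ‖y‖ → m ≤ 1 →
      ‖((x - p1 * x ^ 2 - p2 * x * y) + p1 * (x - p1 * x ^ 2 - p2 * x * y) ^ 2 +
          p2 * (x - p1 * x ^ 2 - p2 * x * y) * (y - q1 * x * y - q2 * y ^ 2)) - x‖ ≤
        B * (‖x‖ * m ^ 2) ∧
      ‖((x + p1 * x ^ 2 + p2 * x * y) - p1 * (x + p1 * x ^ 2 + p2 * x * y) ^ 2 -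
          p2 * (x + p1 * x ^ 2 + p2 * x * y) * (y + q1 * x * y + q2 * y ^ 2)) - x‖ ≤
        B * (‖x‖ * m ^ 2) := by
  refine ⟨16 * A ^ 3, by positivity, ?_⟩
  intro p1 p2 q1 q2 x y m h1 h2 h3 h4 hm hm1
  constructor
  · have := errC_aux A hA (-p1) (-p2) (-q1) (-q2) x y m (by simpa using h1) (by simpa using h2)
      (by simpa using h3) (by simpa using h4) hm hm1 (x - p1 * x ^ 2 - p2 * x * y)
      (y - q1 * x * y - q2 * y ^ 2) (by ring) (by ring)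
    have e : ((x - p1 * x ^ 2 - p2 * x * y) + p1 * (x - p1 * x ^ 2 - p2 * x * y) ^ 2 +
          p2 * (x - p1 * x ^ 2 - p2 * x * y) * (y - q1 * x * y - q2 * y ^ 2)) - x =
        -(-p1 * ((x - p1 * x ^ 2 - p2 * x * y) ^ 2 - x ^ 2) +
          -p2 * ((x - p1 * x ^ 2 - p2 * x * y) * (y - q1 * x * y - q2 * y ^ 2) - x * y)) := by
      ring
    rw [e, norm_neg]
    exact this
  · have := errC_aux A hA p1 p2 q1 q2 x y m h1 h2 h3 h4 hm hm1 (x + p1 * x ^ 2 + p2 * x * y)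
      (y + q1 * x * y + q2 * y ^ 2) (by ring) (by ring)
    have e : ((x + p1 * x ^ 2 + p2 * x * y) - p1 * (x + p1 * x ^ 2 + p2 * x * y) ^ 2 -
          p2 * (x + p1 * x ^ 2 + p2 * x * y) * (y + q1 * x * y + q2 * y ^ 2)) - x =
        -(p1 * ((x + p1 * x ^ 2 + p2 * x * y) ^ 2 - x ^ 2) +
          p2 * ((x + p1 * x ^ 2 + p2 * x * y) * (y + q1 * x * y + q2 * y ^ 2) - x * y)) := by
      ring
    rw [e, norm_neg]
    exact this

end Pool.Agent.Lib.MP_b771e3_an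
end

section

set_option autoImplicit false

open Filter Topology

namespace Pool.Agent.Lib.MP_b771e3_an

variable {P : PD} {D : Dyn P} (C : Conj D)

private theorem errId_aux (P : PD) (K : ℝ) (hK : 1 ≤ K) (B : ℝ) (hB : 0 ≤ B) (n : ℕ)
    (z w : ℂ × ℂ) (hz : P.N n z ≤ K) (h1 : ‖w.1‖ ≤ B * (‖z.1‖ * ‖z‖ ^ 2))
    (h2 : ‖w.2‖ ≤ B * (‖z.2‖ * ‖z‖ ^ 2)) :
    P.N n w ≤ B * (2 * K ^ 4) * (Real.exp (-P.c n) * Real.exp (-P.τ * P.M n)) := by
  have c1 := (conv1 P K hK n z hz).2.2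
  have c2 := (conv2 P K hK n z hz).2.2
  refine max_le ?_ ?_
  · calc Real.exp (P.ξ n) * ‖w.1‖ ≤ Real.exp (P.ξ n) * (B * (‖z.1‖ * ‖z‖ ^ 2)) := by gcongr
      _ ≤ B * (Real.exp (P.ξ n) * (‖z.1‖ * ‖z‖ ^ 2 + ‖z‖ ^ 4)) := by
          have : 0 ≤ B * (Real.exp (P.ξ n) * ‖z‖ ^ 4) := by positivity
          nlinarith
      _ ≤ B * (2 * K ^ 4 * (Real.exp (-P.c n) * Real.exp (-P.τ * P.M n))) := by gcongr
      _ = B * (2 * K ^ 4) * (Real.exp (-P.c n) * Real.exp (-P.τ * P.M n)) := by ring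
  · calc Real.exp (P.η n) * ‖w.2‖ ≤ Real.exp (P.η n) * (B * (‖z.2‖ * ‖z‖ ^ 2)) := by gcongr
      _ ≤ B * (Real.exp (P.η n) * (‖z.2‖ * ‖z‖ ^ 2 + ‖z‖ ^ 4)) := by
          have : 0 ≤ B * (Real.exp (P.η n) * ‖z‖ ^ 4) := by positivity
          nlinarith
      _ ≤ B * (2 * K ^ 4 * (Real.exp (-P.c n) * Real.exp (-P.τ * P.M n))) := by gcongr
      _ = B * (2 * K ^ 4) * (Real.exp (-P.c n) * Real.exp (-P.τ * P.M n)) := by ring

/-- `h ∘ ht ≈ id`. -/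
theorem err_HHt : ∀ K : ℝ, ∃ A : ℝ, ∃ n₀ : ℕ, 0 ≤ A ∧ ∀ n, n₀ ≤ n → ∀ z, P.N n z ≤ K →
    P.N n (C.H n (C.Ht n z) - z) ≤ A * (Real.exp (-P.c n) * Real.exp (-P.τ * P.M n)) := by
  intro K
  obtain ⟨B, hB, hE⟩ := errC C.B C.hB
  obtain ⟨n₀, hn₀⟩ := eventually_small (P := P) (max K 1) 1 one_pos
  refine ⟨B * (2 * (max K 1) ^ 4), n₀, by positivity, ?_⟩
  intro n hn z hz
  have hz' : P.N n z ≤ max K 1 := hz.trans (le_max_left _ _)
  have hz1 : ‖z‖ ≤ 1 := hn₀ n hn z hz'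
  refine errId_aux P (max K 1) (le_max_right _ _) B hB n z _ hz' ?_ ?_
  · have := (hE (C.p1 n) (C.p2 n) (C.q1 n) (C.q2 n) z.1 z.2 ‖z‖ (C.hp1 n) (C.hp2 n) (C.hq1 n)
      (C.hq2 n) rfl hz1).1
    exact this
  · have := (hE (C.q2 n) (C.q1 n) (C.p2 n) (C.p1 n) z.2 z.1 ‖z‖ (C.hq2 n) (C.hq1 n) (C.hp2 n)
      (C.hp1 n) (max_comm _ _) hz1).1
    refine le_trans (le_of_eq ?_) this
    congr 1
    simp only [Conj.H, Conj.Ht, Prod.snd_sub]
    ring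

/-- `ht ∘ h ≈ id`. -/
theorem err_HtH : ∀ K : ℝ, ∃ A : ℝ, ∃ n₀ : ℕ, 0 ≤ A ∧ ∀ n, n₀ ≤ n → ∀ z, P.N n z ≤ K →
    P.N n (C.Ht n (C.H n z) - z) ≤ A * (Real.exp (-P.c n) * Real.exp (-P.τ * P.M n)) := by
  intro K
  obtain ⟨B, hB, hE⟩ := errC C.B C.hB
  obtain ⟨n₀, hn₀⟩ := eventually_small (P := P) (max K 1) 1 one_pos
  refine ⟨B * (2 * (max K 1) ^ 4), n₀, by positivity, ?_⟩
  intro n hn z hz
  have hz' : P.N n z ≤ max K 1 := hz.trans (le_max_left _ _)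
  have hz1 : ‖z‖ ≤ 1 := hn₀ n hn z hz'
  refine errId_aux P (max K 1) (le_max_right _ _) B hB n z _ hz' ?_ ?_
  · have := (hE (C.p1 n) (C.p2 n) (C.q1 n) (C.q2 n) z.1 z.2 ‖z‖ (C.hp1 n) (C.hp2 n) (C.hq1 n)
      (C.hq2 n) rfl hz1).2
    exact this
  · have := (hE (C.q2 n) (C.q1 n) (C.p2 n) (C.p1 n) z.2 z.1 ‖z‖ (C.hq2 n) (C.hq1 n) (C.hp2 n)
      (C.hp1 n) (max_comm _ _) hz1).2
    refine le_trans (le_of_eq ?_) this
    congr 1
    simp only [Conj.H, Conj.Ht, Prod.snd_sub]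
    ring

end Pool.Agent.Lib.MP_b771e3_an
end

section

set_option autoImplicit false

open Filter Topology

namespace Pool.Agent.Lib.MP_b771e3_an

/-- The scalar version. -/
theorem lim_diff_scalar (U : Set (ℂ × ℂ)) (hU : IsOpen U) (f : ℕ → ℂ × ℂ → ℂ)
    (q : ℂ × ℂ → ℂ) (hf : ∀ n, DifferentiableOn ℂ (f n) U)
    (h : TendstoUniformlyOn f q atTop U) : DifferentiableOn ℂ q U := by
  have hcont : ContinuousOn q U :=
    h.continuousOn (Eventually.of_forall fun n => (hf n).continuousOn).frequently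
  refine Pool.Agent.Lib.MP_ca0fc2_an.osgood hU ?_ ?_ ?_
  · intro p hp
    set V : Set ℂ := {t | ((t, p.2) : ℂ × ℂ) ∈ U} with hV
    have hVo : IsOpen V := hU.preimage (by fun_prop)
    have hpV : p.1 ∈ V := by simpa [hV] using hp
    have hlim : TendstoUniformlyOn (fun n t => f n (t, p.2)) (fun t => q (t, p.2)) atTop V := by
      intro u hu
      filter_upwards [h u hu] with n hn
      intro t ht
      exact hn (t, p.2) ht
    have hd : ∀ n, DifferentiableOn ℂ (fun t => f n (t, p.2)) V := by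
      intro n t ht
      have h1 := ((hf n) (t, p.2) ht).differentiableAt (hU.mem_nhds ht)
      exact (DifferentiableAt.comp (g := f n) (f := fun t : ℂ => ((t, p.2) : ℂ × ℂ)) t h1
        (differentiableAt_id.prodMk (differentiableAt_const _))).differentiableWithinAt
    have := hlim.tendstoLocallyUniformlyOn.differentiableOn (Eventually.of_forall hd) hVo
    exact (this p.1 hpV).differentiableAt (hVo.mem_nhds hpV)
  · intro p hp
    set V : Set ℂ := {t | ((p.1, t) : ℂ × ℂ) ∈ U} with hV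
    have hVo : IsOpen V := hU.preimage (by fun_prop)
    have hpV : p.2 ∈ V := by simpa [hV] using hp
    have hlim : TendstoUniformlyOn (fun n t => f n (p.1, t)) (fun t => q (p.1, t)) atTop V := by
      intro u hu
      filter_upwards [h u hu] with n hn
      intro t ht
      exact hn (p.1, t) ht
    have hd : ∀ n, DifferentiableOn ℂ (fun t => f n (p.1, t)) V := by
      intro n t ht
      have h1 := ((hf n) (p.1, t) ht).differentiableAt (hU.mem_nhds ht)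
      exact (DifferentiableAt.comp (g := f n) (f := fun t : ℂ => ((p.1, t) : ℂ × ℂ)) t h1
        ((differentiableAt_const _).prodMk differentiableAt_id)).differentiableWithinAt
    have := hlim.tendstoLocallyUniformlyOn.differentiableOn (Eventually.of_forall hd) hVo
    exact (this p.2 hpV).differentiableAt (hVo.mem_nhds hpV)
  · intro p hp
    have hc := (hcont p hp).continuousAt (hU.mem_nhds hp)
    obtain ⟨r, hr, hr'⟩ := Metric.continuousAt_iff.mp hc 1 one_pos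
    refine ⟨r, hr, ‖q p‖ + 1, fun p' hp' => ?_⟩
    have h1 := hr' (Metric.mem_ball.mp hp')
    rw [dist_eq_norm] at h1
    have h2 := norm_add_le (q p) (q p' - q p)
    have h3 : q p + (q p' - q p) = q p' := by ring
    rw [h3] at h2
    linarith

/-- A locally uniform limit of holomorphic maps `ℂ² → ℂ²` on an open set is holomorphic. -/
theorem lim_diff (U : Set (ℂ × ℂ)) (hU : IsOpen U) (Φ : ℕ → ℂ × ℂ → ℂ × ℂ)
    (Θ : ℂ × ℂ → ℂ × ℂ) (hΦ : ∀ n, DifferentiableOn ℂ (Φ n) U)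
    (h : TendstoUniformlyOn Φ Θ atTop U) : DifferentiableOn ℂ Θ U := by
  have h1 : DifferentiableOn ℂ (fun z => (Θ z).1) U := by
    refine lim_diff_scalar U hU (fun n z => (Φ n z).1) _ (fun n => (hΦ n).fst) ?_
    rw [Metric.tendstoUniformlyOn_iff] at h ⊢
    intro ε hε
    filter_upwards [h ε hε] with n hn
    intro z hz
    have := hn z hz
    rw [Prod.dist_eq] at this
    exact lt_of_le_of_lt (le_max_left _ _) this
  have h2 : DifferentiableOn ℂ (fun z => (Θ z).2) U := by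
    refine lim_diff_scalar U hU (fun n z => (Φ n z).2) _ (fun n => (hΦ n).snd) ?_
    rw [Metric.tendstoUniformlyOn_iff] at h ⊢
    intro ε hε
    filter_upwards [h ε hε] with n hn
    intro z hz
    have := hn z hz
    rw [Prod.dist_eq] at this
    exact lt_of_le_of_lt (le_max_right _ _) this
  exact h1.prodMk h2

end Pool.Agent.Lib.MP_b771e3_an
end
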