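import Mathlib
import Pool.Agent.Lib.MP_b771e3_an.Mg.G001
import Pool.Agent.Lib.MP_b771e3_an.Mg.G002

section

set_option autoImplicit false

open Filter Topology

namespace Pool.Agent.Lib.MP_b771e3_an

variable {P : PD} {D : Dyn P} (C : Conj D)

/-- The shift `x - p x² - q x y`. -/
theorem shift_bound {B : ℝ} (hB : 1 ≤ B) (p q x y : ℂ) (m : ℝ) (hx : ‖x‖ ≤ m) (hy : ‖y‖ ≤ m)
    (hm : m ≤ 1) (hp : ‖p‖ ≤ B) (hq : ‖q‖ ≤ B) : ‖x - p * x ^ 2 - q * x * y‖ ≤ 3 * B * m := by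
  have hB0 : 0 ≤ B := by linarith
  have hm0 : 0 ≤ m := (norm_nonneg _).trans hx
  have h1 : ‖p * x ^ 2‖ ≤ B * m := by
    rw [norm_mul, norm_pow]
    refine mul_le_mul hp ?_ (by positivity) hB0
    calc ‖x‖ ^ 2 ≤ m ^ 2 := pow_le_pow_left₀ (norm_nonneg _) hx 2
      _ ≤ m ^ 1 := pow_le_pow_of_le_one hm0 hm (by norm_num)
      _ = m := pow_one m
  have h2 : ‖q * x * y‖ ≤ B * m := by
    rw [mul_assoc, norm_mul, norm_mul]
    refine mul_le_mul hq ?_ (by positivity) hB0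
    calc ‖x‖ * ‖y‖ ≤ m * 1 := mul_le_mul hx (hy.trans hm) (norm_nonneg _) hm0
      _ = m := mul_one m
  have h3 := norm_sub_le (x - p * x ^ 2) (q * x * y)
  have h4 := norm_sub_le x (p * x ^ 2)
  nlinarith

/-- `‖e u² + g u³‖ ≤ A ‖u‖²`. -/
theorem tail_bound {A : ℝ} (hA : 0 ≤ A) (w e g u : ℂ) (hu : ‖u‖ ≤ 1) (he : ‖e‖ ≤ A)
    (hg : ‖g‖ ≤ 4 * A) : ‖(w + e * u ^ 2 + g * u ^ 3) - w‖ ≤ 5 * A * ‖u‖ ^ 2 := by
  have h0 : (w + e * u ^ 2 + g * u ^ 3) - w = e * u ^ 2 + g * u ^ 3 := by ring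
  rw [h0]
  have h1 : ‖e * u ^ 2‖ ≤ A * ‖u‖ ^ 2 := by
    rw [norm_mul, norm_pow]
    exact mul_le_mul_of_nonneg_right he (by positivity)
  have h2 : ‖g * u ^ 3‖ ≤ 4 * A * ‖u‖ ^ 2 := by
    rw [norm_mul, norm_pow]
    exact mul_le_mul hg (pow_le_pow_of_le_one (norm_nonneg _) hu (by norm_num)) (by positivity)
      (by positivity)
  have h3 := norm_add_le (e * u ^ 2) (g * u ^ 3)
  nlinarith

/-- `ht_{n+1} ∘ g_n ≈ f_n ∘ ht_n`. -/
theorem err_GF : ∀ K : ℝ, ∃ A : ℝ, ∃ n₀ : ℕ, 0 ≤ A ∧ ∀ n, n₀ ≤ n → ∀ z, P.N n z ≤ K →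
    P.N (n + 1) (C.Ht (n + 1) (C.G n z) - D.f n (C.Ht n z)) ≤
      A * (Real.exp (-P.c n) * Real.exp (-P.τ * P.M n)) := by
  classical
  intro K
  have hA1 := D.hA
  have hB1 := C.hB
  have hA0 : 0 ≤ D.A := by linarith
  have hB0' : 0 ≤ C.B := by linarith
  have hAB : D.A * 1 ≤ D.A * C.B := mul_le_mul_of_nonneg_left hB1 hA0
  have hBA : 1 * C.B ≤ D.A * C.B := mul_le_mul_of_nonneg_right hA1 hB0'
  have hAA1 : 1 ≤ 6 * (D.A * C.B) := by linarith
  obtain ⟨B0, hB0, hE⟩ := errB (6 * (D.A * C.B)) hAA1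
  have hr3 : 0 < D.r / (3 * C.B) := div_pos D.hr (by linarith)
  obtain ⟨n₀, hn₀⟩ := eventually_small (P := P) K (D.r / (3 * C.B)) hr3
  set K1 : ℝ := max K 1 with hK1
  have hK11 : 1 ≤ K1 := le_max_right _ _
  refine ⟨Real.exp P.b * B0 * (2 * (6 * (D.A * C.B)) + 2) * K1 ^ 4, n₀, by positivity, ?_⟩
  intro n hn z hz
  have hzr' := hn₀ n hn z hz
  have hzr3 : 3 * C.B * ‖z‖ ≤ D.r := by
    rw [le_div_iff₀ (by linarith)] at hzr'
    linarith
  have hz1 : ‖z‖ ≤ 1 := by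
    have : 1 * ‖z‖ ≤ 3 * C.B * ‖z‖ := mul_le_mul_of_nonneg_right (by linarith) (norm_nonneg _)
    linarith [D.hr1]
  have hzK : P.N n z ≤ K1 := hz.trans (le_max_left _ _)
  obtain ⟨c1, c2, c3⟩ := conv1 P K1 hK11 n z hzK
  obtain ⟨d1, d2, d3⟩ := conv2 P K1 hK11 n z hzK
  set ε : ℝ := Real.exp (-P.c n) * Real.exp (-P.τ * P.M n) with hε
  have hε0 : 0 < ε := by positivity
  have hx : ‖z.1‖ ≤ ‖z‖ := norm_fst_le z
  have hy : ‖z.2‖ ≤ ‖z‖ := norm_snd_le z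
  have hX : ‖(C.Ht n z).1‖ ≤ 3 * C.B * ‖z‖ :=
    shift_bound hB1 _ _ _ _ _ hx hy hz1 (C.hp1 n) (C.hp2 n)
  have hY : ‖(C.Ht n z).2‖ ≤ 3 * C.B * ‖z‖ := by
    have := shift_bound hB1 (C.q2 n) (C.q1 n) z.2 z.1 ‖z‖ hy hx hz1 (C.hq2 n) (C.hq1 n)
    refine le_trans (le_of_eq ?_) this
    congr 1
    unfold Conj.Ht
    dsimp only
    ring
  have hZr : ‖C.Ht n z‖ ≤ D.r := by
    rw [Prod.norm_def]
    exact max_le (hX.trans hzr3) (hY.trans hzr3)
  have e1 := D.exp1 n (C.Ht n z) hZr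
  have e2 := D.exp2 n (C.Ht n z) hZr
  have hA6 : D.A ≤ 6 * (D.A * C.B) := by linarith
  have hB6 : C.B ≤ 6 * (D.A * C.B) := by linarith
  have hl := lam_le_one D n
  have hu := mu_le_one D n
  have hm0 : 0 ≤ ‖(C.Ht n z).1‖ * ‖C.Ht n z‖ ^ 2 + ‖C.Ht n z‖ ^ 4 := by positivity
  have hm0' : 0 ≤ ‖(C.Ht n z).2‖ * ‖C.Ht n z‖ ^ 2 + ‖C.Ht n z‖ ^ 4 := by positivity
  have hgam1 : ‖C.gam1 n‖ ≤ 4 * D.A * C.B :=
    cub_bound hA1 hB1 _ _ _ _ _ _ (D.hg1 n) (C.hp2 (n + 1)) (D.hs1 n) hu (D.hs1 n) (C.hq2 n)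
  have hgam2 : ‖C.gam2 n‖ ≤ 4 * D.A * C.B :=
    cub_bound hA1 hB1 _ _ _ _ _ _ (D.hg2 n) (C.hq1 (n + 1)) (D.hs2 n) hl (D.hs2 n) (C.hp1 n)
  have hi2 : ‖(if P.I2 n then D.s1 n else 0)‖ ≤ D.A := by
    split_ifs
    · exact D.hs1 n
    · rw [norm_zero]; exact hA0
  have hj2 : ‖(if P.J2 n then D.s2 n else 0)‖ ≤ D.A := by
    split_ifs
    · exact D.hs2 n
    · rw [norm_zero]; exact hA0
  have hi3 : ‖(if P.I3 n then C.gam1 n else 0)‖ ≤ 4 * (D.A * C.B) := by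
    split_ifs
    · linarith
    · rw [norm_zero]; positivity
  have hj3 : ‖(if P.J3 n then C.gam2 n else 0)‖ ≤ 4 * (D.A * C.B) := by
    split_ifs
    · linarith
    · rw [norm_zero]; positivity
  refine max_le ?_ ?_
  · -- first component
    have hG2 : ‖(C.G n z).2 - D.mu n * z.2‖ ≤ 6 * (D.A * C.B) * ‖z.1‖ ^ 2 := by
      refine (tail_bound (A := D.A * C.B) (by positivity) (D.mu n * z.2) _ _ z.1
        (hx.trans hz1) (hj2.trans (by linarith)) hj3).trans ?_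
      refine mul_le_mul_of_nonneg_right (by linarith) (by positivity)
    have key := hE (D.lam n) (D.mu n) (D.a1 n) (D.b1 n) (D.s1 n) (D.g1 n) (C.p1 (n + 1))
      (C.p2 (n + 1)) (C.p1 n) (C.p2 n) (C.q1 n) (C.q2 n) (if P.I2 n then D.s1 n else 0)
      (if P.I3 n then C.gam1 n else 0) z.1 z.2 (C.Ht n z).1 (C.Ht n z).2
      (D.f n (C.Ht n z)).1 (C.G n z).1 (C.G n z).2 ‖z‖ ‖C.Ht n z‖ hl hu
      ((D.ha1 n).trans hA6) ((D.hb1 n).trans hA6) ((D.hs1 n).trans hA6) ((D.hg1 n).trans hA6)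
      ((C.hp1 _).trans hB6) ((C.hp2 _).trans hB6) ((C.hp1 _).trans hB6) ((C.hp2 _).trans hB6)
      ((C.hq1 _).trans hB6) ((C.hq2 _).trans hB6) (hi2.trans hA6)
      (hi3.trans (by linarith))
      (C.ep1 n) (C.ep2 n) (Prod.norm_def z) hz1 rfl rfl (Prod.norm_def _)
      (e1.trans (mul_le_mul_of_nonneg_right hA6 hm0)) rfl hG2
    have hfin := fg_key (E := Real.exp (P.ξ n)) (Real.exp_pos _).le (Real.exp_pos P.b).le
      (norm_nonneg _) hB0 (exp_xi_succ (P := P) n)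
      (by rw [add_assoc _ _ (‖z‖ ^ 4)] at key; exact key)
      (AA := 6 * (D.A * C.B)) (K4 := K1 ^ 4) (ε := ε) ?_ ?_ c3
    · exact hfin
    · by_cases h : P.I2 n
      · rw [if_pos h, sub_self, norm_zero, zero_mul]; positivity
      · rw [if_neg h, sub_zero]
        exact mul_le_mul ((D.hs1 n).trans hA6) (c1 h) (by positivity) (by positivity)
    · by_cases h : P.I3 n
      · rw [if_pos h, if_pos h.1]
        have : D.g1 n + C.p2 (n + 1) * D.s1 n * D.mu n - 2 * D.s1 n * C.q2 n - C.gam1 n = 0 := by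
          unfold Conj.gam1; ring
        rw [this, norm_zero, zero_mul]; positivity
      · rw [if_neg h, sub_zero]
        refine mul_le_mul ?_ (c2 h) (by positivity) (by positivity)
        exact (cub_bound hA1 hB1 _ _ _ _ _ _ (D.hg1 n) (C.hp2 (n + 1)) hi2 hu (D.hs1 n)
          (C.hq2 n)).trans (by linarith)
  · -- second component
    have hG1 : ‖(C.G n z).1 - D.lam n * z.1‖ ≤ 6 * (D.A * C.B) * ‖z.2‖ ^ 2 := by
      refine (tail_bound (A := D.A * C.B) (by positivity) (D.lam n * z.1) _ _ z.2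
        (hy.trans hz1) (hi2.trans (by linarith)) hi3).trans ?_
      refine mul_le_mul_of_nonneg_right (by linarith) (by positivity)
    have key := hE (D.mu n) (D.lam n) (D.a2 n) (D.b2 n) (D.s2 n) (D.g2 n) (C.q2 (n + 1))
      (C.q1 (n + 1)) (C.q2 n) (C.q1 n) (C.p2 n) (C.p1 n) (if P.J2 n then D.s2 n else 0)
      (if P.J3 n then C.gam2 n else 0) z.2 z.1 (C.Ht n z).2 (C.Ht n z).1
      (D.f n (C.Ht n z)).2 (C.G n z).2 (C.G n z).1 ‖z‖ ‖C.Ht n z‖ hu hl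
      ((D.ha2 n).trans hA6) ((D.hb2 n).trans hA6) ((D.hs2 n).trans hA6) ((D.hg2 n).trans hA6)
      ((C.hq2 _).trans hB6) ((C.hq1 _).trans hB6) ((C.hq2 _).trans hB6) ((C.hq1 _).trans hB6)
      ((C.hp2 _).trans hB6) ((C.hp1 _).trans hB6) (hj2.trans hA6)
      (hj3.trans (by linarith))
      (C.eq2 n) (by rw [← C.eq1 n]; ring) (by rw [max_comm]; exact Prod.norm_def z) hz1
      (by
        show z.2 - C.q1 n * z.1 * z.2 - C.q2 n * z.2 ^ 2 = _
        ring)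
      (by
        show z.1 - C.p1 n * z.1 ^ 2 - C.p2 n * z.1 * z.2 = _
        ring)
      (by rw [max_comm]; exact Prod.norm_def _)
      (by
        rw [show D.mu n * (C.Ht n z).2 + D.a2 n * (C.Ht n z).2 ^ 2 +
          D.b2 n * (C.Ht n z).2 * (C.Ht n z).1 + D.s2 n * (C.Ht n z).1 ^ 2 +
          D.g2 n * (C.Ht n z).1 ^ 3 = D.mu n * (C.Ht n z).2 + D.a2 n * (C.Ht n z).2 ^ 2 +
          D.b2 n * (C.Ht n z).1 * (C.Ht n z).2 + D.s2 n * (C.Ht n z).1 ^ 2 +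
          D.g2 n * (C.Ht n z).1 ^ 3 by ring]
        exact e2.trans (mul_le_mul_of_nonneg_right hA6 hm0')) rfl hG1
    have hfin := fg_key (E := Real.exp (P.η n)) (Real.exp_pos _).le (Real.exp_pos P.b).le
      (norm_nonneg _) hB0 (exp_eta_succ (P := P) n)
      (by rw [add_assoc _ _ (‖z‖ ^ 4)] at key; exact key)
      (AA := 6 * (D.A * C.B)) (K4 := K1 ^ 4) (ε := ε) ?_ ?_ d3
    · refine le_trans (le_of_eq ?_) hfin
      congr 2
      show (C.G n z).2 - C.q1 (n + 1) * (C.G n z).1 * (C.G n z).2 -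
        C.q2 (n + 1) * (C.G n z).2 ^ 2 - _ = _
      ring
    · by_cases h : P.J2 n
      · rw [if_pos h, sub_self, norm_zero, zero_mul]; positivity
      · rw [if_neg h, sub_zero]
        exact mul_le_mul ((D.hs2 n).trans hA6) (d1 h) (by positivity) (by positivity)
    · by_cases h : P.J3 n
      · rw [if_pos h, if_pos h.1]
        have : D.g2 n + C.q1 (n + 1) * D.s2 n * D.lam n - 2 * D.s2 n * C.p1 n - C.gam2 n = 0 := by
          unfold Conj.gam2; ring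
        rw [this, norm_zero, zero_mul]; positivity
      · rw [if_neg h, sub_zero]
        refine mul_le_mul ?_ (d2 h) (by positivity) (by positivity)
        exact (cub_bound hA1 hB1 _ _ _ _ _ _ (D.hg2 n) (C.hq1 (n + 1)) hj2 hl (D.hs2 n)
          (C.hp1 n)).trans (by linarith)

end Pool.Agent.Lib.MP_b771e3_an
end

section

set_option autoImplicit false

open Filter Topology

namespace Pool.Agent.Lib.MP_b771e3_an

variable {P : PD} {D : Dyn P} (C : Conj D)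

private lemma lipG_lam_ne (D : Dyn P) (n : ℕ) : D.lam n ≠ 0 := by
  intro h
  have := D.hlam n
  rw [h, norm_zero] at this
  exact absurd this.symm (Real.exp_pos _).ne'

private lemma lipG_mu_ne (D : Dyn P) (n : ℕ) : D.mu n ≠ 0 := by
  intro h
  have := D.hmu n
  rw [h, norm_zero] at this
  exact absurd this.symm (Real.exp_pos _).ne'

private lemma lipG_not (n : ℕ) (h : P.I2 n) : ¬ P.J2 n ∧ ¬ P.J3 n := by
  have h1 : ¬ P.J2 n := fun h' => P.not_both n ⟨h, h'⟩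
  exact ⟨h1, fun h' => h1 h'.1⟩

private lemma lipG_not3 (n : ℕ) (h : ¬ P.I2 n) : ¬ P.I3 n := fun h' => h h'.1

theorem G_left (n : ℕ) (z : ℂ × ℂ) : C.Gi n (C.G n z) = z := by
  have hl := lipG_lam_ne D n
  have hm := lipG_mu_ne D n
  unfold Conj.Gi Conj.G
  by_cases h : P.I2 n
  · obtain ⟨h1, h2⟩ := lipG_not n h
    simp only [h, h1, h2, if_true, if_false]
    ext
    · simp only [zero_mul, add_zero]
      rw [mul_div_cancel_left₀ _ hm]
      rw [div_eq_iff hl]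
      ring
    · simp only [zero_mul, add_zero]
      rw [mul_div_cancel_left₀ _ hm]
  · have h3 := lipG_not3 n h
    simp only [h, h3, if_false]
    ext
    · simp only [zero_mul, add_zero]
      rw [mul_div_cancel_left₀ _ hl]
    · simp only [zero_mul, add_zero]
      rw [mul_div_cancel_left₀ _ hl]
      rw [div_eq_iff hm]
      ring

theorem G_right (n : ℕ) (z : ℂ × ℂ) : C.G n (C.Gi n z) = z := by
  have hl := lipG_lam_ne D n
  have hm := lipG_mu_ne D n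
  unfold Conj.Gi Conj.G
  by_cases h : P.I2 n
  · obtain ⟨h1, h2⟩ := lipG_not n h
    simp only [h, h1, h2, if_true, if_false]
    ext
    · simp only
      rw [mul_div_cancel₀ _ hl]
      ring
    · simp only [zero_mul, add_zero]
      rw [mul_div_cancel₀ _ hm]
  · have h3 := lipG_not3 n h
    simp only [h, h3, if_false]
    ext
    · simp only [zero_mul, add_zero]
      rw [mul_div_cancel₀ _ hl]
    · simp only
      rw [mul_div_cancel₀ _ hm]
      ring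

theorem diff_G (n : ℕ) : Differentiable ℂ (C.G n) := by
  unfold Conj.G
  fun_prop

theorem diff_Gi (n : ℕ) : Differentiable ℂ (C.Gi n) := by
  unfold Conj.Gi
  by_cases h : P.I2 n
  · simp only [h, if_true]
    fun_prop
  · simp only [h, if_false]
    fun_prop

theorem diff_H (n : ℕ) : Differentiable ℂ (C.H n) := by
  unfold Conj.H
  fun_prop

theorem diff_Ht (n : ℕ) : Differentiable ℂ (C.Ht n) := by
  unfold Conj.Ht
  fun_prop

private lemma lipG_core (ξ η ξ' η' dX dY kx ky b m K S Γ : ℝ)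
    (lam mu s g x y x' y' d1 d2 : ℂ) (E : ℝ)
    (hlam : ‖lam‖ = Real.exp (-dX)) (hmu : ‖mu‖ = Real.exp (-dY))
    (hξ : ξ' = ξ + dX - kx) (hη : η' = η + dY - ky) (hkx : 0 ≤ kx) (hky : 0 ≤ ky)
    (hkyb : ky ≤ b) (hξb : ξ' ≤ ξ + b) (h2 : ξ ≤ 2 * η - m) (hη0 : 0 ≤ η)
    (hy : Real.exp η * ‖y‖ ≤ K) (hK : 0 ≤ K) (hs : ‖s‖ ≤ S) (hg : ‖g‖ ≤ Γ)
    (hd1 : Real.exp ξ' * ‖d1‖ ≤ E) (hd2 : Real.exp η' * ‖d2‖ ≤ E)
    (hE : E ≤ Real.exp (-b) / 4) (hE0 : 0 ≤ E)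
    (e1 : mu * (y' - y) = d2)
    (e2 : lam * (x' - x) = d1 - s * (y' ^ 2 - y ^ 2) - g * (y' ^ 3 - y ^ 3)) :
    Real.exp ξ * ‖x' - x‖ ≤ Real.exp (kx + ky) *
      (1 + Real.exp b * (S * (2 * K + 1) + Γ * (3 * (K + 1) ^ 2)) * Real.exp (-m)) * E ∧
    Real.exp η * ‖y' - y‖ ≤ Real.exp (kx + ky) *
      (1 + Real.exp b * (S * (2 * K + 1) + Γ * (3 * (K + 1) ^ 2)) * Real.exp (-m)) * E := by
  have hS : 0 ≤ S := (norm_nonneg _).trans hs
  have hΓ : 0 ≤ Γ := (norm_nonneg _).trans hg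
  have hL0 : 0 ≤ Real.exp b * (S * (2 * K + 1) + Γ * (3 * (K + 1) ^ 2)) * Real.exp (-m) := by
    positivity
  obtain ⟨L, hL⟩ : ∃ L, L = Real.exp b * (S * (2 * K + 1) + Γ * (3 * (K + 1) ^ 2)) *
    Real.exp (-m) := ⟨_, rfl⟩
  -- the second coordinate
  have hyd : Real.exp η * ‖y' - y‖ ≤ Real.exp ky * E := by
    have h1 : Real.exp (-dY) * ‖y' - y‖ = ‖d2‖ := by rw [← e1, norm_mul, hmu]
    have h3 : Real.exp η * ‖y' - y‖ = Real.exp ky * (Real.exp η' * ‖d2‖) := by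
      rw [← h1, hη]
      rw [← mul_assoc, ← mul_assoc, ← Real.exp_add, ← Real.exp_add]
      congr 2
      ring
    rw [h3]
    exact mul_le_mul_of_nonneg_left hd2 (Real.exp_pos _).le
  have hex : Real.exp ky ≤ Real.exp (kx + ky) := Real.exp_le_exp.2 (by linarith)
  refine ⟨?_, ?_⟩
  swap
  · rw [← hL]
    rw [← hL] at hL0
    refine hyd.trans ?_
    refine mul_le_mul_of_nonneg_right ?_ hE0
    refine hex.trans ?_
    exact le_mul_of_one_le_right (Real.exp_pos _).le (by linarith)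
  -- sizes of y and y'
  obtain ⟨q, hq⟩ : ∃ q, q = Real.exp (-η) := ⟨_, rfl⟩
  have hq0 : 0 < q := by rw [hq]; exact Real.exp_pos _
  have hqη : q * Real.exp η = 1 := by rw [hq, ← Real.exp_add]; simp
  have hq1 : q ≤ 1 := by rw [hq]; exact Real.exp_le_one_iff.2 (by linarith)
  have hyd' : ‖y' - y‖ ≤ q * (Real.exp ky * E) := by
    calc ‖y' - y‖ = q * (Real.exp η * ‖y' - y‖) := by rw [← mul_assoc, hqη, one_mul]
      _ ≤ _ := mul_le_mul_of_nonneg_left hyd hq0.le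
  have hkE : Real.exp ky * E ≤ 1 / 4 := by
    have h1 : Real.exp ky * E ≤ Real.exp b * (Real.exp (-b) / 4) :=
      mul_le_mul (Real.exp_le_exp.2 hkyb) hE hE0 (Real.exp_pos _).le
    have h3 : Real.exp b * (Real.exp (-b) / 4) = 1 / 4 := by
      rw [← mul_div_assoc, ← Real.exp_add]; simp
    linarith
  have hkE0 : 0 ≤ Real.exp ky * E := by positivity
  have hy' : ‖y‖ ≤ q * K := by
    calc ‖y‖ = q * (Real.exp η * ‖y‖) := by rw [← mul_assoc, hqη, one_mul]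
      _ ≤ _ := mul_le_mul_of_nonneg_left hy hq0.le
  have hyd'' : ‖y' - y‖ ≤ q * (1 / 4) := hyd'.trans (mul_le_mul_of_nonneg_left hkE hq0.le)
  have hyn : ‖y'‖ ≤ q * (K + 1) := by
    have h1 : ‖y'‖ ≤ ‖y' - y‖ + ‖y‖ := by
      have := norm_add_le (y' - y) y
      rwa [sub_add_cancel] at this
    have h3 : q * (K + 1) = q * K + q := by ring
    have h4 : q * (1 / 4) ≤ q := by linarith
    linarith
  have hyK : ‖y‖ ≤ q * (K + 1) := hy'.trans (mul_le_mul_of_nonneg_left (by linarith) hq0.le)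
  have hqK : 0 ≤ q * (K + 1) := by positivity
  have b2 : ‖y' ^ 2 - y ^ 2‖ ≤ q * (Real.exp ky * E) * (q * (2 * K + 1)) := by
    have h1 : y' ^ 2 - y ^ 2 = (y' - y) * (y' + y) := by ring
    rw [h1, norm_mul]
    refine mul_le_mul hyd' ?_ (norm_nonneg _) (by positivity)
    have h3 : y' + y = (y' - y) + 2 * y := by ring
    have h4 : ‖y' + y‖ ≤ ‖y' - y‖ + 2 * ‖y‖ := by
      rw [h3]
      refine (norm_add_le _ _).trans ?_
      rw [norm_mul]
      simp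
    have h5 : q * (2 * K + 1) = 2 * (q * K) + q := by ring
    rw [h5]
    linarith
  have b3 : ‖y' ^ 3 - y ^ 3‖ ≤ q * (Real.exp ky * E) * (3 * (q * (K + 1)) ^ 2) := by
    have h1 : y' ^ 3 - y ^ 3 = (y' - y) * (y' ^ 2 + y' * y + y ^ 2) := by ring
    rw [h1, norm_mul]
    refine mul_le_mul hyd' ?_ (norm_nonneg _) (by positivity)
    have h3 : ‖y' ^ 2‖ ≤ (q * (K + 1)) ^ 2 := by
      rw [norm_pow]; exact pow_le_pow_left₀ (norm_nonneg _) hyn 2
    have h4 : ‖y ^ 2‖ ≤ (q * (K + 1)) ^ 2 := by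
      rw [norm_pow]; exact pow_le_pow_left₀ (norm_nonneg _) hyK 2
    have h5 : ‖y' * y‖ ≤ (q * (K + 1)) ^ 2 := by
      rw [norm_mul, pow_two]; exact mul_le_mul hyn hyK (norm_nonneg _) hqK
    have h6 := norm_add_le (y' ^ 2 + y' * y) (y ^ 2)
    have h7 := norm_add_le (y' ^ 2) (y' * y)
    linarith
  -- the first coordinate
  have hx1 : Real.exp (-dX) * ‖x' - x‖ ≤ ‖d1‖ + S * (q * (Real.exp ky * E) * (q * (2 * K + 1))) +
      Γ * (q * (Real.exp ky * E) * (3 * (q * (K + 1)) ^ 2)) := by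
    rw [← hlam, ← norm_mul, e2]
    refine (norm_sub_le _ _).trans ?_
    refine add_le_add ((norm_sub_le _ _).trans ?_) ?_
    · refine add_le_add le_rfl ?_
      rw [norm_mul]
      exact mul_le_mul hs b2 (norm_nonneg _) hS
    · rw [norm_mul]
      exact mul_le_mul hg b3 (norm_nonneg _) hΓ
  have hx2 : Real.exp ξ * ‖x' - x‖ = Real.exp kx * (Real.exp ξ' * (Real.exp (-dX) * ‖x' - x‖)) := by
    rw [hξ, ← mul_assoc, ← mul_assoc, ← Real.exp_add, ← Real.exp_add]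
    congr 2
    ring
  rw [hx2]
  have hcoef : Real.exp ξ' * (q * q) ≤ Real.exp b * Real.exp (-m) := by
    rw [hq, ← Real.exp_add, ← Real.exp_add, ← Real.exp_add]
    apply Real.exp_le_exp.2
    linarith
  have hx3 : Real.exp ξ' * (Real.exp (-dX) * ‖x' - x‖) ≤
      Real.exp ky * ((1 + L) * E) := by
    have h1 : Real.exp ξ' * (Real.exp (-dX) * ‖x' - x‖) ≤ Real.exp ξ' * (‖d1‖ +
      S * (q * (Real.exp ky * E) * (q * (2 * K + 1))) +
      Γ * (q * (Real.exp ky * E) * (3 * (q * (K + 1)) ^ 2))) :=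
      mul_le_mul_of_nonneg_left hx1 (Real.exp_pos _).le
    refine h1.trans ?_
    have h3 : Real.exp ξ' * (‖d1‖ +
      S * (q * (Real.exp ky * E) * (q * (2 * K + 1))) +
      Γ * (q * (Real.exp ky * E) * (3 * (q * (K + 1)) ^ 2))) =
      Real.exp ξ' * ‖d1‖ + (Real.exp ky * E) * ((Real.exp ξ' * (q * q)) *
        (S * (2 * K + 1) + Γ * (3 * (K + 1) ^ 2) * q)) := by ring
    rw [h3]
    have h4 : S * (2 * K + 1) + Γ * (3 * (K + 1) ^ 2) * q ≤
      S * (2 * K + 1) + Γ * (3 * (K + 1) ^ 2) := by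
      have : Γ * (3 * (K + 1) ^ 2) * q ≤ Γ * (3 * (K + 1) ^ 2) :=
        mul_le_of_le_one_right (by positivity) hq1
      linarith
    have h5 : (Real.exp ξ' * (q * q)) * (S * (2 * K + 1) + Γ * (3 * (K + 1) ^ 2) * q) ≤
      (Real.exp b * Real.exp (-m)) * (S * (2 * K + 1) + Γ * (3 * (K + 1) ^ 2)) :=
      mul_le_mul hcoef h4 (by positivity) (by positivity)
    have h6 : (Real.exp b * Real.exp (-m)) * (S * (2 * K + 1) + Γ * (3 * (K + 1) ^ 2)) = L := by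
      rw [hL]; ring
    rw [h6] at h5
    have h7 := mul_le_mul_of_nonneg_left h5 hkE0
    have h8 : E ≤ Real.exp ky * E := le_mul_of_one_le_left hE0 (Real.one_le_exp hky)
    have h9 : Real.exp ky * ((1 + L) * E) = Real.exp ky * E + Real.exp ky * E * L := by ring
    rw [h9]
    linarith
  calc Real.exp kx * (Real.exp ξ' * (Real.exp (-dX) * ‖x' - x‖))
      ≤ Real.exp kx * (Real.exp ky * ((1 + L) * E)) :=
        mul_le_mul_of_nonneg_left hx3 (Real.exp_pos _).le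
    _ = _ := by rw [← hL, Real.exp_add]; ring

private lemma lipG_gam (A B : ℝ) (hA : 1 ≤ A) (hB : 1 ≤ B) (g p s u q : ℂ) (hg : ‖g‖ ≤ A)
    (hp : ‖p‖ ≤ B) (hs : ‖s‖ ≤ A) (hu : ‖u‖ ≤ 1) (hq : ‖q‖ ≤ B) :
    ‖g + p * s * u - 2 * s * q‖ ≤ A + 3 * A * B := by
  have h1 : ‖p * s * u‖ ≤ B * A * 1 := by
    rw [norm_mul, norm_mul]
    exact mul_le_mul (mul_le_mul hp hs (norm_nonneg _) (by linarith)) hu (norm_nonneg _)
      (by positivity)
  have h2 : ‖2 * s * q‖ ≤ 2 * A * B := by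
    rw [norm_mul, norm_mul]
    refine mul_le_mul ?_ hq (norm_nonneg _) (by positivity)
    have : ‖(2 : ℂ)‖ = 2 := by simp
    rw [this]
    linarith
  have h3 := norm_sub_le (g + p * s * u) (2 * s * q)
  have h4 := norm_add_le g (p * s * u)
  linarith [mul_comm A B]

/-- Lipschitz bound for the inverse of the model map. -/
theorem lip_G : ∀ K : ℝ, ∃ A : ℝ, ∃ n₀ : ℕ, 0 ≤ A ∧ ∀ n, n₀ ≤ n → ∀ w v, P.N n w ≤ K →
    P.N (n + 1) (v - C.G n w) ≤ Real.exp (-P.b) / 4 →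
    P.N n (C.Gi n v - w) ≤
      Real.exp (P.kx n + P.ky n) * (1 + A * Real.exp (-P.τ * P.M n)) *
        P.N (n + 1) (v - C.G n w) := by
  classical
  intro K
  obtain ⟨Γ, hΓ⟩ : ∃ Γ, Γ = D.A + 3 * D.A * C.B := ⟨_, rfl⟩
  have hA := D.hA
  have hB := C.hB
  have hΓ0 : 0 ≤ Γ := by rw [hΓ]; positivity
  have hA0 : 0 ≤ D.A := by linarith
  refine ⟨Real.exp P.b * (D.A * (2 * |K| + 1) + Γ * (3 * (|K| + 1) ^ 2)), 0, by positivity, ?_⟩
  intro n _ w v hw hv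
  have hlam := D.hlam n
  have hmu := D.hmu n
  have hX := P.hX n
  have hY := P.hY n
  have ha := P.ha
  have hlam1 : ‖D.lam n‖ ≤ 1 := by
    rw [hlam]; exact Real.exp_le_one_iff.2 (by linarith [hX.1])
  have hmu1 : ‖D.mu n‖ ≤ 1 := by
    rw [hmu]; exact Real.exp_le_one_iff.2 (by linarith [hY.1])
  have hg1 : ‖C.gam1 n‖ ≤ Γ := by
    rw [hΓ]
    exact lipG_gam D.A C.B hA hB _ _ _ _ _ (D.hg1 n) (C.hp2 _) (D.hs1 n) hmu1 (C.hq2 n)
  have hg2 : ‖C.gam2 n‖ ≤ Γ := by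
    rw [hΓ]
    exact lipG_gam D.A C.B hA hB _ _ _ _ _ (D.hg2 n) (C.hq1 _) (D.hs2 n) hlam1 (C.hp1 n)
  have hMξ : P.M n ≤ P.ξ n := min_le_left _ _
  have hMη : P.M n ≤ P.η n := min_le_right _ _
  have hM0 := P.M_pos n
  have hτ := P.hτ
  have hw1 : Real.exp (P.ξ n) * ‖w.1‖ ≤ |K| := (le_max_left _ _).trans (hw.trans (le_abs_self K))
  have hw2 : Real.exp (P.η n) * ‖w.2‖ ≤ |K| := (le_max_right _ _).trans (hw.trans (le_abs_self K))
  have hd1 : Real.exp (P.ξ (n + 1)) * ‖(v - C.G n w).1‖ ≤ P.N (n + 1) (v - C.G n w) :=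
    le_max_left _ _
  have hd2 : Real.exp (P.η (n + 1)) * ‖(v - C.G n w).2‖ ≤ P.N (n + 1) (v - C.G n w) :=
    le_max_right _ _
  have hE0 : 0 ≤ P.N (n + 1) (v - C.G n w) := N_nonneg _ _
  obtain ⟨u, hu⟩ : ∃ u, u = C.Gi n v := ⟨_, rfl⟩
  have hGu : C.G n u = v := by rw [hu]; exact G_right C n v
  rw [← hu]
  have hτM : -P.τ * P.M n = -(P.τ * P.M n) := by ring
  rw [hτM]
  by_cases h : P.I2 n
  · obtain ⟨h1, h2⟩ := lipG_not n h
    have hu1 : v.1 = D.lam n * u.1 + D.s1 n * u.2 ^ 2 +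
        (if P.I3 n then C.gam1 n else 0) * u.2 ^ 3 := by
      rw [← hGu]; simp [Conj.G, h]
    have hu2 : v.2 = D.mu n * u.2 := by rw [← hGu]; simp [Conj.G, h1, h2]
    have hG1 : (C.G n w).1 = D.lam n * w.1 + D.s1 n * w.2 ^ 2 +
        (if P.I3 n then C.gam1 n else 0) * w.2 ^ 3 := by simp [Conj.G, h]
    have hG2 : (C.G n w).2 = D.mu n * w.2 := by simp [Conj.G, h1, h2]
    have hgg : ‖(if P.I3 n then C.gam1 n else 0)‖ ≤ Γ := by
      split_ifs
      · exact hg1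
      · simpa using hΓ0
    have hc := P.cone1 n
    have key := lipG_core (P.ξ n) (P.η n) (P.ξ (n + 1)) (P.η (n + 1)) (P.dX n) (P.dY n)
      (P.kx n) (P.ky n) P.b (P.τ * P.M n) |K| D.A Γ (D.lam n) (D.mu n) (D.s1 n)
      (if P.I3 n then C.gam1 n else 0) w.1 w.2 u.1 u.2 (v - C.G n w).1 (v - C.G n w).2
      (P.N (n + 1) (v - C.G n w)) hlam hmu (P.ξs n) (P.ηs n) (P.kx0 n) (P.ky0 n) (P.kyb n)
      (by linarith [P.ξs n, P.kx0 n, hX.2])
      (by nlinarith) (by linarith) hw2 (abs_nonneg K) (D.hs1 n) hgg hd1 hd2 hv hE0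
      (by rw [Prod.snd_sub, hu2, hG2]; ring)
      (by rw [Prod.fst_sub, hu1, hG1]; ring)
    exact max_le key.1 key.2
  · have h3 := lipG_not3 n h
    have hu1 : v.1 = D.lam n * u.1 := by rw [← hGu]; simp [Conj.G, h, h3]
    have hu2 : v.2 = D.mu n * u.2 + (if P.J2 n then D.s2 n else 0) * u.1 ^ 2 +
        (if P.J3 n then C.gam2 n else 0) * u.1 ^ 3 := by rw [← hGu]; simp [Conj.G]
    have hG1 : (C.G n w).1 = D.lam n * w.1 := by simp [Conj.G, h, h3]
    have hG2 : (C.G n w).2 = D.mu n * w.2 + (if P.J2 n then D.s2 n else 0) * w.1 ^ 2 +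
        (if P.J3 n then C.gam2 n else 0) * w.1 ^ 3 := by simp [Conj.G]
    have hgg : ‖(if P.J3 n then C.gam2 n else 0)‖ ≤ Γ := by
      split_ifs
      · exact hg2
      · simpa using hΓ0
    have hss : ‖(if P.J2 n then D.s2 n else 0)‖ ≤ D.A := by
      split_ifs
      · exact D.hs2 n
      · simpa using hA0
    have hc := P.cone2 n
    have key := lipG_core (P.η n) (P.ξ n) (P.η (n + 1)) (P.ξ (n + 1)) (P.dY n) (P.dX n)
      (P.ky n) (P.kx n) P.b (P.τ * P.M n) |K| D.A Γ (D.mu n) (D.lam n)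
      (if P.J2 n then D.s2 n else 0)
      (if P.J3 n then C.gam2 n else 0) w.2 w.1 u.2 u.1 (v - C.G n w).2 (v - C.G n w).1
      (P.N (n + 1) (v - C.G n w)) hmu hlam (P.ηs n) (P.ξs n) (P.ky0 n) (P.kx0 n) (P.kxb n)
      (by linarith [P.ηs n, P.ky0 n, hY.2])
      (by nlinarith) (by linarith) hw1 (abs_nonneg K) hss hgg hd2 hd1 hv hE0
      (by rw [Prod.fst_sub, hu1, hG1]; ring)
      (by rw [Prod.snd_sub, hu2, hG2]; ring)
    rw [add_comm (P.ky n) (P.kx n)] at key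
    exact max_le key.2 key.1

end Pool.Agent.Lib.MP_b771e3_an
end

section

set_option autoImplicit false

open Filter Topology

namespace Pool.Agent.Lib.MP_b771e3_an

private theorem bddF_lower (P : PD) (n : ℕ) :
    1 + P.a * n ≤ P.ξ n ∧ 1 + P.a * n ≤ P.η n := by
  induction n with
  | zero => simp [P.ξ0, P.η0]
  | succ n ih =>
    have h1 := P.ξa n
    have h2 := P.ηa n
    push_cast
    constructor <;> linarith [ih.1, ih.2]

private theorem bddF_upper (P : PD) (n : ℕ) :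
    P.ξ n ≤ 1 + P.b * n ∧ P.η n ≤ 1 + P.b * n := by
  induction n with
  | zero => simp [P.ξ0, P.η0]
  | succ n ih =>
    have h1 := P.ξs n
    have h2 := P.ηs n
    have h3 := P.kx0 n
    have h4 := P.ky0 n
    have h5 := (P.hX n).2
    have h6 := (P.hY n).2
    push_cast
    constructor <;> linarith [ih.1, ih.2]

/-- one step, one component -/
private theorem bddF_step {A a τ ξ ξ' η k u R S R' : ℝ} {n : ℕ} (hA : 0 ≤ A) (ha : 0 < a)
    (hτ : 0 < τ) (hτ1 : τ ≤ 1 / 1000) (hS0 : 0 ≤ S)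
    (hR : R ≤ Real.exp (k * ξ)) (hS : S ≤ Real.exp (k * η)) (hk : k ≤ 3 / 4)
    (cone : ξ ≤ (2 - τ) * η) (hη : a * n ≤ η) (hξ' : ξ + a ≤ ξ') (hξ0 : 0 ≤ ξ)
    (hξup : ξ ≤ 1 + 4 * a * n) (hu : 0 ≤ u) (hku : k ≤ u * (1 + 1 / (8 * n))) (hn1 : 0 < n)
    (hn : 1 ≤ 2 * a * n) (hsmall : 2 * A * Real.exp (-(τ * a / 4 * n)) ≤ u * a / 4)
    (hrec : R' ≤ R * (1 + A * Real.exp (-(a * n))) + A * Real.exp (-(2 * η - ξ)) * S ^ 2) :
    R' ≤ Real.exp (u * ξ') := by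
  have hn' : (0 : ℝ) < n := by exact_mod_cast hn1
  have hη0 : 0 ≤ η := le_trans (by positivity) hη
  have hE : 0 < Real.exp (k * ξ) := Real.exp_pos _
  -- the second term
  have h1 : S ^ 2 ≤ Real.exp (2 * (k * η)) := by
    rw [two_mul, Real.exp_add, sq]
    exact mul_le_mul hS hS hS0 (Real.exp_nonneg _)
  have h2 : Real.exp (-(2 * η - ξ)) * Real.exp (2 * (k * η)) ≤
      Real.exp (k * ξ) * Real.exp (-(τ * a / 4 * n)) := by
    rw [← Real.exp_add, ← Real.exp_add]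
    refine Real.exp_le_exp.2 ?_
    have e1 : (1 - k) * ξ ≤ (1 - k) * ((2 - τ) * η) :=
      mul_le_mul_of_nonneg_left cone (by linarith)
    have e2 : 1 / 4 * (τ * (a * n)) ≤ (1 - k) * (τ * η) := by
      refine mul_le_mul (by linarith) (mul_le_mul_of_nonneg_left hη hτ.le) (by positivity)
        (by linarith)
    have e3 : (1 - k) * ((2 - τ) * η) = 2 * η - 2 * (k * η) - (1 - k) * (τ * η) := by ring
    have e4 : (1 - k) * ξ = ξ - k * ξ := by ring
    rw [e3, e4] at e1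
    have e5 : τ * a / 4 * n = 1 / 4 * (τ * (a * n)) := by ring
    rw [e5]
    linarith
  have h3 : A * Real.exp (-(2 * η - ξ)) * S ^ 2 ≤
      A * (Real.exp (k * ξ) * Real.exp (-(τ * a / 4 * n))) := by
    rw [mul_assoc]
    refine mul_le_mul_of_nonneg_left ?_ hA
    exact (mul_le_mul_of_nonneg_left h1 (Real.exp_nonneg _)).trans h2
  have h4 : Real.exp (-(a * n)) ≤ Real.exp (-(τ * a / 4 * n)) := by
    refine Real.exp_le_exp.2 ?_
    have : τ * a / 4 * n ≤ a * n := by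
      have e1 : τ * (a * n) ≤ 1 / 1000 * (a * n) :=
        mul_le_mul_of_nonneg_right hτ1 (by positivity)
      have e2 : 0 < a * n := by positivity
      have e3 : τ * a / 4 * n = 1 / 4 * (τ * (a * n)) := by ring
      rw [e3]
      linarith
    linarith
  have h5 : R * (1 + A * Real.exp (-(a * n))) ≤
      Real.exp (k * ξ) * (1 + A * Real.exp (-(τ * a / 4 * n))) := by
    refine mul_le_mul hR ?_ (by positivity) hE.le
    have := mul_le_mul_of_nonneg_left h4 hA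
    linarith
  have h6 : R' ≤ Real.exp (k * ξ) * (1 + 2 * A * Real.exp (-(τ * a / 4 * n))) := by
    have : Real.exp (k * ξ) * (1 + 2 * A * Real.exp (-(τ * a / 4 * n))) =
        Real.exp (k * ξ) * (1 + A * Real.exp (-(τ * a / 4 * n))) +
        A * (Real.exp (k * ξ) * Real.exp (-(τ * a / 4 * n))) := by ring
    rw [this]
    linarith
  refine h6.trans ?_
  have h7 : 1 + 2 * A * Real.exp (-(τ * a / 4 * n)) ≤
      Real.exp (2 * A * Real.exp (-(τ * a / 4 * n))) := by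
    have := Real.add_one_le_exp (2 * A * Real.exp (-(τ * a / 4 * n)))
    linarith
  refine (mul_le_mul_of_nonneg_left h7 hE.le).trans ?_
  rw [← Real.exp_add]
  refine Real.exp_le_exp.2 ?_
  -- exponents
  have g1 : k * ξ ≤ u * (1 + 1 / (8 * n)) * ξ := mul_le_mul_of_nonneg_right hku hξ0
  have g2 : ξ / (8 * n) ≤ 1 / (8 * n) + a / 2 := by
    rw [div_add_div _ _ (by positivity) (by norm_num), div_le_div_iff₀ (by positivity)
      (by positivity)]
    nlinarith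
  have g3 : 1 / (8 * (n : ℝ)) ≤ a / 4 := by
    rw [div_le_div_iff₀ (by positivity) (by norm_num)]
    linarith
  have g4 : u * (1 + 1 / (8 * n)) * ξ = u * (ξ + ξ / (8 * n)) := by ring
  have g5 : u * (ξ + ξ / (8 * n)) ≤ u * (ξ + 3 * a / 4) :=
    mul_le_mul_of_nonneg_left (by linarith) hu
  have g6 : u * (ξ + a) ≤ u * ξ' := mul_le_mul_of_nonneg_left hξ' hu
  rw [g4] at g1
  have g7 : u * (ξ + a) = u * (ξ + 3 * a / 4) + u * a / 4 := by ring
  linarith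

theorem bddF (P : PD) (A ρ : ℝ) (hA : 0 ≤ A) (hρ : 0 ≤ ρ) (n₁ : ℕ) :
    ∃ K : ℝ, ∀ R S : ℕ → ℝ, (∀ n, 0 ≤ R n) → (∀ n, 0 ≤ S n) →
      (∀ n, n₁ ≤ n → R n ≤ ρ * Real.exp (P.ξ n - P.a * n)) →
      (∀ n, n₁ ≤ n → S n ≤ ρ * Real.exp (P.η n - P.a * n)) →
      (∀ n, n₁ ≤ n → R (n + 1) ≤ R n * (1 + A * Real.exp (-(P.a * n))) +
        A * Real.exp (-(2 * P.η n - P.ξ n)) * S n ^ 2) →
      (∀ n, n₁ ≤ n → S (n + 1) ≤ S n * (1 + A * Real.exp (-(P.a * n))) +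
        A * Real.exp (-(2 * P.ξ n - P.η n)) * R n ^ 2) →
      ∀ n, n₁ ≤ n → R n ≤ K ∧ S n ≤ K := by
  have ha := P.ha
  have hτ := P.hτ
  have hτ1 := P.hτ1
  have hta : 0 < P.τ * P.a := mul_pos hτ ha
  have hb4 : P.b ≤ 4 * P.a := by
    have := P.hab
    nlinarith
  have hb0 : 0 < P.b := ha.trans_le ((P.hX 0).1.trans (P.hX 0).2)
  -- large times
  have ht1 : Tendsto (fun n : ℕ => 2 * A * (Real.exp (-(P.τ * P.a / 4 * n)) * (n + 1))) atTop
      (𝓝 0) := by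
    have e1 : Tendsto (fun x : ℝ => x ^ 1 * Real.exp (-(P.τ * P.a / 4) * x)) atTop (𝓝 0) :=
      by
        have := Real.tendsto_pow_mul_exp_neg_atTop_nhds_zero 1
        have h2 : Tendsto (fun x : ℝ => (P.τ * P.a / 4) * x) atTop atTop :=
          tendsto_id.const_mul_atTop (by positivity)
        have h3 := (this.comp h2).const_mul ((P.τ * P.a / 4)⁻¹)
        rw [mul_zero] at h3
        refine h3.congr fun x => ?_
        simp only [Function.comp, pow_one]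
        rw [← mul_assoc, inv_mul_cancel_left₀ (by positivity)]
        congr 2
        ring
    have e2 : Tendsto (fun x : ℝ => Real.exp (-(P.τ * P.a / 4) * x)) atTop (𝓝 0) := by
      have h2 : Tendsto (fun x : ℝ => (P.τ * P.a / 4) * x) atTop atTop :=
        tendsto_id.const_mul_atTop (by positivity)
      have := Real.tendsto_exp_neg_atTop_nhds_zero.comp h2
      refine this.congr fun x => ?_
      simp only [Function.comp]
      congr 1
      ring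
    have e3 := ((e1.add e2).comp (tendsto_natCast_atTop_atTop (R := ℝ))).const_mul (2 * A)
    rw [add_zero, mul_zero] at e3
    refine e3.congr fun n => ?_
    simp only [Function.comp, pow_one]
    have : -(P.τ * P.a / 4) * (n : ℝ) = -(P.τ * P.a / 4 * n) := by ring
    rw [this]
    ring
  have ev1 : ∀ᶠ n : ℕ in atTop,
      2 * A * (Real.exp (-(P.τ * P.a / 4 * n)) * (n + 1)) ≤ 3 * P.a / 16 :=
    (ht1.eventually_lt_const (by positivity)).mono fun n hn => hn.le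
  have ev2 : ∀ᶠ n : ℕ in atTop, 1 ≤ 2 * P.a * n := by
    have : Tendsto (fun n : ℕ => 2 * P.a * (n : ℝ)) atTop atTop :=
      (tendsto_natCast_atTop_atTop (R := ℝ)).const_mul_atTop (by positivity)
    exact this.eventually_ge_atTop 1
  have ev3 : ∀ᶠ n : ℕ in atTop, ρ * Real.exp (1 / 4) ≤ Real.exp (25 * P.τ * P.a * n) := by
    have h1 : Tendsto (fun n : ℕ => 25 * P.τ * P.a * (n : ℝ)) atTop atTop :=
      (tendsto_natCast_atTop_atTop (R := ℝ)).const_mul_atTop (by positivity)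
    exact (Real.tendsto_exp_atTop.comp h1).eventually_ge_atTop _
  obtain ⟨m₁, hm₁⟩ := eventually_atTop.1 ev1
  obtain ⟨m₂, hm₂⟩ := eventually_atTop.1 ev2
  obtain ⟨m₃, hm₃⟩ := eventually_atTop.1 ev3
  obtain ⟨n₂, hn₂⟩ : ∃ n₂, n₂ = max (max n₁ 1) (max m₁ (max m₂ m₃)) := ⟨_, rfl⟩
  have hn21 : n₁ ≤ n₂ := by rw [hn₂]; exact (le_max_left _ _).trans (le_max_left _ _)
  have hn2one : 1 ≤ n₂ := by rw [hn₂]; exact (le_max_right _ _).trans (le_max_left _ _)
  have hn2m1 : m₁ ≤ n₂ := by rw [hn₂]; exact (le_max_left _ _).trans (le_max_right _ _)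
  have hn2m2 : m₂ ≤ n₂ := by
    rw [hn₂]
    exact (le_max_left _ _).trans ((le_max_right _ _).trans (le_max_right _ _))
  have hn2m3 : m₃ ≤ n₂ := by
    rw [hn₂]
    exact (le_max_right _ _).trans ((le_max_right _ _).trans (le_max_right _ _))
  obtain ⟨k, hk⟩ : ∃ k : ℕ → ℝ, k = fun (n : ℕ) => 3 / 4 * ((n₂ : ℝ) / n) ^ ((1 : ℝ) / 8) := ⟨_, rfl⟩
  have hn2pos : (0 : ℝ) < n₂ := by exact_mod_cast hn2one
  have hk0 : ∀ n, 0 ≤ k n := by
    intro n
    rw [hk]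
    positivity
  have hk34 : ∀ n, n₂ ≤ n → k n ≤ 3 / 4 := by
    intro n hn
    rw [hk]
    have hnpos : (0 : ℝ) < n := hn2pos.trans_le (by exact_mod_cast hn)
    have h1 : (n₂ : ℝ) / n ≤ 1 := by
      rw [div_le_one hnpos]
      exact_mod_cast hn
    have h2 : ((n₂ : ℝ) / n) ^ ((1 : ℝ) / 8) ≤ 1 :=
      Real.rpow_le_one (by positivity) h1 (by norm_num)
    simp only
    linarith
  have hkstep : ∀ n, n₂ ≤ n → k n ≤ k (n + 1) * (1 + 1 / (8 * n)) := by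
    intro n hn
    have hnpos : (0 : ℝ) < n := hn2pos.trans_le (by exact_mod_cast hn)
    have h1 : ((n₂ : ℝ) / n) = ((n₂ : ℝ) / (n + 1 : ℕ)) * (1 + 1 / n) := by
      push_cast
      field_simp
    have h2 : (1 + 1 / (n : ℝ)) ^ ((1 : ℝ) / 8) ≤ 1 + 1 / (8 * n) := by
      have := rpow_one_add_le_one_add_mul_self (s := 1 / (n : ℝ)) (p := 1 / 8)
        (by have : (0 : ℝ) < 1 / n := by positivity
            linarith) (by norm_num) (by norm_num)
      refine this.trans (le_of_eq ?_)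
      field_simp
    rw [hk]
    simp only
    rw [h1, Real.mul_rpow (by positivity) (by positivity), ← mul_assoc]
    exact mul_le_mul_of_nonneg_left h2 (by positivity)
  have hklow : ∀ n, n₂ ≤ n → 3 / 4 / ((n : ℝ) + 1) ≤ k (n + 1) := by
    intro n hn
    rw [hk]
    simp only
    have hnpos : (0 : ℝ) < n := hn2pos.trans_le (by exact_mod_cast hn)
    have h1 : 1 / ((n : ℝ) + 1) ≤ (n₂ : ℝ) / (n + 1 : ℕ) := by
      push_cast
      refine div_le_div_of_nonneg_right ?_ (by positivity)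
      exact_mod_cast hn2one
    have h2 : (1 / ((n : ℝ) + 1)) ^ ((1 : ℝ) / 8) ≤ ((n₂ : ℝ) / (n + 1 : ℕ)) ^ ((1 : ℝ) / 8) :=
      Real.rpow_le_rpow (by positivity) h1 (by norm_num)
    have h3 : (1 / ((n : ℝ) + 1)) ^ (1 : ℝ) ≤ (1 / ((n : ℝ) + 1)) ^ ((1 : ℝ) / 8) := by
      refine Real.rpow_le_rpow_of_exponent_ge (by positivity) ?_ (by norm_num)
      rw [div_le_one (by positivity)]
      linarith
    rw [Real.rpow_one] at h3
    have h4 : 3 / 4 / ((n : ℝ) + 1) = 3 / 4 * (1 / ((n : ℝ) + 1)) := by ring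
    rw [h4]
    exact mul_le_mul_of_nonneg_left (h3.trans h2) (by norm_num)
  have hsm : ∀ n, n₂ ≤ n →
      2 * A * Real.exp (-(P.τ * P.a / 4 * n)) ≤ k (n + 1) * P.a / 4 := by
    intro n hn
    have h1 := hm₁ n (hn2m1.trans hn)
    have hnpos : (0 : ℝ) < n := hn2pos.trans_le (by exact_mod_cast hn)
    have h2 := hklow n hn
    have h3 : 2 * A * Real.exp (-(P.τ * P.a / 4 * n)) ≤ 3 / 4 / ((n : ℝ) + 1) * P.a / 4 := by
      have h4 : 2 * A * Real.exp (-(P.τ * P.a / 4 * n)) * ((n : ℝ) + 1) ≤ 3 * P.a / 16 := by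
        linarith
      have h5 : 3 / 4 / ((n : ℝ) + 1) * P.a / 4 = 3 * P.a / 16 / ((n : ℝ) + 1) := by ring
      rw [h5, le_div_iff₀ (by positivity)]
      exact h4
    refine h3.trans ?_
    have h6 := mul_le_mul_of_nonneg_right h2 ha.le
    linarith
  -- time from which `k n * ξ n` is small
  have hkt : Tendsto k atTop (𝓝 0) := by
    have h1 : Tendsto (fun n : ℕ => (n₂ : ℝ) / (n : ℝ)) atTop (𝓝 0) :=
      tendsto_const_nhds.div_atTop (tendsto_natCast_atTop_atTop (R := ℝ))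
    have h2 := (h1.rpow_const (p := (1 : ℝ) / 8) (Or.inr (by norm_num))).const_mul (3 / 4 : ℝ)
    rw [Real.zero_rpow (by norm_num), mul_zero] at h2
    rw [hk]
    exact h2
  have ev4 : ∀ᶠ n : ℕ in atTop, k n ≤ P.τ * P.a / 8 / (1 + P.b) :=
    (hkt.eventually_lt_const (by positivity)).mono fun n hn => hn.le
  obtain ⟨m₄, hm₄⟩ := eventually_atTop.1 ev4
  obtain ⟨n₀, hn₀⟩ : ∃ n₀, n₀ = max n₂ m₄ := ⟨_, rfl⟩
  have hn02 : n₂ ≤ n₀ := by rw [hn₀]; exact le_max_left _ _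
  have hn04 : m₄ ≤ n₀ := by rw [hn₀]; exact le_max_right _ _
  have hkx : ∀ n, n₀ ≤ n → ∀ x : ℝ, x ≤ 1 + P.b * n → k n * x ≤ P.τ * P.a / 8 * n := by
    intro n hn x hx
    have h1 : (1 : ℝ) ≤ n := by exact_mod_cast (hn2one.trans (hn02.trans hn))
    have h2 : x ≤ (1 + P.b) * n := by nlinarith
    have h3 := hm₄ n (hn04.trans hn)
    rw [le_div_iff₀ (by positivity)] at h3
    calc k n * x ≤ k n * ((1 + P.b) * n) := mul_le_mul_of_nonneg_left h2 (hk0 n)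
      _ = k n * (1 + P.b) * n := by ring
      _ ≤ P.τ * P.a / 8 * n := mul_le_mul_of_nonneg_right h3 (by linarith)
  obtain ⟨K, hK⟩ := bdd_of_small P A hA n₀
  refine ⟨max K (ρ * Real.exp (1 + P.b * n₀)), fun R S hR0 hS0 hRa hSa hR hS => ?_⟩
  -- main induction
  have main : ∀ n, n₂ ≤ n → R n ≤ Real.exp (k n * P.ξ n) ∧ S n ≤ Real.exp (k n * P.η n) := by
    intro n hn
    induction n, hn using Nat.le_induction with
    | base =>
      have hk2 : k n₂ = 3 / 4 := by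
        rw [hk]
        simp only
        rw [div_self hn2pos.ne', Real.one_rpow, mul_one]
      rw [hk2]
      have base : ∀ x y : ℝ, x ≤ ρ * Real.exp (y - P.a * n₂) → y ≤ 1 + P.b * n₂ →
          x ≤ Real.exp (3 / 4 * y) := by
        intro x y hx hy
        refine hx.trans ?_
        have e1 := hm₃ n₂ hn2m3
        have e2 : Real.exp (y - P.a * n₂) ≤
            Real.exp (3 / 4 * y) * (Real.exp (1 / 4) * Real.exp (-(25 * P.τ * P.a * n₂))) := by
          rw [← Real.exp_add, ← Real.exp_add]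
          refine Real.exp_le_exp.2 ?_
          have e3 : P.b * n₂ ≤ (4 - 100 * P.τ) * P.a * n₂ :=
            mul_le_mul_of_nonneg_right P.hab hn2pos.le
          nlinarith
        have e4 : Real.exp (25 * P.τ * P.a * n₂) * Real.exp (-(25 * P.τ * P.a * n₂)) = 1 := by
          rw [← Real.exp_add, add_neg_cancel, Real.exp_zero]
        calc ρ * Real.exp (y - P.a * n₂) ≤ ρ * (Real.exp (3 / 4 * y) *
              (Real.exp (1 / 4) * Real.exp (-(25 * P.τ * P.a * n₂)))) :=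
              mul_le_mul_of_nonneg_left e2 hρ
          _ = (ρ * Real.exp (1 / 4)) *
              (Real.exp (3 / 4 * y) * Real.exp (-(25 * P.τ * P.a * n₂))) := by ring
          _ ≤ Real.exp (25 * P.τ * P.a * n₂) *
              (Real.exp (3 / 4 * y) * Real.exp (-(25 * P.τ * P.a * n₂))) :=
              mul_le_mul_of_nonneg_right e1 (by positivity)
          _ = Real.exp (3 / 4 * y) *
              (Real.exp (25 * P.τ * P.a * n₂) * Real.exp (-(25 * P.τ * P.a * n₂))) := by ring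
          _ = Real.exp (3 / 4 * y) := by rw [e4, mul_one]
      exact ⟨base _ _ (hRa n₂ hn21) (bddF_upper P n₂).1,
        base _ _ (hSa n₂ hn21) (bddF_upper P n₂).2⟩
    | succ n hn ih =>
      have hlow := bddF_lower P n
      have hup := bddF_upper P n
      have hn1 : n₁ ≤ n := hn21.trans hn
      have hnpos : 0 < n := hn2one.trans hn
      have hnn : (0 : ℝ) ≤ n := Nat.cast_nonneg n
      have hb : P.b * n ≤ 4 * P.a * n := mul_le_mul_of_nonneg_right hb4 hnn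
      have han : 0 ≤ P.a * n := by positivity
      constructor
      · exact bddF_step hA ha hτ hτ1 (hS0 n) ih.1 ih.2 (hk34 n hn) (P.cone1 n)
          (by linarith [hlow.2]) (by linarith [P.ξa n]) (by linarith [hlow.1])
          (by linarith [hup.1]) (hk0 (n + 1)) (hkstep n hn) hnpos (hm₂ n (hn2m2.trans hn))
          (hsm n hn) (hR n hn1)
      · exact bddF_step hA ha hτ hτ1 (hR0 n) ih.2 ih.1 (hk34 n hn) (P.cone2 n)
          (by linarith [hlow.1]) (by linarith [P.ηa n]) (by linarith [hlow.2])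
          (by linarith [hup.2]) (hk0 (n + 1)) (hkstep n hn) hnpos (hm₂ n (hn2m2.trans hn))
          (hsm n hn) (hS n hn1)
  have hKRS := hK R S hR0 hS0 (fun n hn => (main n (hn02.trans hn)).1.trans
      (Real.exp_le_exp.2 (hkx n hn _ (bddF_upper P n).1)))
    (fun n hn => (main n (hn02.trans hn)).2.trans
      (Real.exp_le_exp.2 (hkx n hn _ (bddF_upper P n).2))) (by
      intro n hn
      refine (hR n (hn21.trans (hn02.trans hn))).trans ?_
      have h1 : P.τ * P.M n ≤ 2 * P.η n - P.ξ n := by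
        have e1 := P.cone1 n
        have e2 : P.τ * P.M n ≤ P.τ * P.η n := mul_le_mul_of_nonneg_left (min_le_right _ _) hτ.le
        linarith
      have h2 : Real.exp (-(2 * P.η n - P.ξ n)) ≤ Real.exp (-(P.τ * P.M n)) :=
        Real.exp_le_exp.2 (by linarith)
      have h3 : 0 ≤ S n ^ 3 := pow_nonneg (hS0 n) 3
      have h4 : A * Real.exp (-(2 * P.η n - P.ξ n)) * S n ^ 2 ≤
          A * Real.exp (-(P.τ * P.M n)) * (S n ^ 2 + S n ^ 3) :=
        mul_le_mul (mul_le_mul_of_nonneg_left h2 hA) (by linarith) (by positivity)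
          (by positivity)
      linarith) (by
      intro n hn
      refine (hS n (hn21.trans (hn02.trans hn))).trans ?_
      have h1 : P.τ * P.M n ≤ 2 * P.ξ n - P.η n := by
        have e1 := P.cone2 n
        have e2 : P.τ * P.M n ≤ P.τ * P.ξ n := mul_le_mul_of_nonneg_left (min_le_left _ _) hτ.le
        linarith
      have h2 : Real.exp (-(2 * P.ξ n - P.η n)) ≤ Real.exp (-(P.τ * P.M n)) :=
        Real.exp_le_exp.2 (by linarith)
      have h3 : 0 ≤ R n ^ 3 := pow_nonneg (hR0 n) 3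
      have h4 : A * Real.exp (-(2 * P.ξ n - P.η n)) * R n ^ 2 ≤
          A * Real.exp (-(P.τ * P.M n)) * (R n ^ 2 + R n ^ 3) :=
        mul_le_mul (mul_le_mul_of_nonneg_left h2 hA) (by linarith) (by positivity)
          (by positivity)
      linarith)
  intro n hn
  rcases le_or_gt n₀ n with h | h
  · have h1 := hKRS n h
    exact ⟨h1.1.trans (le_max_left _ _), h1.2.trans (le_max_left _ _)⟩
  · have h1 := bddF_upper P n
    have h2 : P.b * n ≤ P.b * n₀ := by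
      refine mul_le_mul_of_nonneg_left ?_ hb0.le
      exact_mod_cast h.le
    have h3 : 0 ≤ P.a * n := by positivity
    refine ⟨le_trans ?_ (le_max_right _ _), le_trans ?_ (le_max_right _ _)⟩
    · refine (hRa n hn).trans (mul_le_mul_of_nonneg_left (Real.exp_le_exp.2 ?_) hρ)
      linarith [h1.1]
    · refine (hSa n hn).trans (mul_le_mul_of_nonneg_left (Real.exp_le_exp.2 ?_) hρ)
      linarith [h1.2]

end Pool.Agent.Lib.MP_b771e3_an
end

section

set_option autoImplicit false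

open Filter Topology

namespace Pool.Agent.Lib.MP_b771e3_an

variable {P : PD}

/-- The elementary estimate behind `f_step1` and `f_step2`. -/
private theorem step_aux (A : ℝ) (hA : 1 ≤ A) (w l a b s g x y : ℂ) (m : ℝ)
    (hm1 : m ≤ 1) (hm : m = max ‖x‖ ‖y‖)
    (ha : ‖a‖ ≤ A) (hb : ‖b‖ ≤ A) (hs : ‖s‖ ≤ A) (hg : ‖g‖ ≤ A)
    (h : ‖w - (l * x + a * x ^ 2 + b * x * y + s * y ^ 2 + g * y ^ 3)‖ ≤
      A * (‖x‖ * m ^ 2 + m ^ 4)) :
    ‖w‖ ≤ ‖l‖ * ‖x‖ + 5 * A * (‖x‖ * m + ‖y‖ ^ 2) := by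
  have hx0 : 0 ≤ ‖x‖ := norm_nonneg x
  have hy0 : 0 ≤ ‖y‖ := norm_nonneg y
  have hxm : ‖x‖ ≤ m := by rw [hm]; exact le_max_left _ _
  have hym : ‖y‖ ≤ m := by rw [hm]; exact le_max_right _ _
  have hm0 : 0 ≤ m := le_trans hx0 hxm
  have hA0 : 0 ≤ A := by linarith
  have e1 : ‖a * x ^ 2‖ ≤ A * (‖x‖ * m) := by
    rw [norm_mul, norm_pow]
    have : ‖x‖ ^ 2 ≤ ‖x‖ * m := by nlinarith
    exact mul_le_mul ha this (by positivity) hA0
  have e2 : ‖b * x * y‖ ≤ A * (‖x‖ * m) := by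
    rw [norm_mul, norm_mul, mul_assoc]
    exact mul_le_mul hb (mul_le_mul_of_nonneg_left hym hx0) (by positivity) hA0
  have e3 : ‖s * y ^ 2‖ ≤ A * ‖y‖ ^ 2 := by
    rw [norm_mul, norm_pow]
    exact mul_le_mul_of_nonneg_right hs (by positivity)
  have e4 : ‖g * y ^ 3‖ ≤ A * ‖y‖ ^ 2 := by
    rw [norm_mul, norm_pow]
    have : ‖y‖ ^ 3 ≤ ‖y‖ ^ 2 := by
      have : ‖y‖ ≤ 1 := by linarith
      calc ‖y‖ ^ 3 = ‖y‖ ^ 2 * ‖y‖ := by ring
        _ ≤ ‖y‖ ^ 2 * 1 := mul_le_mul_of_nonneg_left this (by positivity)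
        _ = ‖y‖ ^ 2 := by ring
    exact mul_le_mul hg this (by positivity) hA0
  have e5 : m ^ 2 ≤ m := by nlinarith
  have e6 : m ^ 4 ≤ m ^ 2 := by
    have : m ^ 2 ≤ 1 := by nlinarith
    calc m ^ 4 = m ^ 2 * m ^ 2 := by ring
      _ ≤ m ^ 2 * 1 := mul_le_mul_of_nonneg_left this (by positivity)
      _ = m ^ 2 := by ring
  have e7 : m ^ 2 ≤ ‖x‖ * m + ‖y‖ ^ 2 := by
    rcases max_cases ‖x‖ ‖y‖ with h' | h'
    · have : m = ‖x‖ := by rw [hm]; exact h'.1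
      have : m ^ 2 = ‖x‖ * m := by rw [pow_two]; nth_rewrite 1 [this]; rfl
      rw [this]
      have : 0 ≤ ‖y‖ ^ 2 := by positivity
      linarith
    · have : m = ‖y‖ := by rw [hm]; exact h'.1
      have : m ^ 2 = ‖y‖ ^ 2 := by rw [this]
      rw [this]
      have : 0 ≤ ‖x‖ * m := by positivity
      linarith
  have e8 : A * (‖x‖ * m ^ 2 + m ^ 4) ≤ A * (2 * (‖x‖ * m) + ‖y‖ ^ 2) := by
    apply mul_le_mul_of_nonneg_left _ hA0
    have : ‖x‖ * m ^ 2 ≤ ‖x‖ * m := mul_le_mul_of_nonneg_left e5 hx0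
    linarith
  have e9 : ‖w‖ ≤ ‖w - (l * x + a * x ^ 2 + b * x * y + s * y ^ 2 + g * y ^ 3)‖ +
      (‖l‖ * ‖x‖ + ‖a * x ^ 2‖ + ‖b * x * y‖ + ‖s * y ^ 2‖ + ‖g * y ^ 3‖) := by
    have t1 : w = (w - (l * x + a * x ^ 2 + b * x * y + s * y ^ 2 + g * y ^ 3)) +
      (l * x + a * x ^ 2 + b * x * y + s * y ^ 2 + g * y ^ 3) := by ring
    have t2 := norm_add_le (w - (l * x + a * x ^ 2 + b * x * y + s * y ^ 2 + g * y ^ 3))
      (l * x + a * x ^ 2 + b * x * y + s * y ^ 2 + g * y ^ 3)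
    rw [← t1] at t2
    have t3 := norm_add_le (l * x + a * x ^ 2 + b * x * y + s * y ^ 2) (g * y ^ 3)
    have t4 := norm_add_le (l * x + a * x ^ 2 + b * x * y) (s * y ^ 2)
    have t5 := norm_add_le (l * x + a * x ^ 2) (b * x * y)
    have t6 := norm_add_le (l * x) (a * x ^ 2)
    have t7 : ‖l * x‖ = ‖l‖ * ‖x‖ := norm_mul _ _
    linarith
  have hAx : 0 ≤ A * (‖x‖ * m) := by positivity
  have hAy : 0 ≤ A * ‖y‖ ^ 2 := by positivity
  nlinarith

theorem f_step1 (D : Dyn P) (n : ℕ) (z : ℂ × ℂ) (hz : ‖z‖ ≤ D.r) :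
    ‖(D.f n z).1‖ ≤ ‖D.lam n‖ * ‖z.1‖ + 5 * D.A * (‖z.1‖ * ‖z‖ + ‖z.2‖ ^ 2) := by
  apply step_aux D.A D.hA _ (D.lam n) (D.a1 n) (D.b1 n) (D.s1 n) (D.g1 n) z.1 z.2 ‖z‖
    (hz.trans D.hr1) (Prod.norm_def z) (D.ha1 n) (D.hb1 n) (D.hs1 n) (D.hg1 n)
  exact D.exp1 n z hz

theorem f_step2 (D : Dyn P) (n : ℕ) (z : ℂ × ℂ) (hz : ‖z‖ ≤ D.r) :
    ‖(D.f n z).2‖ ≤ ‖D.mu n‖ * ‖z.2‖ + 5 * D.A * (‖z.2‖ * ‖z‖ + ‖z.1‖ ^ 2) := by
  apply step_aux D.A D.hA _ (D.mu n) (D.a2 n) (D.b2 n) (D.s2 n) (D.g2 n) z.2 z.1 ‖z‖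
    (hz.trans D.hr1) (by rw [Prod.norm_def z, max_comm]) (D.ha2 n) (D.hb2 n) (D.hs2 n) (D.hg2 n)
  have h := D.exp2 n z hz
  have e : D.mu n * z.2 + D.a2 n * z.2 ^ 2 + D.b2 n * z.2 * z.1 + D.s2 n * z.1 ^ 2 +
      D.g2 n * z.1 ^ 3 = D.mu n * z.2 + D.a2 n * z.2 ^ 2 + D.b2 n * z.1 * z.2 +
      D.s2 n * z.1 ^ 2 + D.g2 n * z.1 ^ 3 := by ring
  rw [e]
  exact h

/-- One step of the rescaled sequence. -/
private theorem rescale (A a b ρ x y m X Xn ξ ξ' η d k t l : ℝ) (hA : 0 ≤ A) (hρ : 1 ≤ ρ)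
    (hd : d ≤ b) (hk : 0 ≤ k) (hξ : ξ' = ξ + d - k) (hx : 0 ≤ x) (_hy : 0 ≤ y)
    (hm : m ≤ ρ * Real.exp (-(a * t))) (hl : l = Real.exp (-d))
    (hX : X ≤ l * x + 5 * A * (x * m + y ^ 2)) (hXn : Xn = Real.exp ξ' * X) :
    Xn ≤ (Real.exp ξ * x) * (1 + (5 * A * Real.exp b * ρ) * Real.exp (-(a * t))) +
      (5 * A * Real.exp b * ρ) * Real.exp (-(2 * η - ξ)) * (Real.exp η * y) ^ 2 := by
  have h1 : Real.exp ξ' ≤ Real.exp (ξ + d) := Real.exp_le_exp.mpr (by linarith)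
  have hxm : x * m ≤ x * (ρ * Real.exp (-(a * t))) := mul_le_mul_of_nonneg_left hm hx
  have h2 : X ≤ l * x + 5 * A * (x * (ρ * Real.exp (-(a * t))) + y ^ 2) := by
    have : 5 * A * (x * m + y ^ 2) ≤ 5 * A * (x * (ρ * Real.exp (-(a * t))) + y ^ 2) :=
      mul_le_mul_of_nonneg_left (by linarith) (by positivity)
    linarith
  have hl0 : 0 ≤ l := by rw [hl]; positivity
  have h3 : 0 ≤ l * x + 5 * A * (x * (ρ * Real.exp (-(a * t))) + y ^ 2) := by
    have : 0 ≤ ρ := by linarith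
    positivity
  have h4 : Xn ≤ Real.exp (ξ + d) * (l * x + 5 * A * (x * (ρ * Real.exp (-(a * t))) + y ^ 2)) := by
    rw [hXn]
    rcases le_total 0 X with h | h
    · exact mul_le_mul h1 h2 h (by positivity)
    · exact (mul_nonpos_of_nonneg_of_nonpos (by positivity) h).trans
        (mul_nonneg (by positivity) h3)
  have h5 : Real.exp (ξ + d) * l = Real.exp ξ := by
    rw [hl, ← Real.exp_add]; congr 1; ring
  have h6 : Real.exp (ξ + d) ≤ Real.exp ξ * Real.exp b := by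
    rw [← Real.exp_add]; exact Real.exp_le_exp.mpr (by linarith)
  have h7 : Real.exp (-(2 * η - ξ)) * (Real.exp η * y) ^ 2 = Real.exp ξ * y ^ 2 := by
    have : Real.exp (-(2 * η - ξ)) * (Real.exp η * Real.exp η) = Real.exp ξ := by
      rw [← Real.exp_add, ← Real.exp_add]; congr 1; ring
    calc Real.exp (-(2 * η - ξ)) * (Real.exp η * y) ^ 2 =
        (Real.exp (-(2 * η - ξ)) * (Real.exp η * Real.exp η)) * y ^ 2 := by ring
      _ = _ := by rw [this]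
  have h8 : (Real.exp ξ * x) * (1 + (5 * A * Real.exp b * ρ) * Real.exp (-(a * t))) +
      (5 * A * Real.exp b * ρ) * Real.exp (-(2 * η - ξ)) * (Real.exp η * y) ^ 2 =
      Real.exp ξ * x + Real.exp ξ * Real.exp b * (5 * A * (x * (ρ * Real.exp (-(a * t))))) +
      Real.exp ξ * Real.exp b * (5 * A * ρ * y ^ 2) := by
    have : (5 * A * Real.exp b * ρ) * Real.exp (-(2 * η - ξ)) * (Real.exp η * y) ^ 2 =
      (5 * A * Real.exp b * ρ) * (Real.exp (-(2 * η - ξ)) * (Real.exp η * y) ^ 2) := by ring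
    rw [this, h7]; ring
  rw [h8]
  have h9 : Real.exp (ξ + d) * (l * x + 5 * A * (x * (ρ * Real.exp (-(a * t))) + y ^ 2)) =
      Real.exp ξ * x + Real.exp (ξ + d) * (5 * A * (x * (ρ * Real.exp (-(a * t))))) +
      Real.exp (ξ + d) * (5 * A * y ^ 2) := by
    calc _ = (Real.exp (ξ + d) * l) * x +
        Real.exp (ξ + d) * (5 * A * (x * (ρ * Real.exp (-(a * t))))) +
        Real.exp (ξ + d) * (5 * A * y ^ 2) := by ring
      _ = _ := by rw [h5]
  rw [h9] at h4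
  have hρ0 : 0 ≤ ρ := by linarith
  have h10 : Real.exp (ξ + d) * (5 * A * (x * (ρ * Real.exp (-(a * t))))) ≤
      Real.exp ξ * Real.exp b * (5 * A * (x * (ρ * Real.exp (-(a * t))))) :=
    mul_le_mul_of_nonneg_right h6 (by positivity)
  have h11 : Real.exp (ξ + d) * (5 * A * y ^ 2) ≤ Real.exp ξ * Real.exp b * (5 * A * ρ * y ^ 2) := by
    apply mul_le_mul h6 _ (by positivity) (by positivity)
    have : 5 * A * y ^ 2 ≤ 5 * A * y ^ 2 * ρ := le_mul_of_one_le_right (by positivity) hρ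
    linarith
  linarith

/-- Orbits of `f` near a point of the basin have bounded adapted norms (apply `bddF` to
`R n = exp (ξ n) ‖x_n‖`, `S n = exp (η n) ‖y_n‖`). -/
theorem orb_F (D : Dyn P) (r₁ : ℝ) (hr₁ : 0 < r₁)
    (hcontr : ∀ (n₁ : ℕ) (z : ℂ × ℂ), ‖it D.f n₁ z‖ ≤ r₁ → ∀ n, n₁ ≤ n →
      ‖it D.f n z‖ ≤ Real.exp (-(P.a * (n - n₁ : ℝ))))
    (z₀ : ℂ × ℂ) (hz₀ : Tendsto (fun n => it D.f n z₀) atTop (𝓝 0)) :
    ∃ U : Set (ℂ × ℂ), IsOpen U ∧ z₀ ∈ U ∧ ∃ n₀ : ℕ, ∃ K : ℝ, ∀ z ∈ U, ∀ n, n₀ ≤ n →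
      P.N n (it D.f n z) ≤ K := by
  have hcont : ∀ n, Continuous (it D.f n) := by
    intro n
    induction n with
    | zero => exact continuous_id
    | succ n ih => exact (D.hf n).continuous.comp ih
  obtain ⟨n₁, hn₁⟩ : ∃ n₁ : ℕ, ‖it D.f n₁ z₀‖ < r₁ := by
    have h1 : Tendsto (fun n => ‖it D.f n z₀‖) atTop (𝓝 0) := by
      simpa using hz₀.norm
    exact (h1.eventually_lt_const hr₁).exists
  obtain ⟨n₂, hn₂⟩ : ∃ n₂ : ℕ, ∀ n : ℕ, n₂ ≤ n → Real.exp (-(P.a * ((n : ℝ) - n₁))) ≤ D.r := by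
    have h1 : Tendsto (fun n : ℕ => Real.exp (-(P.a * ((n : ℝ) - n₁)))) atTop (𝓝 0) := by
      apply Real.tendsto_exp_neg_atTop_nhds_zero.comp
      apply Tendsto.const_mul_atTop P.ha
      exact tendsto_atTop_add_const_right _ _ tendsto_natCast_atTop_atTop
    have h2 := h1.eventually_le_const D.hr
    exact (eventually_atTop.mp h2)
  refine ⟨{z | ‖it D.f n₁ z‖ < r₁}, ?_, hn₁, max n₁ n₂, ?_⟩
  · exact isOpen_lt (hcont n₁).norm continuous_const
  set ρ : ℝ := Real.exp (P.a * n₁) with hρ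
  have hρ1 : 1 ≤ ρ := by
    rw [hρ]
    exact Real.one_le_exp (mul_nonneg P.ha.le (Nat.cast_nonneg _))
  have hρ0 : 0 ≤ ρ := by linarith
  have hA0 : 0 ≤ D.A := by have := D.hA; linarith
  obtain ⟨K, hK⟩ := bddF P (5 * D.A * Real.exp P.b * ρ) ρ (by positivity) hρ0 (max n₁ n₂)
  refine ⟨K, fun z hz n hn => ?_⟩
  have hz' : ‖it D.f n₁ z‖ ≤ r₁ := le_of_lt hz
  have hsmall : ∀ n : ℕ, max n₁ n₂ ≤ n → ‖it D.f n z‖ ≤ ρ * Real.exp (-(P.a * n)) := by
    intro n hn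
    have h1 := hcontr n₁ z hz' n (le_trans (le_max_left _ _) hn)
    refine h1.trans (le_of_eq ?_)
    rw [hρ, ← Real.exp_add]; congr 1; ring
  have hsr : ∀ n : ℕ, max n₁ n₂ ≤ n → ‖it D.f n z‖ ≤ D.r := by
    intro n hn
    exact (hcontr n₁ z hz' n (le_trans (le_max_left _ _) hn)).trans
      (hn₂ n (le_trans (le_max_right _ _) hn))
  have key := hK (fun n => Real.exp (P.ξ n) * ‖(it D.f n z).1‖)
    (fun n => Real.exp (P.η n) * ‖(it D.f n z).2‖) (fun n => by positivity)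
    (fun n => by positivity) ?_ ?_ ?_ ?_ n hn
  · exact max_le key.1 key.2
  · intro n hn
    have h1 : ‖(it D.f n z).1‖ ≤ ‖it D.f n z‖ := norm_fst_le _
    have h2 := h1.trans (hsmall n hn)
    calc Real.exp (P.ξ n) * ‖(it D.f n z).1‖ ≤ Real.exp (P.ξ n) * (ρ * Real.exp (-(P.a * n))) :=
          mul_le_mul_of_nonneg_left h2 (by positivity)
      _ = ρ * Real.exp (P.ξ n - P.a * n) := by
          rw [sub_eq_add_neg, Real.exp_add]; ring
  · intro n hn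
    have h1 : ‖(it D.f n z).2‖ ≤ ‖it D.f n z‖ := norm_snd_le _
    have h2 := h1.trans (hsmall n hn)
    calc Real.exp (P.η n) * ‖(it D.f n z).2‖ ≤ Real.exp (P.η n) * (ρ * Real.exp (-(P.a * n))) :=
          mul_le_mul_of_nonneg_left h2 (by positivity)
      _ = ρ * Real.exp (P.η n - P.a * n) := by
          rw [sub_eq_add_neg, Real.exp_add]; ring
  · intro n hn
    exact rescale D.A P.a P.b ρ ‖(it D.f n z).1‖ ‖(it D.f n z).2‖ ‖it D.f n z‖
      ‖(it D.f (n + 1) z).1‖ _ (P.ξ n) (P.ξ (n + 1)) (P.η n) (P.dX n) (P.kx n) n ‖D.lam n‖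
      hA0 hρ1 (P.hX n).2 (P.kx0 n) (P.ξs n) (norm_nonneg _) (norm_nonneg _) (hsmall n hn)
      (D.hlam n) (f_step1 D n _ (hsr n hn)) rfl
  · intro n hn
    exact rescale D.A P.a P.b ρ ‖(it D.f n z).2‖ ‖(it D.f n z).1‖ ‖it D.f n z‖
      ‖(it D.f (n + 1) z).2‖ _ (P.η n) (P.η (n + 1)) (P.ξ n) (P.dY n) (P.ky n) n ‖D.mu n‖
      hA0 hρ1 (P.hY n).2 (P.ky0 n) (P.ηs n) (norm_nonneg _) (norm_nonneg _) (hsmall n hn)
      (D.hmu n) (f_step2 D n _ (hsr n hn)) rfl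

end Pool.Agent.Lib.MP_b771e3_an
end
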