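import Mathlib
import Pool.Agent.Lib.MP_b771e3_an.Mg.G001

section

set_option autoImplicit false

open Filter Topology

namespace Pool.Agent.Lib.MP_b771e3_an

variable {P : PD} {F G Gi H : ℕ → ℂ × ℂ → ℂ × ℂ}

theorem it_iti (hg : ∀ n z, G n (Gi n z) = z) (n : ℕ) (z : ℂ × ℂ) : it G n (iti Gi n z) = z := by
  induction n generalizing z with
  | zero => rfl
  | succ n ih =>
    show G n (it G n (iti Gi n (Gi n z))) = z
    rw [ih, hg]

theorem iti_it (hg : ∀ n z, Gi n (G n z) = z) (n : ℕ) (z : ℂ × ℂ) : iti Gi n (it G n z) = z := by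
  induction n generalizing z with
  | zero => rfl
  | succ n ih =>
    show iti Gi n (Gi n (G n (it G n z))) = z
    rw [hg, ih]

/-- tail sums of `exp (-τ M)` -/
private noncomputable def Rt (P : PD) (m : ℕ) : ℝ := ∑' j, Real.exp (-P.τ * P.M (j + m))

private theorem Rt_succ (m : ℕ) : Rt P m = Real.exp (-P.τ * P.M m) + Rt P (m + 1) := by
  have hs : Summable fun j => Real.exp (-P.τ * P.M (j + m)) :=
    (summable_nat_add_iff m).mpr (summable_exp_M (P := P))
  unfold Rt
  rw [hs.tsum_eq_zero_add]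
  congr 1
  · simp
  · congr 1
    funext j
    congr 3
    omega

private theorem Rt_nonneg (m : ℕ) : 0 ≤ Rt P m := tsum_nonneg fun _ => (Real.exp_pos _).le

private theorem Rt_le (m : ℕ) : Rt P m ≤ Rt P 0 := by
  induction m with
  | zero => exact le_rfl
  | succ m ih =>
    have h := Rt_succ (P := P) m
    have h2 := Real.exp_pos (-P.τ * P.M m)
    linarith

private theorem Rt_tendsto : Tendsto (Rt P) atTop (𝓝 0) :=
  tendsto_sum_nat_add fun n => Real.exp (-P.τ * P.M n)

private theorem pull_step (T : Trans P F G Gi H) (n m : ℕ) (hm : m + 1 ≤ n) (v : ℂ × ℂ) :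
    it G m (iti Gi n v) = Gi m (it G (m + 1) (iti Gi n v)) := by
  show _ = Gi m (G m (it G m (iti Gi n v)))
  rw [T.gl]

private theorem kk_le (m : ℕ) : P.kx m + P.ky m ≤ P.b := by
  rcases P.kxy m with h | h
  · rw [h, zero_add]; exact P.kyb m
  · rw [h, add_zero]; exact P.kxb m

private theorem shadow_aux (T : Trans P F G Gi H) (K E : ℝ) : ∃ n₁ : ℕ, ∃ B : ℝ, 0 ≤ B ∧
    ∀ (n₂ : ℕ), n₁ ≤ n₂ → ∀ (o : ℕ → ℂ × ℂ) (n : ℕ) (v : ℂ × ℂ), n₂ ≤ n →
      (∀ m, n₂ ≤ m → m ≤ n → P.N m (o m) ≤ K) →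
      (∀ m, n₂ ≤ m → m < n → P.N (m + 1) (o (m + 1) - G m (o m)) ≤
        E * (Real.exp (-P.c m) * Real.exp (-P.τ * P.M m))) →
      P.N n (v - o n) ≤ E * (Real.exp (-P.c n) * Real.exp (-P.τ * P.M n)) →
      ∀ m, n₂ ≤ m → m ≤ n →
        P.N m (it G m (iti Gi n v) - o m) ≤ Real.exp (-P.b) / 8 ∧
        P.N m (it G m (iti Gi n v) - o m) ≤ B * Real.exp (-P.c m) := by
  obtain ⟨A, n₀, hA, hlip⟩ := T.lip K
  have hb := P.bpos
  set E' : ℝ := max E 0 with hE'
  have hE0 : 0 ≤ E' := le_max_right _ _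
  set W : ℝ := Real.exp (A * Rt P 0) with hW
  have hW1 : 1 ≤ W := Real.one_le_exp (mul_nonneg hA (Rt_nonneg 0))
  have hlim : Tendsto (fun m => E' * Real.exp P.b * W * Rt P m) atTop (𝓝 0) := by
    have := (Rt_tendsto (P := P)).const_mul (E' * Real.exp P.b * W)
    simpa using this
  have hpos8 : 0 < Real.exp (-P.b) / 8 := by positivity
  obtain ⟨n₁', hn₁'⟩ := (hlim.eventually (Iic_mem_nhds hpos8)).exists_forall_of_atTop
  refine ⟨max n₀ n₁', E' * Real.exp P.b * W * Rt P 0,
    by have := Rt_nonneg (P := P) 0; positivity, ?_⟩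
  intro n₂ hn₂ o n v hn hoK hoE hv
  have hs : ∀ m, 0 < Real.exp (-P.τ * P.M m) := fun m => Real.exp_pos _
  have hcm : ∀ m, Real.exp (-P.c m) ≤ 1 := fun m => by
    rw [Real.exp_le_one_iff]; linarith [P.c_nonneg m]
  have hcp : ∀ m, 1 ≤ Real.exp (P.c m) := fun m => Real.one_le_exp (P.c_nonneg m)
  have hcc : ∀ m, Real.exp (P.c m) * Real.exp (-P.c m) = 1 := fun m => by
    rw [← Real.exp_add]; simp
  -- main claim
  have claim : ∀ k m, m + k = n → n₂ ≤ m →
      Real.exp (P.c m) * P.N m (it G m (iti Gi n v) - o m) ≤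
        E' * Real.exp P.b * Real.exp (A * Rt P m) * Rt P m := by
    intro k
    induction k with
    | zero =>
      intro m hm hm2
      rw [add_zero] at hm
      subst hm
      rw [it_iti T.gr]
      have h1 : Real.exp (P.c m) * P.N m (v - o m) ≤ E' * Real.exp (-P.τ * P.M m) := by
        calc Real.exp (P.c m) * P.N m (v - o m)
            ≤ Real.exp (P.c m) * (E * (Real.exp (-P.c m) * Real.exp (-P.τ * P.M m))) :=
              mul_le_mul_of_nonneg_left hv (Real.exp_pos _).le
          _ ≤ Real.exp (P.c m) * (E' * (Real.exp (-P.c m) * Real.exp (-P.τ * P.M m))) := by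
              gcongr; exact le_max_left _ _
          _ = (Real.exp (P.c m) * Real.exp (-P.c m)) * (E' * Real.exp (-P.τ * P.M m)) := by ring
          _ = E' * Real.exp (-P.τ * P.M m) := by rw [hcc, one_mul]
      refine h1.trans ?_
      have h2 : Real.exp (-P.τ * P.M m) ≤ Rt P m := by
        rw [Rt_succ]; linarith [Rt_nonneg (P := P) (m + 1)]
      have h3 : 1 ≤ Real.exp P.b := Real.one_le_exp hb.le
      have h4 : 1 ≤ Real.exp (A * Rt P m) := Real.one_le_exp (mul_nonneg hA (Rt_nonneg m))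
      have h5 : (1 : ℝ) ≤ Real.exp P.b * Real.exp (A * Rt P m) := by nlinarith
      calc E' * Real.exp (-P.τ * P.M m) ≤ E' * Rt P m := mul_le_mul_of_nonneg_left h2 hE0
        _ = E' * 1 * Rt P m := by ring
        _ ≤ E' * (Real.exp P.b * Real.exp (A * Rt P m)) * Rt P m := by
            gcongr
            exact Rt_nonneg m
        _ = _ := by ring
    | succ k ih =>
      intro m hm hm2
      have ihm := ih (m + 1) (by omega) (by omega)
      have hmn : m + 1 ≤ n := by omega
      set x : ℂ × ℂ := it G (m + 1) (iti Gi n v) with hx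
      have hN0 : 0 ≤ P.N (m + 1) (x - o (m + 1)) := N_nonneg _ _
      have hR1 := Rt_nonneg (P := P) (m + 1)
      have hRs := Rt_succ (P := P) m
      have hAR : Real.exp (A * Rt P (m + 1)) ≤ W := by
        rw [hW]; apply Real.exp_le_exp.mpr
        exact mul_le_mul_of_nonneg_left (Rt_le _) hA
      have ht : P.N (m + 1) (x - o (m + 1)) ≤ E' * Real.exp P.b * W * Rt P (m + 1) := by
        calc P.N (m + 1) (x - o (m + 1)) ≤ Real.exp (P.c (m + 1)) * P.N (m + 1) (x - o (m + 1)) :=
              le_mul_of_one_le_left hN0 (hcp _)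
          _ ≤ _ := ihm
          _ ≤ _ := by gcongr
      have herr : P.N (m + 1) (o (m + 1) - G m (o m)) ≤
          E' * (Real.exp (-P.c m) * Real.exp (-P.τ * P.M m)) := by
        refine (hoE m hm2 (by omega)).trans ?_
        gcongr; exact le_max_left _ _
      have htri : P.N (m + 1) (x - G m (o m)) ≤ P.N (m + 1) (x - o (m + 1)) +
          E' * (Real.exp (-P.c m) * Real.exp (-P.τ * P.M m)) := by
        have h1 : x - G m (o m) = (x - o (m + 1)) + (o (m + 1) - G m (o m)) := by abel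
        rw [h1]
        exact (N_add _ _ _).trans (by linarith)
      have hsmall : P.N (m + 1) (x - G m (o m)) ≤ Real.exp (-P.b) / 4 := by
        have h1 : E' * (Real.exp (-P.c m) * Real.exp (-P.τ * P.M m)) ≤
            E' * Real.exp P.b * W * Real.exp (-P.τ * P.M m) := by
          have h3 : 1 ≤ Real.exp P.b := Real.one_le_exp hb.le
          have h4 : Real.exp (-P.c m) ≤ Real.exp P.b * W := by
            have := hcm m
            nlinarith
          calc E' * (Real.exp (-P.c m) * Real.exp (-P.τ * P.M m))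
              ≤ E' * ((Real.exp P.b * W) * Real.exp (-P.τ * P.M m)) := by gcongr
            _ = _ := by ring
        have h2 := hn₁' m ((le_max_right _ _).trans (hn₂.trans hm2))
        rw [hRs] at h2
        have h3 : 0 < Real.exp (-P.b) := Real.exp_pos _
        have h5 : E' * Real.exp P.b * W * (Real.exp (-P.τ * P.M m) + Rt P (m + 1)) ≤
          Real.exp (-P.b) / 8 := h2
        rw [mul_add] at h5
        linarith
      have hl := hlip m ((le_max_left _ _).trans (hn₂.trans hm2)) (o m) x (hoK m hm2 (by omega))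
        hsmall
      rw [pull_step T n m hmn v]
      have hs0 := hs m
      have h1A : 1 + A * Real.exp (-P.τ * P.M m) ≤ Real.exp (A * Real.exp (-P.τ * P.M m)) := by
        have := Real.add_one_le_exp (A * Real.exp (-P.τ * P.M m))
        linarith
      have hcs : Real.exp (P.c m) * Real.exp (P.kx m + P.ky m) = Real.exp (P.c (m + 1)) := by
        rw [← Real.exp_add]; congr 1; rw [P.cs m]; ring
      have hcs2 : Real.exp (P.c (m + 1)) * Real.exp (-P.c m) ≤ Real.exp P.b := by
        rw [← Real.exp_add]; apply Real.exp_le_exp.mpr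
        have := P.cs m
        have := kk_le (P := P) m
        linarith
      have hN1 : 0 ≤ P.N (m + 1) (x - G m (o m)) := N_nonneg _ _
      calc Real.exp (P.c m) * P.N m (Gi m x - o m)
          ≤ Real.exp (P.c m) * (Real.exp (P.kx m + P.ky m) *
            (1 + A * Real.exp (-P.τ * P.M m)) * P.N (m + 1) (x - G m (o m))) :=
            mul_le_mul_of_nonneg_left hl (Real.exp_pos _).le
        _ = Real.exp (P.c (m + 1)) * (1 + A * Real.exp (-P.τ * P.M m)) *
            P.N (m + 1) (x - G m (o m)) := by rw [← hcs]; ring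
        _ ≤ Real.exp (P.c (m + 1)) * Real.exp (A * Real.exp (-P.τ * P.M m)) *
            (P.N (m + 1) (x - o (m + 1)) +
              E' * (Real.exp (-P.c m) * Real.exp (-P.τ * P.M m))) := by
            gcongr
        _ = Real.exp (A * Real.exp (-P.τ * P.M m)) *
            (Real.exp (P.c (m + 1)) * P.N (m + 1) (x - o (m + 1)) +
              E' * (Real.exp (P.c (m + 1)) * Real.exp (-P.c m)) * Real.exp (-P.τ * P.M m)) := by
            ring
        _ ≤ Real.exp (A * Real.exp (-P.τ * P.M m)) *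
            (E' * Real.exp P.b * Real.exp (A * Rt P (m + 1)) * Rt P (m + 1) +
              E' * Real.exp P.b * Real.exp (-P.τ * P.M m)) := by
            gcongr
        _ ≤ Real.exp (A * Real.exp (-P.τ * P.M m)) *
            (E' * Real.exp P.b * Real.exp (A * Rt P (m + 1)) * Rt P (m + 1) +
              E' * Real.exp P.b * Real.exp (A * Rt P (m + 1)) * Real.exp (-P.τ * P.M m)) := by
            have h6 : 1 ≤ Real.exp (A * Rt P (m + 1)) := Real.one_le_exp (mul_nonneg hA hR1)
            have h7 : E' * Real.exp P.b * Real.exp (-P.τ * P.M m) ≤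
                E' * Real.exp P.b * Real.exp (A * Rt P (m + 1)) * Real.exp (-P.τ * P.M m) := by
              have h8 : 0 ≤ E' * Real.exp P.b * Real.exp (-P.τ * P.M m) := by positivity
              calc E' * Real.exp P.b * Real.exp (-P.τ * P.M m)
                  = E' * Real.exp P.b * Real.exp (-P.τ * P.M m) * 1 := by ring
                _ ≤ E' * Real.exp P.b * Real.exp (-P.τ * P.M m) * Real.exp (A * Rt P (m + 1)) :=
                  mul_le_mul_of_nonneg_left h6 h8
                _ = _ := by ring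
            gcongr
        _ = E' * Real.exp P.b * (Real.exp (A * Real.exp (-P.τ * P.M m)) *
            Real.exp (A * Rt P (m + 1))) * (Real.exp (-P.τ * P.M m) + Rt P (m + 1)) := by ring
        _ = E' * Real.exp P.b * Real.exp (A * Rt P m) * Rt P m := by
            rw [← Real.exp_add, hRs]
            congr 3
            ring
  intro m hm2 hmn
  have hc := claim (n - m) m (by omega) hm2
  have hR0 := Rt_nonneg (P := P) m
  have hAR : Real.exp (A * Rt P m) ≤ W := by
    rw [hW]; apply Real.exp_le_exp.mpr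
    exact mul_le_mul_of_nonneg_left (Rt_le _) hA
  have hc2 : Real.exp (P.c m) * P.N m (it G m (iti Gi n v) - o m) ≤
      E' * Real.exp P.b * W * Rt P m := hc.trans (by gcongr)
  constructor
  · calc P.N m (it G m (iti Gi n v) - o m)
        ≤ Real.exp (P.c m) * P.N m (it G m (iti Gi n v) - o m) :=
          le_mul_of_one_le_left (N_nonneg _ _) (hcp m)
      _ ≤ _ := hc2
      _ ≤ _ := hn₁' m ((le_max_right _ _).trans (hn₂.trans hm2))
  · calc P.N m (it G m (iti Gi n v) - o m)
        = (Real.exp (P.c m) * P.N m (it G m (iti Gi n v) - o m)) * Real.exp (-P.c m) := by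
          rw [mul_right_comm, hcc, one_mul]
      _ ≤ (E' * Real.exp P.b * W * Rt P 0) * Real.exp (-P.c m) := by
          apply mul_le_mul_of_nonneg_right _ (Real.exp_pos _).le
          refine hc2.trans ?_
          have := Rt_le (P := P) m
          gcongr

/-- Pull back through the inverse maps: a perturbation at level `n`. Here `o m` is an orbit with
`N m (o m) ≤ K` and errors `e m`, i.e. `N (m+1) (o (m+1) - G m (o m)) ≤ E exp(-c m) exp(-τ M m)`, and
the point `v` at level `n` satisfies `N n (v - o n) ≤ E exp(-c n) exp (-τ M n)`. Then for all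
`n₁ ≤ m ≤ n` the pulled back point `it G m (iti Gi n v)` is close to `o m`. -/
theorem shadow (T : Trans P F G Gi H) (K E : ℝ) : ∃ n₁ : ℕ, ∃ B : ℝ, 0 ≤ B ∧
    ∀ (n₂ : ℕ), n₁ ≤ n₂ → ∀ (o : ℕ → ℂ × ℂ) (n : ℕ) (v : ℂ × ℂ), n₂ ≤ n →
      (∀ m, n₂ ≤ m → m ≤ n → P.N m (o m) ≤ K) →
      (∀ m, n₂ ≤ m → m < n → P.N (m + 1) (o (m + 1) - G m (o m)) ≤
        E * (Real.exp (-P.c m) * Real.exp (-P.τ * P.M m))) →
      P.N n (v - o n) ≤ E * (Real.exp (-P.c n) * Real.exp (-P.τ * P.M n)) →
      ∀ m, n₂ ≤ m → m ≤ n →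
        P.N m (it G m (iti Gi n v) - o m) ≤ 1 ∧
        P.N m (it G m (iti Gi n v) - o m) ≤ B * Real.exp (-P.c m) := by
  obtain ⟨n₁, B, hB, h⟩ := shadow_aux T K E
  refine ⟨n₁, B, hB, ?_⟩
  intro n₂ hn₂ o n v hn hoK hoE hv m hm hmn
  obtain ⟨h1, h2⟩ := h n₂ hn₂ o n v hn hoK hoE hv m hm hmn
  refine ⟨h1.trans ?_, h2⟩
  have hb := P.bpos
  have : Real.exp (-P.b) ≤ 1 := by rw [Real.exp_le_one_iff]; linarith
  linarith

/-- Two points at level `n` close to an orbit: the pulled back points stay close. -/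
theorem shadow2 (T : Trans P F G Gi H) (K E : ℝ) : ∃ n₁ : ℕ, ∃ B : ℝ, 0 ≤ B ∧
    ∀ (n₂ : ℕ), n₁ ≤ n₂ → ∀ (o : ℕ → ℂ × ℂ) (n : ℕ) (v v' : ℂ × ℂ), n₂ ≤ n →
      (∀ m, n₂ ≤ m → m ≤ n → P.N m (o m) ≤ K) →
      (∀ m, n₂ ≤ m → m < n → P.N (m + 1) (o (m + 1) - G m (o m)) ≤
        E * (Real.exp (-P.c m) * Real.exp (-P.τ * P.M m))) →
      P.N n (v - o n) ≤ E * (Real.exp (-P.c n) * Real.exp (-P.τ * P.M n)) →
      P.N n (v' - o n) ≤ E * (Real.exp (-P.c n) * Real.exp (-P.τ * P.M n)) →
      ∀ m, n₂ ≤ m → m ≤ n →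
        P.N m (it G m (iti Gi n v) - it G m (iti Gi n v')) ≤
          B * Real.exp (-P.c m) * Real.exp (-P.τ * P.M n) := by
  obtain ⟨n₁, B, hB, hsh⟩ := shadow_aux T K E
  obtain ⟨A, n₀, hA, hlip⟩ := T.lip (K + 1)
  have hb := P.bpos
  set E' : ℝ := max E 0 with hE'
  have hE0 : 0 ≤ E' := le_max_right _ _
  set W : ℝ := Real.exp (A * Rt P 0) with hW
  refine ⟨max n₀ n₁, W * (2 * E'), by positivity, ?_⟩
  intro n₂ hn₂ o n v v' hn hoK hoE hv hv'
  have s1 := hsh n₂ ((le_max_right _ _).trans hn₂) o n v hn hoK hoE hv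
  have s2 := hsh n₂ ((le_max_right _ _).trans hn₂) o n v' hn hoK hoE hv'
  have hcc : ∀ m, Real.exp (P.c m) * Real.exp (-P.c m) = 1 := fun m => by
    rw [← Real.exp_add]; simp
  have hb1 : Real.exp (-P.b) ≤ 1 := by rw [Real.exp_le_one_iff]; linarith
  have htop : Real.exp (P.c n) * P.N n (v - v') ≤ 2 * E' * Real.exp (-P.τ * P.M n) := by
    have h1 : v - v' = (v - o n) + (o n - v') := by abel
    have h2 : P.N n (v - v') ≤ P.N n (v - o n) + P.N n (v' - o n) := by
      rw [h1]
      refine (N_add _ _ _).trans ?_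
      rw [N_sub_comm n (o n) v']
    have h3 : E * (Real.exp (-P.c n) * Real.exp (-P.τ * P.M n)) ≤
        E' * (Real.exp (-P.c n) * Real.exp (-P.τ * P.M n)) := by
      gcongr; exact le_max_left _ _
    calc Real.exp (P.c n) * P.N n (v - v')
        ≤ Real.exp (P.c n) * (2 * (E' * (Real.exp (-P.c n) * Real.exp (-P.τ * P.M n)))) := by
          apply mul_le_mul_of_nonneg_left _ (Real.exp_pos _).le
          linarith
      _ = (Real.exp (P.c n) * Real.exp (-P.c n)) * (2 * E' * Real.exp (-P.τ * P.M n)) := by ring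
      _ = _ := by rw [hcc, one_mul]
  have claim : ∀ k m, m + k = n → n₂ ≤ m →
      Real.exp (P.c m) * P.N m (it G m (iti Gi n v) - it G m (iti Gi n v')) ≤
        Real.exp (A * Rt P m) * (2 * E' * Real.exp (-P.τ * P.M n)) := by
    intro k
    induction k with
    | zero =>
      intro m hm hm2
      rw [add_zero] at hm
      subst hm
      rw [it_iti T.gr, it_iti T.gr]
      refine htop.trans ?_
      apply le_mul_of_one_le_left (by positivity)
      exact Real.one_le_exp (mul_nonneg hA (Rt_nonneg m))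
    | succ k ih =>
      intro m hm hm2
      have ihm := ih (m + 1) (by omega) (by omega)
      have hmn : m + 1 ≤ n := by omega
      have t1 := (s1 (m + 1) (by omega) hmn).1
      have t2 := (s2 (m + 1) (by omega) hmn).1
      have t3 := (s2 m hm2 (by omega)).1
      set x : ℂ × ℂ := it G (m + 1) (iti Gi n v) with hx
      set x' : ℂ × ℂ := it G (m + 1) (iti Gi n v') with hx'
      have hw : P.N m (it G m (iti Gi n v')) ≤ K + 1 := by
        have h1 : it G m (iti Gi n v') = (it G m (iti Gi n v') - o m) + o m := by abel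
        rw [h1]
        have h2 := N_add (P := P) m (it G m (iti Gi n v') - o m) (o m)
        have h3 := hoK m hm2 (by omega)
        linarith
      have hG : G m (it G m (iti Gi n v')) = x' := rfl
      have hsmall : P.N (m + 1) (x - G m (it G m (iti Gi n v'))) ≤ Real.exp (-P.b) / 4 := by
        rw [hG]
        have h1 : x - x' = (x - o (m + 1)) + (o (m + 1) - x') := by abel
        rw [h1]
        refine (N_add _ _ _).trans ?_
        rw [N_sub_comm (m + 1) (o (m + 1)) x']
        linarith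
      have hl := hlip m ((le_max_left _ _).trans (hn₂.trans hm2)) (it G m (iti Gi n v')) x hw
        hsmall
      rw [hG] at hl
      rw [pull_step T n m hmn v]
      have h1A : 1 + A * Real.exp (-P.τ * P.M m) ≤ Real.exp (A * Real.exp (-P.τ * P.M m)) := by
        have := Real.add_one_le_exp (A * Real.exp (-P.τ * P.M m))
        linarith
      have hcs : Real.exp (P.c m) * Real.exp (P.kx m + P.ky m) = Real.exp (P.c (m + 1)) := by
        rw [← Real.exp_add]; congr 1; rw [P.cs m]; ring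
      have hN0 : 0 ≤ P.N (m + 1) (x - x') := N_nonneg _ _
      calc Real.exp (P.c m) * P.N m (Gi m x - it G m (iti Gi n v'))
          ≤ Real.exp (P.c m) * (Real.exp (P.kx m + P.ky m) *
            (1 + A * Real.exp (-P.τ * P.M m)) * P.N (m + 1) (x - x')) :=
            mul_le_mul_of_nonneg_left hl (Real.exp_pos _).le
        _ = (1 + A * Real.exp (-P.τ * P.M m)) * (Real.exp (P.c (m + 1)) *
            P.N (m + 1) (x - x')) := by rw [← hcs]; ring
        _ ≤ Real.exp (A * Real.exp (-P.τ * P.M m)) * (Real.exp (A * Rt P (m + 1)) *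
            (2 * E' * Real.exp (-P.τ * P.M n))) := by
            gcongr
        _ = (Real.exp (A * Real.exp (-P.τ * P.M m)) * Real.exp (A * Rt P (m + 1))) *
            (2 * E' * Real.exp (-P.τ * P.M n)) := by ring
        _ = _ := by
            rw [← Real.exp_add, Rt_succ (P := P) m]
            congr 2
            ring
  intro m hm2 hmn
  have hc := claim (n - m) m (by omega) hm2
  have hAR : Real.exp (A * Rt P m) ≤ W := by
    rw [hW]; apply Real.exp_le_exp.mpr
    exact mul_le_mul_of_nonneg_left (Rt_le _) hA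
  calc P.N m (it G m (iti Gi n v) - it G m (iti Gi n v'))
      = (Real.exp (P.c m) * P.N m (it G m (iti Gi n v) - it G m (iti Gi n v'))) *
          Real.exp (-P.c m) := by
        rw [mul_right_comm, hcc, one_mul]
    _ ≤ (W * (2 * E' * Real.exp (-P.τ * P.M n))) * Real.exp (-P.c m) := by
        apply mul_le_mul_of_nonneg_right _ (Real.exp_pos _).le
        refine hc.trans ?_
        gcongr
    _ = _ := by ring

end Pool.Agent.Lib.MP_b771e3_an
end

section

set_option autoImplicit false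

open Filter Topology

namespace Pool.Agent.Lib.MP_b771e3_an

variable {P : PD} {F G Gi H : ℕ → ℂ × ℂ → ℂ × ℂ}

private theorem exp_k_le (P : PD) (n : ℕ) : Real.exp (P.kx n + P.ky n) ≤ Real.exp P.b := by
  apply Real.exp_le_exp.2
  rcases P.kxy n with h | h
  · rw [h, zero_add]; exact P.kyb n
  · rw [h, add_zero]; exact P.kxb n

private theorem N_zero (P : PD) (n : ℕ) : P.N n 0 = 0 := by
  simp [PD.N]

private theorem err_nonneg (P : PD) (n : ℕ) :
    0 ≤ Real.exp (-P.c n) * Real.exp (-P.τ * P.M n) := by positivity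

private theorem exp_M_le_one (P : PD) (n : ℕ) : Real.exp (-P.τ * P.M n) ≤ 1 := by
  apply Real.exp_le_one_iff.2
  have := P.M_pos n
  have := P.hτ
  nlinarith

private theorem exp_c_le_one (P : PD) (n : ℕ) : Real.exp (-P.c n) ≤ 1 := by
  apply Real.exp_le_one_iff.2
  have := P.c_nonneg n
  linarith

/-- The pull back of the next point is close to the present point. -/
private theorem step_close (T : Trans P F G Gi H) (K E : ℝ) (hE : 0 ≤ E) :
    ∃ n₁ : ℕ, ∃ E' : ℝ, E ≤ E' ∧ ∀ n, n₁ ≤ n → ∀ o o' : ℂ × ℂ, P.N n o ≤ K →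
      P.N (n + 1) (o' - G n o) ≤ E * (Real.exp (-P.c n) * Real.exp (-P.τ * P.M n)) →
      P.N n (Gi n o' - o) ≤ E' * (Real.exp (-P.c n) * Real.exp (-P.τ * P.M n)) := by
  obtain ⟨A, n₀, hA, hlip⟩ := T.lip K
  have ht : Tendsto (fun n => E * Real.exp (-P.τ * P.M n)) atTop (𝓝 (E * 0)) :=
    (tendsto_exp_M (P := P)).const_mul E
  rw [mul_zero] at ht
  obtain ⟨n₂, hn₂⟩ := eventually_atTop.1 (ht.eventually_le_const
    (show (0 : ℝ) < Real.exp (-P.b) / 4 by positivity))
  refine ⟨max n₀ n₂, max E (Real.exp P.b * (1 + A) * E), le_max_left _ _, ?_⟩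
  intro n hn o o' ho herr
  have hn0 : n₀ ≤ n := (le_max_left _ _).trans hn
  have hn2 : n₂ ≤ n := (le_max_right _ _).trans hn
  have hsm : P.N (n + 1) (o' - G n o) ≤ Real.exp (-P.b) / 4 := by
    refine herr.trans (le_trans ?_ (hn₂ n hn2))
    have h1 := exp_c_le_one P n
    have h2 : 0 ≤ E * Real.exp (-P.τ * P.M n) := by positivity
    calc E * (Real.exp (-P.c n) * Real.exp (-P.τ * P.M n))
        = Real.exp (-P.c n) * (E * Real.exp (-P.τ * P.M n)) := by ring
      _ ≤ 1 * (E * Real.exp (-P.τ * P.M n)) := by gcongr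
      _ = _ := one_mul _
  have h := hlip n hn0 o o' ho hsm
  have hk := exp_k_le P n
  have hM1 := exp_M_le_one P n
  have hN0 : 0 ≤ P.N (n + 1) (o' - G n o) := N_nonneg _ _
  have herr0 := err_nonneg P n
  calc P.N n (Gi n o' - o) ≤ Real.exp (P.kx n + P.ky n) * (1 + A * Real.exp (-P.τ * P.M n)) *
        P.N (n + 1) (o' - G n o) := h
    _ ≤ Real.exp P.b * (1 + A * 1) *
        (E * (Real.exp (-P.c n) * Real.exp (-P.τ * P.M n))) := by gcongr
    _ = (Real.exp P.b * (1 + A) * E) * (Real.exp (-P.c n) * Real.exp (-P.τ * P.M n)) := by ring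
    _ ≤ max E (Real.exp P.b * (1 + A) * E) *
        (Real.exp (-P.c n) * Real.exp (-P.τ * P.M n)) := by
        gcongr
        exact le_max_right _ _

/-- Convergence. -/
theorem transX (T : Trans P F G Gi H) (hGi : ∀ n, Continuous (Gi n)) (U : Set (ℂ × ℂ))
    (n₀ : ℕ) (K : ℝ) (hU : ∀ z ∈ U, ∀ n, n₀ ≤ n → P.N n (it F n z) ≤ K) :
    ∃ n₁ : ℕ, ∃ K₁ : ℝ, ∃ Θ : ℂ × ℂ → ℂ × ℂ,
      TendstoUniformlyOn (fun n z => it G n₁ (iti Gi n (H n (it F n z)))) Θ atTop U ∧
      ∀ m, n₁ ≤ m → ∀ n, m ≤ n → ∀ z ∈ U, P.N m (it G m (iti Gi n (H n (it F n z)))) ≤ K₁ := by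
  obtain ⟨K', nh, hH⟩ := T.hb K
  obtain ⟨A, ne, hA, herr⟩ := T.err K
  obtain ⟨ns, E, hAE, hstep⟩ := step_close T K' A hA
  obtain ⟨n₁, B, hB, hs1⟩ := shadow T K' E
  obtain ⟨n₂, B', hB', hs2⟩ := shadow2 T K' E
  have hE : 0 ≤ E := hA.trans hAE
  -- the starting level
  set N₀ : ℕ := max (max (max n₀ nh) (max ne ns)) (max n₁ n₂) with hN₀
  have l0 : n₀ ≤ N₀ := (le_max_left _ _).trans ((le_max_left _ _).trans (le_max_left _ _))
  have lh : nh ≤ N₀ := (le_max_right _ _).trans ((le_max_left _ _).trans (le_max_left _ _))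
  have le' : ne ≤ N₀ := (le_max_left _ _).trans ((le_max_right _ _).trans (le_max_left _ _))
  have ls : ns ≤ N₀ := (le_max_right _ _).trans ((le_max_right _ _).trans (le_max_left _ _))
  have l1 : n₁ ≤ N₀ := (le_max_left _ _).trans (le_max_right _ _)
  have l2 : n₂ ≤ N₀ := (le_max_right _ _).trans (le_max_right _ _)
  -- facts on the orbit
  have ho : ∀ z ∈ U, ∀ m, N₀ ≤ m → P.N m (H m (it F m z)) ≤ K' := fun z hz m hm =>
    hH m (lh.trans hm) _ (hU z hz m (l0.trans hm))
  have hoe : ∀ z ∈ U, ∀ m, N₀ ≤ m →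
      P.N (m + 1) (H (m + 1) (it F (m + 1) z) - G m (H m (it F m z))) ≤
        A * (Real.exp (-P.c m) * Real.exp (-P.τ * P.M m)) := fun z hz m hm =>
    herr m (le'.trans hm) _ (hU z hz m (l0.trans hm))
  have hoE : ∀ z ∈ U, ∀ m, N₀ ≤ m →
      P.N (m + 1) (H (m + 1) (it F (m + 1) z) - G m (H m (it F m z))) ≤
        E * (Real.exp (-P.c m) * Real.exp (-P.τ * P.M m)) := fun z hz m hm =>
    (hoe z hz m hm).trans (mul_le_mul_of_nonneg_right hAE (err_nonneg P m))
  have hself : ∀ z ∈ U, ∀ n, N₀ ≤ n →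
      P.N n (H n (it F n z) - H n (it F n z)) ≤
        E * (Real.exp (-P.c n) * Real.exp (-P.τ * P.M n)) := by
    intro z _ n _
    rw [sub_self, N_zero]
    exact mul_nonneg hE (err_nonneg P n)
  -- Cauchy property
  have hcauchy : ∀ z ∈ U, ∀ n, N₀ ≤ n →
      ‖it G N₀ (iti Gi (n + 1) (H (n + 1) (it F (n + 1) z))) -
        it G N₀ (iti Gi n (H n (it F n z)))‖ ≤
        Real.exp (-P.M N₀) * (B' * Real.exp (-P.c N₀)) * Real.exp (-P.τ * P.M n) := by
    intro z hz n hn
    have h := hs2 N₀ l2 (fun m => H m (it F m z)) n (Gi n (H (n + 1) (it F (n + 1) z)))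
      (H n (it F n z)) hn (fun m hm _ => ho z hz m hm) (fun m hm _ => hoE z hz m hm)
      (hstep n (ls.trans hn) _ _ (ho z hz n hn) (hoe z hz n hn)) (hself z hz n hn) N₀ le_rfl hn
    refine (norm_le_N (P := P) N₀ _).trans ?_
    have : P.N N₀ (it G N₀ (iti Gi (n + 1) (H (n + 1) (it F (n + 1) z))) -
        it G N₀ (iti Gi n (H n (it F n z)))) ≤
        B' * Real.exp (-P.c N₀) * Real.exp (-P.τ * P.M n) := h
    calc _ ≤ Real.exp (-P.M N₀) * (B' * Real.exp (-P.c N₀) * Real.exp (-P.τ * P.M n)) := by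
          gcongr
      _ = _ := by ring
  -- the limit
  set a : ℕ → ℂ × ℂ → ℂ × ℂ := fun n z => it G N₀ (iti Gi n (H n (it F n z))) with ha
  have hsum : Summable fun k : ℕ =>
      Real.exp (-P.M N₀) * (B' * Real.exp (-P.c N₀)) * Real.exp (-P.τ * P.M (k + N₀)) :=
    ((summable_nat_add_iff N₀).2 (summable_exp_M (P := P))).mul_left _
  have hunif := tendstoUniformlyOn_tsum_nat (f := fun k z => a (k + N₀ + 1) z - a (k + N₀) z)
    hsum (s := U) (fun k z hz => hcauchy z hz (k + N₀) (Nat.le_add_left _ _))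
  refine ⟨N₀, 1 + K', fun z => a N₀ z + ∑' k, (a (k + N₀ + 1) z - a (k + N₀) z), ?_, ?_⟩
  · rw [Metric.tendstoUniformlyOn_iff] at hunif ⊢
    intro ε hε
    obtain ⟨n₃, hn₃⟩ := eventually_atTop.1 (hunif ε hε)
    refine eventually_atTop.2 ⟨n₃ + N₀, fun n hn z hz => ?_⟩
    obtain ⟨k, rfl⟩ : ∃ k, n = k + N₀ := ⟨n - N₀, by omega⟩
    have h := hn₃ k (by omega) z hz
    have hs : ∑ j ∈ Finset.range k, (a (j + N₀ + 1) z - a (j + N₀) z) = a (k + N₀) z - a N₀ z := by
      have := Finset.sum_range_sub (fun j => a (j + N₀) z) k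
      simp only [zero_add] at this
      rw [← this]
      apply Finset.sum_congr rfl
      intro j _
      rw [show j + 1 + N₀ = j + N₀ + 1 by ring]
    rw [hs] at h
    rw [dist_eq_norm] at h ⊢
    convert h using 2
    simp only [ha]
    abel
  · intro m hm n hn z hz
    have hn' : N₀ ≤ n := hm.trans hn
    have h := (hs1 N₀ l1 (fun m => H m (it F m z)) n (H n (it F n z)) hn'
      (fun m hm _ => ho z hz m hm) (fun m hm _ => hoE z hz m hm) (hself z hz n hn') m hm hn).1
    have h2 := N_add (P := P) m (it G m (iti Gi n (H n (it F n z))) - H m (it F m z))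
      (H m (it F m z))
    rw [sub_add_cancel] at h2
    have h3 := ho z hz m hm
    exact h2.trans (add_le_add h h3)

private theorem continuous_iti (hGi : ∀ n, Continuous (Gi n)) (n : ℕ) : Continuous (iti Gi n) := by
  induction n with
  | zero => exact continuous_id
  | succ n ih => exact ih.comp (hGi n)

/-- Pull back of an error. -/
theorem transY (T : Trans P F G Gi H) (hGi : ∀ n, Continuous (Gi n)) (w : ℂ × ℂ) (n₀ : ℕ)
    (K E : ℝ) (hw : ∀ n, n₀ ≤ n → P.N n (it G n w) ≤ K) (v : ℕ → ℂ × ℂ)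
    (hv : ∀ n, n₀ ≤ n → P.N n (v n - it G n w) ≤
      E * (Real.exp (-P.c n) * Real.exp (-P.τ * P.M n))) :
    Tendsto (fun n => iti Gi n (v n)) atTop (𝓝 w) := by
  obtain ⟨n₁, B, hB, hs⟩ := shadow2 T K (max E 0)
  set N₀ := max n₀ n₁ with hN₀
  have l0 : n₀ ≤ N₀ := le_max_left _ _
  have l1 : n₁ ≤ N₀ := le_max_right _ _
  have key : ∀ n, N₀ ≤ n → ‖it G N₀ (iti Gi n (v n)) - it G N₀ w‖ ≤
      Real.exp (-P.M N₀) * (B * Real.exp (-P.c N₀)) * Real.exp (-P.τ * P.M n) := by
    intro n hn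
    have h := hs N₀ l1 (fun m => it G m w) n (v n) (it G n w) hn
      (fun m hm _ => hw m (l0.trans hm))
      (fun m hm _ => by
        show P.N (m + 1) (it G (m + 1) w - G m (it G m w)) ≤ _
        have : it G (m + 1) w = G m (it G m w) := rfl
        rw [this, sub_self, N_zero]
        exact mul_nonneg (le_max_right _ _) (err_nonneg P m))
      ((hv n (l0.trans hn)).trans (mul_le_mul_of_nonneg_right (le_max_left _ _) (err_nonneg P n)))
      (by
        show P.N n (it G n w - it G n w) ≤ _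
        rw [sub_self, N_zero]
        exact mul_nonneg (le_max_right _ _) (err_nonneg P n))
      N₀ le_rfl hn
    rw [iti_it T.gl] at h
    refine (norm_le_N (P := P) N₀ _).trans ?_
    calc _ ≤ Real.exp (-P.M N₀) * (B * Real.exp (-P.c N₀) * Real.exp (-P.τ * P.M n)) := by
          gcongr
      _ = _ := by ring
  have ht : Tendsto (fun n => it G N₀ (iti Gi n (v n))) atTop (𝓝 (it G N₀ w)) := by
    rw [tendsto_iff_norm_sub_tendsto_zero]
    have hz : Tendsto (fun n => Real.exp (-P.M N₀) * (B * Real.exp (-P.c N₀)) *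
        Real.exp (-P.τ * P.M n)) atTop (𝓝 0) := by
      have := (tendsto_exp_M (P := P)).const_mul
        (Real.exp (-P.M N₀) * (B * Real.exp (-P.c N₀)))
      rwa [mul_zero] at this
    refine squeeze_zero' (Eventually.of_forall fun n => norm_nonneg _) ?_ hz
    exact eventually_atTop.2 ⟨N₀, key⟩
  have := ((continuous_iti hGi N₀).tendsto _).comp ht
  rw [iti_it T.gl] at this
  refine this.congr fun n => ?_
  simp only [Function.comp]
  rw [iti_it T.gl]

end Pool.Agent.Lib.MP_b771e3_an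
end

section

set_option autoImplicit false

open Filter Topology

namespace Pool.Agent.Lib.MP_b771e3_an

/-- Bounded solution of `p n = s n + m n * p (n+1)`. -/
theorem rec_bounded (s m : ℕ → ℂ) (B q : ℝ) (hB : 0 ≤ B) (hq : 0 ≤ q) (hq1 : q < 1)
    (hs : ∀ n, ‖s n‖ ≤ B) (hm : ∀ n, ‖m n‖ ≤ q) :
    ∃ p : ℕ → ℂ, (∀ n, ‖p n‖ ≤ B / (1 - q)) ∧ ∀ n, p n = s n + m n * p (n + 1) := by
  have hterm : ∀ n k : ℕ, ‖(∏ j ∈ Finset.range k, m (n + j)) * s (n + k)‖ ≤ B * q ^ k := by
    intro n k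
    rw [norm_mul, norm_prod]
    have h1 : ∏ j ∈ Finset.range k, ‖m (n + j)‖ ≤ q ^ k := by
      calc ∏ j ∈ Finset.range k, ‖m (n + j)‖ ≤ ∏ _j ∈ Finset.range k, q :=
            Finset.prod_le_prod (fun _ _ => norm_nonneg _) (fun _ _ => hm _)
        _ = q ^ k := by simp
    calc (∏ j ∈ Finset.range k, ‖m (n + j)‖) * ‖s (n + k)‖ ≤ q ^ k * B :=
          mul_le_mul h1 (hs _) (norm_nonneg _) (pow_nonneg hq k)
      _ = B * q ^ k := mul_comm _ _
  have hgeo : HasSum (fun k : ℕ => B * q ^ k) (B / (1 - q)) := by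
    have := (hasSum_geometric_of_lt_one hq hq1).mul_left B
    rwa [← div_eq_mul_inv] at this
  have hsum : ∀ n, Summable fun k => (∏ j ∈ Finset.range k, m (n + j)) * s (n + k) := fun n =>
    Summable.of_norm_bounded hgeo.summable (hterm n)
  refine ⟨fun n => ∑' k, (∏ j ∈ Finset.range k, m (n + j)) * s (n + k), fun n => ?_, fun n => ?_⟩
  · exact tsum_of_norm_bounded hgeo (hterm n)
  · have h1 := (hsum n).tsum_eq_zero_add
    simp only [Finset.range_zero, Finset.prod_empty, one_mul, add_zero] at h1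
    show ∑' k, (∏ j ∈ Finset.range k, m (n + j)) * s (n + k) = s n +
      m n * ∑' k, (∏ j ∈ Finset.range k, m (n + 1 + j)) * s (n + 1 + k)
    rw [h1, ← tsum_mul_left]
    congr 1
    refine tsum_congr fun k => ?_
    rw [Finset.prod_range_succ']
    have h2 : ∀ j, n + (j + 1) = n + 1 + j := fun j => by ring
    have h3 : ∏ j ∈ Finset.range k, m (n + (j + 1)) = ∏ j ∈ Finset.range k, m (n + 1 + j) :=
      Finset.prod_congr rfl fun j _ => by rw [h2 j]
    rw [h3, h2 k, add_zero]
    ring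

/-- Existence of the conjugacy: `p1 n = a1 n / lam n + lam n * p1 (n+1)`,
`p2 n = b1 n / lam n + mu n * p2 (n+1)`, `q1 n = b2 n / mu n + lam n * q1 (n+1)`,
`q2 n = a2 n / mu n + mu n * q2 (n+1)`. -/
theorem exists_Conj {P : PD} (D : Dyn P) : Nonempty (Conj D) := by
  have hA0 : 0 ≤ D.A := zero_le_one.trans D.hA
  have hq0 : 0 ≤ Real.exp (-P.a) := (Real.exp_pos _).le
  have hq1 : Real.exp (-P.a) < 1 := by
    rw [Real.exp_lt_one_iff]
    have := P.ha
    linarith
  have hlam : ∀ n, ‖D.lam n‖ ≤ Real.exp (-P.a) := by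
    intro n
    rw [D.hlam n]
    exact Real.exp_le_exp.mpr (by have := (P.hX n).1; linarith)
  have hmu : ∀ n, ‖D.mu n‖ ≤ Real.exp (-P.a) := by
    intro n
    rw [D.hmu n]
    exact Real.exp_le_exp.mpr (by have := (P.hY n).1; linarith)
  have hlam0 : ∀ n, D.lam n ≠ 0 := by
    intro n h
    have := D.hlam n
    rw [h, norm_zero] at this
    exact (Real.exp_pos _).ne this
  have hmu0 : ∀ n, D.mu n ≠ 0 := by
    intro n h
    have := D.hmu n
    rw [h, norm_zero] at this
    exact (Real.exp_pos _).ne this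
  have hdl : ∀ (n : ℕ) (z : ℂ), ‖z‖ ≤ D.A → ‖z / D.lam n‖ ≤ D.A * Real.exp P.b := by
    intro n z hz
    rw [norm_div, D.hlam n, Real.exp_neg, div_inv_eq_mul]
    exact mul_le_mul hz (Real.exp_le_exp.mpr (P.hX n).2) (Real.exp_pos _).le hA0
  have hdm : ∀ (n : ℕ) (z : ℂ), ‖z‖ ≤ D.A → ‖z / D.mu n‖ ≤ D.A * Real.exp P.b := by
    intro n z hz
    rw [norm_div, D.hmu n, Real.exp_neg, div_inv_eq_mul]
    exact mul_le_mul hz (Real.exp_le_exp.mpr (P.hY n).2) (Real.exp_pos _).le hA0
  have hB0 : 0 ≤ D.A * Real.exp P.b := mul_nonneg hA0 (Real.exp_pos _).le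
  obtain ⟨p1, hp1, ep1⟩ := rec_bounded (fun n => D.a1 n / D.lam n) D.lam _ _ hB0 hq0 hq1
    (fun n => hdl n _ (D.ha1 n)) hlam
  obtain ⟨p2, hp2, ep2⟩ := rec_bounded (fun n => D.b1 n / D.lam n) D.mu _ _ hB0 hq0 hq1
    (fun n => hdl n _ (D.hb1 n)) hmu
  obtain ⟨q1, hq1', eq1⟩ := rec_bounded (fun n => D.b2 n / D.mu n) D.lam _ _ hB0 hq0 hq1
    (fun n => hdm n _ (D.hb2 n)) hlam
  obtain ⟨q2, hq2', eq2⟩ := rec_bounded (fun n => D.a2 n / D.mu n) D.mu _ _ hB0 hq0 hq1
    (fun n => hdm n _ (D.ha2 n)) hmu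
  refine ⟨⟨max 1 (D.A * Real.exp P.b / (1 - Real.exp (-P.a))), le_max_left _ _, p1, p2, q1, q2,
    fun n => (hp1 n).trans (le_max_right _ _), fun n => (hp2 n).trans (le_max_right _ _),
    fun n => (hq1' n).trans (le_max_right _ _), fun n => (hq2' n).trans (le_max_right _ _),
    fun n => ?_, fun n => ?_, fun n => ?_, fun n => ?_⟩⟩
  · rw [ep1 n, mul_add, mul_div_cancel₀ _ (hlam0 n)]
    ring
  · rw [ep2 n, mul_add, mul_div_cancel₀ _ (hlam0 n)]
    ring
  · rw [eq1 n, mul_add, mul_div_cancel₀ _ (hmu0 n)]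
    ring
  · rw [eq2 n, mul_add, mul_div_cancel₀ _ (hmu0 n)]
    ring

end Pool.Agent.Lib.MP_b771e3_an
end
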