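import Mathlib
import Pool.Agent.Lib.MP_b771e3_an.Grow
import Pool.Agent.Lib.MP_b771e3_an.Mg.G001
import Pool.Agent.Lib.MP_b771e3_an.Mg.G002
import Pool.Agent.Lib.MP_b771e3_an.Mg.G003
import Pool.Agent.Lib.MP_b771e3_an.Mg.G005

section

set_option autoImplicit false

open Filter Topology

namespace Pool.Agent.Lib.MP_b771e3_an

theorem growth_swap_I2 (P : PD) (n : ℕ) : P.swap.I2 n = P.J2 n := by
  have hM : P.swap.M n = P.M n := min_comm _ _
  unfold PD.I2 PD.J2
  rw [hM]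
  rfl

theorem growth_swap_J2 (P : PD) (n : ℕ) : P.swap.J2 n = P.I2 n := by
  have hM : P.swap.M n = P.M n := min_comm _ _
  unfold PD.I2 PD.J2
  rw [hM]
  rfl

theorem growth_swap_I3 (P : PD) (n : ℕ) : P.swap.I3 n = P.J3 n := by
  unfold PD.I3 PD.J3
  rw [growth_swap_I2]
  rfl

theorem growth_swap_J3 (P : PD) (n : ℕ) : P.swap.J3 n = P.I3 n := by
  unfold PD.I3 PD.J3
  rw [growth_swap_J2]
  rfl

/-- The initial invariant. -/
theorem growth_start (P : PD) (R S W : ℕ → ℝ) (K : ℝ) (n : ℕ) (hW0 : ∀ n, 0 ≤ W n)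
    (hJ : ¬ P.J2 n) (hI : 7 / 2 * P.c n ≤ 4 * P.ξ n - P.η n)
    (hn1 : 215 / 100 * (31 / 10 * (1000 * (P.b + 1))) ≤ 4 / 7 * (1 + P.a * n))
    (hn2 : 212 / 100 * (1000 * (P.b + 1)) ≤ 99 * P.τ * (1 + P.a * n))
    (hRK : R n ≤ Real.exp (K * (1000 * (P.b + 1)) ^ sg))
    (hSK : S n ≤ Real.exp (K * (1000 * (P.b + 1)) ^ sg)) :
    Inv P R S W K n (31 / 10 * (1000 * (P.b + 1))) (1000 * (P.b + 1)) 3 := by
  have hb := P.bpos
  have hl := P.lower n
  have hτ := P.hτ
  have hτ1 := P.hτ1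
  have hc2 := P.cone2 n
  have hcη := P.cη n
  have ha := P.ha
  have hn0 : (0 : ℝ) ≤ n := Nat.cast_nonneg n
  have hξ : 0 < P.ξ n := by nlinarith [hl.1]
  refine ⟨Or.inr rfl, hJ, hI, ?_, ?_, by linarith, fun h => absurd h (by norm_num),
    fun _ => le_rfl, le_rfl, hSK, ?_⟩
  · have h1 : 2 * P.ξ n ≤ 4 * P.ξ n - P.η n := by nlinarith
    linarith [hl.1]
  · have h1 : 99 * P.τ * (1 + P.a * n) ≤ 99 * P.τ * P.η n :=
      mul_le_mul_of_nonneg_left hl.2 (by linarith)
    linarith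
  · refine hRK.trans ?_
    have : 0 ≤ W n * (Real.exp (K * (1000 * (P.b + 1)) ^ sg) ^ 2 +
        (if 3 = 3 then Real.exp (K * (1000 * (P.b + 1)) ^ sg) ^ 3 else 0)) := by
      refine mul_nonneg (hW0 n) ?_
      rw [if_pos rfl]
      positivity
    linarith

/-- The bound given by the invariant. -/
theorem growth_bound (P : PD) (R S W : ℕ → ℝ) (K Wt : ℝ) (hK : 0 ≤ K) (hW0 : ∀ n, 0 ≤ W n)
    (hWt : ∀ n, W n ≤ Wt) (n : ℕ) (u v : ℝ) (m : ℕ) (h : Inv P R S W K n u v m) :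
    R n ≤ (1 + 2 * Wt) * Real.exp (3 * (K * (1 + P.b * n) ^ sg)) ∧
    S n ≤ (1 + 2 * Wt) * Real.exp (3 * (K * (1 + P.b * n) ^ sg)) := by
  have hb := P.bpos
  have hWt0 : 0 ≤ Wt := (hW0 0).trans (hWt 0)
  have hv0 : 0 ≤ v := le_trans (by linarith) h.hv
  have hv1 : v ≤ 1 + P.b * n := by
    have h1 := h.hY
    have h2 := (P.upper n).2
    have h3 := P.c_nonneg n
    linarith
  set E := Real.exp (K * v ^ sg) with hE
  set E' := Real.exp (K * (1 + P.b * n) ^ sg) with hE'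
  have hEE' : E ≤ E' := by
    refine Real.exp_le_exp.mpr (mul_le_mul_of_nonneg_left ?_ hK)
    exact Real.rpow_le_rpow hv0 hv1 (by norm_num [sg])
  have hE1 : 1 ≤ E := Real.one_le_exp (mul_nonneg hK (Real.rpow_nonneg hv0 _))
  have hE3 : Real.exp (3 * (K * (1 + P.b * n) ^ sg)) = E' ^ 3 := by
    rw [hE', ← Real.exp_nat_mul]
    norm_num
  have hE0 : 0 < E := Real.exp_pos _
  have hcube : E ^ 3 ≤ E' ^ 3 := pow_le_pow_left₀ hE0.le hEE' 3
  have h13 : E ≤ E ^ 3 := by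
    calc E = E ^ 1 := (pow_one E).symm
      _ ≤ E ^ 3 := pow_le_pow_right₀ hE1 (by norm_num)
  have h23 : E ^ 2 ≤ E ^ 3 := pow_le_pow_right₀ hE1 (by norm_num)
  have hE3' : 0 ≤ E ^ 3 := by positivity
  rw [hE3]
  have hfin : (1 + 2 * Wt) * E ^ 3 ≤ (1 + 2 * Wt) * E' ^ 3 :=
    mul_le_mul_of_nonneg_left hcube (by linarith)
  constructor
  · refine le_trans ?_ hfin
    have h1 := h.hR
    have h2 : E ^ 2 + (if m = 3 then E ^ 3 else 0) ≤ 2 * E ^ 3 := by
      split_ifs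
      · linarith
      · linarith
    have h2' : 0 ≤ E ^ 2 + (if m = 3 then E ^ 3 else 0) := by
      split_ifs <;> positivity
    have h3 : W n * (E ^ 2 + (if m = 3 then E ^ 3 else 0)) ≤ Wt * (2 * E ^ 3) :=
      mul_le_mul (hWt n) h2 h2' hWt0
    have h4 : R n ≤ E + W n * (E ^ 2 + (if m = 3 then E ^ 3 else 0)) := h1
    nlinarith
  · refine le_trans ?_ hfin
    have h1 : S n ≤ E := h.hS
    nlinarith [mul_nonneg hWt0 hE3']

open Classical in
/-- Subexponential growth of the deficits. -/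
theorem growth (P : PD) (w R S : ℕ → ℝ) (hw : ∀ n, 0 ≤ w n) (hws : Summable w)
    (hR0 : ∀ n, 0 ≤ R n) (hS0 : ∀ n, 0 ≤ S n)
    (hR : ∀ n, R (n + 1) ≤ R n + w n * ((if P.I2 n then S n ^ 2 else 0) +
      (if P.I3 n then S n ^ 3 else 0)))
    (hS : ∀ n, S (n + 1) ≤ S n + w n * ((if P.J2 n then R n ^ 2 else 0) +
      (if P.J3 n then R n ^ 3 else 0))) :
    ∀ ε : ℝ, 0 < ε → ∃ n₀ : ℕ, ∀ n, n₀ ≤ n → R n ≤ Real.exp (ε * n) ∧ S n ≤ Real.exp (ε * n) := by
  intro ε hε
  have hb := P.bpos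
  have ha := P.ha
  have hτ := P.hτ
  set W : ℕ → ℝ := fun n => ∑ i ∈ Finset.range n, w i with hWdef
  have hW0 : ∀ n, 0 ≤ W n := fun n => Finset.sum_nonneg fun i _ => hw i
  have hWt : ∀ n, W n ≤ ∑' i, w i := fun n => hws.sum_le_tsum _ fun i _ => hw i
  have hWs : ∀ n, W (n + 1) = W n + w n := fun n => Finset.sum_range_succ _ _
  set Wt := ∑' i, w i with hWtdef
  have hWt0 : 0 ≤ Wt := (hW0 0).trans (hWt 0)
  -- the starting time
  obtain ⟨n₁, hn₁⟩ := exists_nat_ge (215 / 100 * (31 / 10 * (1000 * (P.b + 1))) * (7 / 4) / P.a)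
  obtain ⟨n₂, hn₂⟩ := exists_nat_ge (212 / 100 * (1000 * (P.b + 1)) / (99 * P.τ) / P.a)
  set N := max n₁ n₂ with hN
  have hN1 : 215 / 100 * (31 / 10 * (1000 * (P.b + 1))) ≤ 4 / 7 * (1 + P.a * N) := by
    have h1 : ((n₁ : ℕ) : ℝ) ≤ N := by exact_mod_cast le_max_left _ _
    have h2 := hn₁.trans h1
    rw [div_le_iff₀ ha] at h2
    linarith
  have hN2 : 212 / 100 * (1000 * (P.b + 1)) ≤ 99 * P.τ * (1 + P.a * N) := by
    have h1 : ((n₂ : ℕ) : ℝ) ≤ N := by exact_mod_cast le_max_right _ _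
    have h2 := hn₂.trans h1
    rw [div_le_iff₀ ha, div_le_iff₀ (by linarith)] at h2
    nlinarith
  -- the constant
  have hv0 : 1 ≤ (1000 * (P.b + 1)) ^ sg := Real.one_le_rpow (by linarith) (by norm_num [sg])
  set K : ℝ := R N + S N + 100 * (1 + 2 * Wt) with hKdef
  have hK0 : 0 ≤ K := by
    have := hR0 N
    have := hS0 N
    linarith
  have hexp : ∀ t : ℝ, t ≤ K → t ≤ Real.exp (K * (1000 * (P.b + 1)) ^ sg) := by
    intro t ht
    have h1 : K ≤ K * (1000 * (P.b + 1)) ^ sg := le_mul_of_one_le_right hK0 hv0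
    have h2 := Real.add_one_le_exp (K * (1000 * (P.b + 1)) ^ sg)
    linarith
  have hRK := hexp (R N) (by linarith [hS0 N])
  have hSK := hexp (S N) (by linarith [hR0 N])
  have hKW : 1 + 2 * Wt ≤ Real.exp (3 / 100 * K) := by
    have h2 := Real.add_one_le_exp (3 / 100 * K)
    have := hR0 N
    have := hS0 N
    linarith
  -- the invariant holds from time `N` on
  have hinv : ∀ k : ℕ, ∃ u v m, Inv P R S W K (N + k) u v m ∨ Inv P.swap S R W K (N + k) u v m := by
    intro k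
    induction k with
    | zero =>
      rcases P.state N with ⟨h1, h2⟩ | ⟨h1, h2⟩
      · exact ⟨_, _, _, Or.inl (growth_start P R S W K N hW0 h1 h2 hN1 hN2 hRK hSK)⟩
      · refine ⟨_, _, _, Or.inr (growth_start P.swap S R W K N hW0 ?_ h2 hN1 hN2 hSK hRK)⟩
        rw [growth_swap_J2]
        exact h1
    | succ k ih =>
      obtain ⟨u, v, m, h | h⟩ := ih
      · rcases inv_step P R S W w K Wt hK0 hW0 hWt hWs hw hKW hR0 hS0 (N + k) (hR _) (hS _) u v m h
          with ⟨u', m', h'⟩ | ⟨u', h'⟩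
        · exact ⟨_, _, _, Or.inl h'⟩
        · exact ⟨_, _, _, Or.inr h'⟩
      · have hR' : S (N + k + 1) ≤ S (N + k) + w (N + k) *
            ((if P.swap.I2 (N + k) then R (N + k) ^ 2 else 0) +
              (if P.swap.I3 (N + k) then R (N + k) ^ 3 else 0)) := by
          simp only [growth_swap_I2, growth_swap_I3]
          exact hS _
        have hS' : R (N + k + 1) ≤ R (N + k) + w (N + k) *
            ((if P.swap.J2 (N + k) then S (N + k) ^ 2 else 0) +
              (if P.swap.J3 (N + k) then S (N + k) ^ 3 else 0)) := by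
          simp only [growth_swap_J2, growth_swap_J3]
          exact hR _
        rcases inv_step P.swap S R W w K Wt hK0 hW0 hWt hWs hw hKW hS0 hR0 (N + k) hR' hS' u v m h
          with ⟨u', m', h'⟩ | ⟨u', h'⟩
        · exact ⟨_, _, _, Or.inr h'⟩
        · exact ⟨_, _, _, Or.inl h'⟩
  have hbound : ∀ n, N ≤ n →
      R n ≤ (1 + 2 * Wt) * Real.exp (3 * (K * (1 + P.b * n) ^ sg)) ∧
      S n ≤ (1 + 2 * Wt) * Real.exp (3 * (K * (1 + P.b * n) ^ sg)) := by
    intro n hn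
    obtain ⟨k, rfl⟩ := Nat.exists_eq_add_of_le hn
    obtain ⟨u, v, m, h | h⟩ := hinv k
    · exact growth_bound P R S W K Wt hK0 hW0 hWt _ u v m h
    · exact (growth_bound P.swap S R W K Wt hK0 hW0 hWt _ u v m h).symm
  -- subexponential
  have htend : Tendsto (fun n : ℕ => (1 + P.b * (n : ℝ)) ^ (-(1 / 50 : ℝ))) atTop (𝓝 0) := by
    refine (tendsto_rpow_neg_atTop (by norm_num : (0 : ℝ) < 1 / 50)).comp ?_
    exact tendsto_atTop_add_const_left _ _ (tendsto_natCast_atTop_atTop.const_mul_atTop hb)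
  set δ : ℝ := ε / (2 * (3 * K * (1 + P.b) + 1)) with hδ
  have hden : 0 < 3 * K * (1 + P.b) + 1 := by positivity
  have hδ0 : 0 < δ := by positivity
  obtain ⟨n₃, hn₃⟩ := eventually_atTop.mp (htend.eventually (gt_mem_nhds hδ0))
  obtain ⟨n₄, hn₄⟩ := exists_nat_ge (2 * Real.log (1 + 2 * Wt) / ε)
  refine ⟨max (max N n₃) (max n₄ 1), fun n hn => ?_⟩
  have hnN : N ≤ n := (le_max_left _ _).trans ((le_max_left _ _).trans hn)
  have hn3 : n₃ ≤ n := (le_max_right _ _).trans ((le_max_left _ _).trans hn)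
  have hn4 : n₄ ≤ n := (le_max_left _ _).trans ((le_max_right _ _).trans hn)
  have hn1 : 1 ≤ n := (le_max_right _ _).trans ((le_max_right _ _).trans hn)
  have hn1' : (1 : ℝ) ≤ n := by exact_mod_cast hn1
  have hfin : (1 + 2 * Wt) * Real.exp (3 * (K * (1 + P.b * n) ^ sg)) ≤ Real.exp (ε * n) := by
    have hpos : 0 < 1 + 2 * Wt := by linarith
    have hlog : Real.log (1 + 2 * Wt) ≤ ε / 2 * n := by
      have h1 : 2 * Real.log (1 + 2 * Wt) / ε ≤ n := hn₄.trans (by exact_mod_cast hn4)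
      rw [div_le_iff₀ hε] at h1
      linarith
    have ht0 : 0 < 1 + P.b * n := by positivity
    have hpow : (1 + P.b * (n : ℝ)) ^ sg = (1 + P.b * n) * (1 + P.b * n) ^ (-(1 / 50 : ℝ)) := by
      have h1 : sg = 1 + -(1 / 50 : ℝ) := by norm_num [sg]
      rw [h1, Real.rpow_add ht0, Real.rpow_one]
    have hsmall := (hn₃ n hn3).le
    have h2 : 3 * (K * (1 + P.b * n) ^ sg) ≤ ε / 2 * n := by
      rw [hpow]
      have h3 : (1 + P.b * (n : ℝ)) ≤ (1 + P.b) * n := by nlinarith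
      have h4 : (1 + P.b * (n : ℝ)) * (1 + P.b * n) ^ (-(1 / 50 : ℝ)) ≤ ((1 + P.b) * n) * δ :=
        mul_le_mul h3 hsmall (Real.rpow_nonneg ht0.le _) (by positivity)
      have h5 : 3 * K * (1 + P.b) * δ ≤ ε / 2 := by
        rw [hδ]
        rw [show 3 * K * (1 + P.b) * (ε / (2 * (3 * K * (1 + P.b) + 1))) =
          (ε / 2) * (3 * K * (1 + P.b) / (3 * K * (1 + P.b) + 1)) by field_simp]
        have h6 : 3 * K * (1 + P.b) / (3 * K * (1 + P.b) + 1) ≤ 1 := by
          rw [div_le_one hden]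
          linarith
        nlinarith
      calc 3 * (K * ((1 + P.b * (n : ℝ)) * (1 + P.b * n) ^ (-(1 / 50 : ℝ)))) =
          3 * K * ((1 + P.b * (n : ℝ)) * (1 + P.b * n) ^ (-(1 / 50 : ℝ))) := by ring
        _ ≤ 3 * K * (((1 + P.b) * n) * δ) := mul_le_mul_of_nonneg_left h4 (by positivity)
        _ = (3 * K * (1 + P.b) * δ) * n := by ring
        _ ≤ ε / 2 * n := mul_le_mul_of_nonneg_right h5 (by positivity)
    calc (1 + 2 * Wt) * Real.exp (3 * (K * (1 + P.b * n) ^ sg)) =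
        Real.exp (Real.log (1 + 2 * Wt) + 3 * (K * (1 + P.b * n) ^ sg)) := by
          rw [Real.exp_add, Real.exp_log hpos]
      _ ≤ Real.exp (ε * n) := Real.exp_le_exp.mpr (by linarith)
  exact ⟨(hbound n hnN).1.trans hfin, (hbound n hnN).2.trans hfin⟩

end Pool.Agent.Lib.MP_b771e3_an
end

section

set_option autoImplicit false

open Filter Topology

namespace Pool.Agent.Lib.MP_b771e3_an

private theorem bddG_M_lower (P : PD) (n : ℕ) : P.a * n ≤ P.M n := by
  have h : 1 + P.a * n ≤ P.ξ n ∧ 1 + P.a * n ≤ P.η n := by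
    induction n with
    | zero => simp [P.ξ0, P.η0]
    | succ n ih =>
      have h1 := P.ξa n
      have h2 := P.ηa n
      push_cast
      constructor <;> linarith [ih.1, ih.2]
  unfold PD.M
  refine le_min ?_ ?_ <;> linarith [h.1, h.2]

open Classical in
/-- the majorant sequence -/
private noncomputable def bddG_maj (P : PD) (A ρ : ℝ) : ℕ → ℝ × ℝ
  | 0 => (ρ, ρ)
  | n + 1 => ((bddG_maj P A ρ n).1 + A * Real.exp (-(P.τ * P.M n)) *
      ((if P.I2 n then (bddG_maj P A ρ n).2 ^ 2 else 0) +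
        (if P.I3 n then (bddG_maj P A ρ n).2 ^ 3 else 0)),
    (bddG_maj P A ρ n).2 + A * Real.exp (-(P.τ * P.M n)) *
      ((if P.J2 n then (bddG_maj P A ρ n).1 ^ 2 else 0) +
        (if P.J3 n then (bddG_maj P A ρ n).1 ^ 3 else 0)))

private theorem bddG_ite_nonneg (p q : Prop) [Decidable p] [Decidable q] (x : ℝ) (hx : 0 ≤ x) :
    0 ≤ (if p then x ^ 2 else 0) + (if q then x ^ 3 else 0) := by
  have h1 : 0 ≤ x ^ 2 := by positivity
  have h2 : 0 ≤ x ^ 3 := by positivity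
  split_ifs <;> linarith

private theorem bddG_ite_le (p q : Prop) [Decidable p] [Decidable q] (x : ℝ) (hx : 0 ≤ x) :
    (if p then x ^ 2 else 0) + (if q then x ^ 3 else 0) ≤ x ^ 2 + x ^ 3 := by
  have h1 : 0 ≤ x ^ 2 := by positivity
  have h2 : 0 ≤ x ^ 3 := by positivity
  split_ifs <;> linarith

private theorem bddG_ite_mono (p q : Prop) [Decidable p] [Decidable q] (x y : ℝ) (hx : 0 ≤ x)
    (hxy : x ≤ y) : (if p then x ^ 2 else 0) + (if q then x ^ 3 else 0) ≤
      (if p then y ^ 2 else 0) + (if q then y ^ 3 else 0) := by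
  have h1 : x ^ 2 ≤ y ^ 2 := pow_le_pow_left₀ hx hxy 2
  have h2 : x ^ 3 ≤ y ^ 3 := pow_le_pow_left₀ hx hxy 3
  split_ifs <;> linarith

open Classical in
/-- The deficits of the model orbits are bounded, uniformly on bounded sets of initial values.
(Compare with the majorant sequence which starts at `ρ` and satisfies the recursion with equality;
apply `growth` and `bdd_of_small` to the majorant.) -/
theorem bddG (P : PD) (A ρ : ℝ) (hA : 0 ≤ A) (hρ : 0 ≤ ρ) :
    ∃ K : ℝ, ∀ R S : ℕ → ℝ, (∀ n, 0 ≤ R n) → (∀ n, 0 ≤ S n) → R 0 ≤ ρ → S 0 ≤ ρ →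
      (∀ n, R (n + 1) ≤ R n + A * Real.exp (-(P.τ * P.M n)) * ((if P.I2 n then S n ^ 2 else 0) +
        (if P.I3 n then S n ^ 3 else 0))) →
      (∀ n, S (n + 1) ≤ S n + A * Real.exp (-(P.τ * P.M n)) * ((if P.J2 n then R n ^ 2 else 0) +
        (if P.J3 n then R n ^ 3 else 0))) →
      ∀ n, R n ≤ K ∧ S n ≤ K := by
  obtain ⟨X, hX⟩ : ∃ X : ℕ → ℝ, X = fun n => (bddG_maj P A ρ n).1 := ⟨_, rfl⟩
  obtain ⟨Y, hY⟩ : ∃ Y : ℕ → ℝ, Y = fun n => (bddG_maj P A ρ n).2 := ⟨_, rfl⟩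
  have hXs : ∀ n, X (n + 1) = X n + A * Real.exp (-(P.τ * P.M n)) *
      ((if P.I2 n then Y n ^ 2 else 0) + (if P.I3 n then Y n ^ 3 else 0)) := by
    intro n
    rw [hX, hY]
    rfl
  have hYs : ∀ n, Y (n + 1) = Y n + A * Real.exp (-(P.τ * P.M n)) *
      ((if P.J2 n then X n ^ 2 else 0) + (if P.J3 n then X n ^ 3 else 0)) := by
    intro n
    rw [hX, hY]
    rfl
  have hX0 : X 0 = ρ := by rw [hX]; rfl
  have hY0 : Y 0 = ρ := by rw [hY]; rfl
  have hw : ∀ n, 0 ≤ A * Real.exp (-(P.τ * P.M n)) := fun n => by positivity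
  have hpos : ∀ n, 0 ≤ X n ∧ 0 ≤ Y n := by
    intro n
    induction n with
    | zero => rw [hX0, hY0]; exact ⟨hρ, hρ⟩
    | succ n ih =>
      rw [hXs, hYs]
      have h1 := mul_nonneg (hw n) (bddG_ite_nonneg (P.I2 n) (P.I3 n) _ ih.2)
      have h2 := mul_nonneg (hw n) (bddG_ite_nonneg (P.J2 n) (P.J3 n) _ ih.1)
      constructor <;> linarith [ih.1, ih.2]
  have hXmono : Monotone X := by
    refine monotone_nat_of_le_succ fun n => ?_
    rw [hXs]
    have h1 := mul_nonneg (hw n) (bddG_ite_nonneg (P.I2 n) (P.I3 n) _ (hpos n).2)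
    linarith
  have hYmono : Monotone Y := by
    refine monotone_nat_of_le_succ fun n => ?_
    rw [hYs]
    have h1 := mul_nonneg (hw n) (bddG_ite_nonneg (P.J2 n) (P.J3 n) _ (hpos n).1)
    linarith
  have hsum : Summable (fun n => A * Real.exp (-(P.τ * P.M n))) := by
    have hta : 0 < P.τ * P.a := mul_pos P.hτ P.ha
    have h1 : Summable (fun n : ℕ => A * Real.exp (-(P.τ * P.a)) ^ n) :=
      (summable_geometric_of_lt_one (Real.exp_nonneg _)
        (Real.exp_lt_one_iff.2 (by linarith))).mul_left A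
    refine Summable.of_nonneg_of_le hw (fun n => ?_) h1
    refine mul_le_mul_of_nonneg_left ?_ hA
    rw [← Real.exp_nat_mul]
    refine Real.exp_le_exp.2 ?_
    have h2 := mul_le_mul_of_nonneg_left (bddG_M_lower P n) P.hτ.le
    linarith
  have hgr := growth P (fun n => A * Real.exp (-(P.τ * P.M n))) X Y hw hsum
    (fun n => (hpos n).1) (fun n => (hpos n).2) (fun n => (hXs n).le) (fun n => (hYs n).le)
    (P.τ * P.a / 8) (by have := P.hτ; have := P.ha; positivity)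
  obtain ⟨n₀, hn₀⟩ := hgr
  obtain ⟨K, hK⟩ := bdd_of_small P A hA n₀
  have hKXY := hK X Y (fun n => (hpos n).1) (fun n => (hpos n).2) (fun n hn => (hn₀ n hn).1)
    (fun n hn => (hn₀ n hn).2) (by
      intro n _
      rw [hXs]
      have h1 := mul_le_mul_of_nonneg_left
        (bddG_ite_le (P.I2 n) (P.I3 n) (Y n) (hpos n).2) (hw n)
      have h2 : 0 ≤ X n * (A * Real.exp (-(P.a * n))) :=
        mul_nonneg (hpos n).1 (by positivity)
      rw [mul_add (X n), mul_one]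
      linarith) (by
      intro n _
      rw [hYs]
      have h1 := mul_le_mul_of_nonneg_left
        (bddG_ite_le (P.J2 n) (P.J3 n) (X n) (hpos n).1) (hw n)
      have h2 : 0 ≤ Y n * (A * Real.exp (-(P.a * n))) :=
        mul_nonneg (hpos n).2 (by positivity)
      rw [mul_add (Y n), mul_one]
      linarith)
  refine ⟨K, fun R S hR0 hS0 hRρ hSρ hR hS n => ?_⟩
  have hcmp : ∀ n, R n ≤ X n ∧ S n ≤ Y n := by
    intro n
    induction n with
    | zero => rw [hX0, hY0]; exact ⟨hRρ, hSρ⟩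
    | succ n ih =>
      rw [hXs, hYs]
      have h1 := mul_le_mul_of_nonneg_left
        (bddG_ite_mono (P.I2 n) (P.I3 n) (S n) (Y n) (hS0 n) ih.2) (hw n)
      have h2 := mul_le_mul_of_nonneg_left
        (bddG_ite_mono (P.J2 n) (P.J3 n) (R n) (X n) (hR0 n) ih.1) (hw n)
      have h3 := hR n
      have h4 := hS n
      constructor <;> linarith [ih.1, ih.2]
  have h1 := hKXY (max n n₀) (le_max_right _ _)
  have h2 := hXmono (le_max_left n n₀)
  have h3 := hYmono (le_max_left n n₀)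
  exact ⟨(hcmp n).1.trans (h2.trans h1.1), (hcmp n).2.trans (h3.trans h1.2)⟩

end Pool.Agent.Lib.MP_b771e3_an
end

section

set_option autoImplicit false

open Filter Topology

namespace Pool.Agent.Lib.MP_b771e3_an

variable {P : PD}

theorem orbG_pos (P : PD) (n : ℕ) : 0 ≤ P.ξ n ∧ 0 ≤ P.η n := by
  induction n with
  | zero => rw [P.ξ0, P.η0]; exact ⟨zero_le_one, zero_le_one⟩
  | succ n ih =>
    have h1 := P.ξa n
    have h2 := P.ηa n
    have h3 := P.ha
    exact ⟨by linarith [ih.1], by linarith [ih.2]⟩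

/-- The one step bound in abstract form. -/
theorem orbG_step (A x' x y u v w kx b ξ ξ' η M τ dX : ℝ) (hA : 0 ≤ A)
    (hx : 0 ≤ x) (hy : 0 ≤ y) (hu : 0 ≤ u) (hu' : u ≤ A) (hv : 0 ≤ v) (hv' : v ≤ A)
    (hw : x' ≤ Real.exp (-dX) * x + u * y ^ 2 + v * y ^ 3)
    (hk : 0 ≤ kx) (hb : dX ≤ b) (hξ : ξ' = ξ + dX - kx) (hcone : ξ ≤ (2 - τ) * η)
    (hη : 0 ≤ η) (hM : M ≤ η) (hτ : 0 ≤ τ) :
    Real.exp ξ' * x' ≤ Real.exp ξ * x + A * Real.exp b * Real.exp (-(τ * M)) *
      ((if u = 0 then 0 else (Real.exp η * y) ^ 2) +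
        (if v = 0 then 0 else (Real.exp η * y) ^ 3)) := by
  have e1 : Real.exp ξ' * (Real.exp (-dX) * x) ≤ Real.exp ξ * x := by
    rw [← mul_assoc, ← Real.exp_add]
    exact mul_le_mul_of_nonneg_right (Real.exp_le_exp.mpr (by rw [hξ]; linarith)) hx
  have hτM : τ * M ≤ τ * η := mul_le_mul_of_nonneg_left hM hτ
  have e2 : Real.exp ξ' * (u * y ^ 2) ≤ A * Real.exp b * Real.exp (-(τ * M)) *
      (if u = 0 then 0 else (Real.exp η * y) ^ 2) := by
    by_cases h0 : u = 0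
    · simp [h0]
    · rw [if_neg h0]
      have h1 : A * Real.exp b * Real.exp (-(τ * M)) * (Real.exp η * y) ^ 2 =
          Real.exp (b - τ * M + 2 * η) * (A * y ^ 2) := by
        rw [mul_pow, ← Real.exp_nat_mul]
        have : Real.exp (b - τ * M + 2 * η) = Real.exp b * Real.exp (-(τ * M)) *
            Real.exp (((2 : ℕ) : ℝ) * η) := by
          rw [← Real.exp_add, ← Real.exp_add]
          congr 1
        rw [this]
        ring
      rw [h1]
      refine mul_le_mul (Real.exp_le_exp.mpr ?_) ?_ (by positivity) (Real.exp_pos _).le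
      · rw [hξ]; nlinarith
      · exact mul_le_mul_of_nonneg_right hu' (by positivity)
  have e3 : Real.exp ξ' * (v * y ^ 3) ≤ A * Real.exp b * Real.exp (-(τ * M)) *
      (if v = 0 then 0 else (Real.exp η * y) ^ 3) := by
    by_cases h0 : v = 0
    · simp [h0]
    · rw [if_neg h0]
      have h1 : A * Real.exp b * Real.exp (-(τ * M)) * (Real.exp η * y) ^ 3 =
          Real.exp (b - τ * M + 3 * η) * (A * y ^ 3) := by
        rw [mul_pow, ← Real.exp_nat_mul]
        have : Real.exp (b - τ * M + 3 * η) = Real.exp b * Real.exp (-(τ * M)) *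
            Real.exp (((3 : ℕ) : ℝ) * η) := by
          rw [← Real.exp_add, ← Real.exp_add]
          congr 1
        rw [this]
        ring
      rw [h1]
      refine mul_le_mul (Real.exp_le_exp.mpr ?_) ?_ (by positivity) (Real.exp_pos _).le
      · rw [hξ]; nlinarith
      · exact mul_le_mul_of_nonneg_right hv' (by positivity)
  calc Real.exp ξ' * x' ≤ Real.exp ξ' * (Real.exp (-dX) * x + u * y ^ 2 + v * y ^ 3) :=
        mul_le_mul_of_nonneg_left hw (Real.exp_pos _).le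
    _ = Real.exp ξ' * (Real.exp (-dX) * x) + (Real.exp ξ' * (u * y ^ 2) +
        Real.exp ξ' * (v * y ^ 3)) := by ring
    _ ≤ _ := by
        rw [mul_add (A * Real.exp b * Real.exp (-(τ * M)))]
        exact add_le_add e1 (add_le_add e2 e3)

/-- bound of the cubic coefficients -/
theorem orbG_gam {D : Dyn P} (C : Conj D) (n : ℕ) :
    ‖C.gam1 n‖ ≤ 4 * D.A * C.B ∧ ‖C.gam2 n‖ ≤ 4 * D.A * C.B := by
  have hA := D.hA
  have hB := C.hB
  have key : ∀ g s m p q : ℂ, ‖g‖ ≤ D.A → ‖s‖ ≤ D.A → ‖m‖ ≤ 1 → ‖p‖ ≤ C.B → ‖q‖ ≤ C.B →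
      ‖g + p * s * m - 2 * s * q‖ ≤ 4 * D.A * C.B := by
    intro g s m p q hg hs hm hp hq
    have h1 : ‖g + p * s * m - 2 * s * q‖ ≤ ‖g‖ + ‖p * s * m‖ + ‖2 * s * q‖ :=
      (norm_sub_le _ _).trans (add_le_add (norm_add_le _ _) le_rfl)
    have h2 : ‖p * s * m‖ ≤ C.B * D.A * 1 := by
      rw [norm_mul, norm_mul]
      gcongr
    have h3 : ‖2 * s * q‖ ≤ 2 * D.A * C.B := by
      rw [norm_mul, norm_mul]
      have : ‖(2 : ℂ)‖ = 2 := by simp
      rw [this]
      gcongr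
    have h4 : D.A ≤ D.A * C.B := le_mul_of_one_le_right (by linarith) hB
    linarith
  have hmu : ‖D.mu n‖ ≤ 1 := by
    rw [D.hmu]
    exact Real.exp_le_one_iff.mpr (by linarith [(P.hY n).1, P.ha])
  have hlam : ‖D.lam n‖ ≤ 1 := by
    rw [D.hlam]
    exact Real.exp_le_one_iff.mpr (by linarith [(P.hX n).1, P.ha])
  refine ⟨?_, ?_⟩
  · exact key _ _ _ _ _ (D.hg1 n) (D.hs1 n) hmu (C.hp2 _) (C.hq2 n)
  · exact key _ _ _ _ _ (D.hg2 n) (D.hs2 n) hlam (C.hq1 _) (C.hp1 n)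

/-- Orbits of the model have bounded adapted norms, uniformly on bounded sets (apply `bddG`). -/
theorem orb_G {D : Dyn P} (C : Conj D) (ρ : ℝ) :
    ∃ K : ℝ, ∀ w : ℂ × ℂ, ‖w‖ ≤ ρ → ∀ n, P.N n (it C.G n w) ≤ K := by
  classical
  have hA := D.hA
  have hB := C.hB
  set A0 : ℝ := 4 * D.A * C.B with hA0
  have hA00 : 0 ≤ A0 := by positivity
  have hAA0 : D.A ≤ A0 := by rw [hA0]; nlinarith
  obtain ⟨K, hK⟩ := bddG P (A0 * Real.exp P.b) (Real.exp 1 * max ρ 0) (by positivity)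
    (by positivity)
  refine ⟨K, fun w hw n => ?_⟩
  have hstart : ‖w.1‖ ≤ max ρ 0 ∧ ‖w.2‖ ≤ max ρ 0 :=
    ⟨(norm_fst_le w).trans (hw.trans (le_max_left _ _)),
      (norm_snd_le w).trans (hw.trans (le_max_left _ _))⟩
  have key := hK (fun n => Real.exp (P.ξ n) * ‖(it C.G n w).1‖)
    (fun n => Real.exp (P.η n) * ‖(it C.G n w).2‖) (fun n => by positivity)
    (fun n => by positivity) ?_ ?_ ?_ ?_ n
  · exact max_le key.1 key.2
  · simp only [it, P.ξ0]
    exact mul_le_mul_of_nonneg_left hstart.1 (Real.exp_pos _).le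
  · simp only [it, P.η0]
    exact mul_le_mul_of_nonneg_left hstart.2 (Real.exp_pos _).le
  · intro n
    set z := it C.G n w with hz
    have hzs : it C.G (n + 1) w = C.G n z := rfl
    have h := orbG_step A0 ‖(C.G n z).1‖ ‖z.1‖ ‖z.2‖ (if P.I2 n then ‖D.s1 n‖ else 0)
      (if P.I3 n then ‖C.gam1 n‖ else 0) 0 (P.kx n) P.b (P.ξ n) (P.ξ (n + 1)) (P.η n) (P.M n)
      P.τ (P.dX n) hA00 (norm_nonneg _) (norm_nonneg _) (by split_ifs <;> positivity)
      (by split_ifs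
          · exact (D.hs1 n).trans hAA0
          · exact hA00)
      (by split_ifs <;> positivity)
      (by split_ifs
          · exact (orbG_gam C n).1
          · exact hA00)
      ?_ (P.kx0 n) (P.hX n).2 (P.ξs n) (P.cone1 n) (orbG_pos P n).2 (min_le_right _ _) P.hτ.le
    · simp only [hzs]
      refine h.trans ?_
      refine add_le_add le_rfl (mul_le_mul_of_nonneg_left ?_ (by positivity))
      refine add_le_add ?_ ?_
      · by_cases h2 : P.I2 n
        · simp only [h2, if_true]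
          split_ifs <;> first | positivity | exact le_rfl
        · simp [h2]
      · by_cases h2 : P.I3 n
        · simp only [h2, if_true]
          split_ifs <;> first | positivity | exact le_rfl
        · simp [h2]
    · simp only [Conj.G]
      refine (norm_add_le _ _).trans (add_le_add ((norm_add_le _ _).trans (add_le_add ?_ ?_)) ?_)
      · rw [norm_mul, D.hlam]
      · rw [norm_mul, norm_pow]
        split_ifs <;> simp
      · rw [norm_mul, norm_pow]
        split_ifs <;> simp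
  · intro n
    set z := it C.G n w with hz
    have hzs : it C.G (n + 1) w = C.G n z := rfl
    have h := orbG_step A0 ‖(C.G n z).2‖ ‖z.2‖ ‖z.1‖ (if P.J2 n then ‖D.s2 n‖ else 0)
      (if P.J3 n then ‖C.gam2 n‖ else 0) 0 (P.ky n) P.b (P.η n) (P.η (n + 1)) (P.ξ n) (P.M n)
      P.τ (P.dY n) hA00 (norm_nonneg _) (norm_nonneg _) (by split_ifs <;> positivity)
      (by split_ifs
          · exact (D.hs2 n).trans hAA0
          · exact hA00)
      (by split_ifs <;> positivity)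
      (by split_ifs
          · exact (orbG_gam C n).2
          · exact hA00)
      ?_ (P.ky0 n) (P.hY n).2 (P.ηs n) (P.cone2 n) (orbG_pos P n).1 (min_le_left _ _) P.hτ.le
    · simp only [hzs]
      refine h.trans ?_
      refine add_le_add le_rfl (mul_le_mul_of_nonneg_left ?_ (by positivity))
      refine add_le_add ?_ ?_
      · by_cases h2 : P.J2 n
        · simp only [h2, if_true]
          split_ifs <;> first | positivity | exact le_rfl
        · simp [h2]
      · by_cases h2 : P.J3 n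
        · simp only [h2, if_true]
          split_ifs <;> first | positivity | exact le_rfl
        · simp [h2]
    · simp only [Conj.G]
      refine (norm_add_le _ _).trans (add_le_add ((norm_add_le _ _).trans (add_le_add ?_ ?_)) ?_)
      · rw [norm_mul, D.hmu]
      · rw [norm_mul, norm_pow]
        split_ifs <;> simp
      · rw [norm_mul, norm_pow]
        split_ifs <;> simp

end Pool.Agent.Lib.MP_b771e3_an
end

section

set_option autoImplicit false

open Filter Topology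

namespace Pool.Agent.Lib.MP_b771e3_an

variable {P : PD} {D : Dyn P} (C : Conj D)

theorem trans_FG : Trans P D.f C.G C.Gi C.H :=
  ⟨G_left C, G_right C, lip_G C, err_FG C, hb_H C⟩

theorem trans_GF : Trans P C.G D.f D.fi C.Ht :=
  ⟨D.left, D.right, lip_F D, err_GF C, hb_Ht C⟩

theorem cont_it {F : ℕ → ℂ × ℂ → ℂ × ℂ} (hF : ∀ n, Differentiable ℂ (F n)) (n : ℕ) :
    Differentiable ℂ (it F n) := by
  induction n with
  | zero => exact differentiable_id
  | succ n ih => exact (hF n).comp ih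

theorem cont_iti {F : ℕ → ℂ × ℂ → ℂ × ℂ} (hF : ∀ n, Differentiable ℂ (F n)) (n : ℕ) :
    Differentiable ℂ (iti F n) := by
  induction n with
  | zero => exact differentiable_id
  | succ n ih => exact ih.comp (hF n)

/-- One half: the limit map of `(G^n)⁻¹ H_n F^n` on an open set `V` whose points have locally
bounded adapted norms. -/
theorem half (P : PD) (F G Gi H : ℕ → ℂ × ℂ → ℂ × ℂ) (T : Trans P F G Gi H)
    (hF : ∀ n, Differentiable ℂ (F n)) (hG : ∀ n, Differentiable ℂ (G n))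
    (hGi : ∀ n, Differentiable ℂ (Gi n)) (hH : ∀ n, Differentiable ℂ (H n))
    (V : Set (ℂ × ℂ))
    (hV : ∀ z₀ ∈ V, ∃ U : Set (ℂ × ℂ), IsOpen U ∧ z₀ ∈ U ∧ ∃ n₀ : ℕ, ∃ K : ℝ, ∀ z ∈ U, ∀ n,
      n₀ ≤ n → P.N n (it F n z) ≤ K) :
    ∃ φ : ℂ × ℂ → ℂ × ℂ, (∀ z ∈ V, DifferentiableAt ℂ φ z) ∧
      (∀ z ∈ V, Tendsto (fun n => it G n (φ z)) atTop (𝓝 0)) ∧
      (∀ z ∈ V, ∀ p : ℕ → ℂ × ℂ, Tendsto p atTop (𝓝 z) →
        Tendsto (fun n => iti Gi n (H n (it F n (p n)))) atTop (𝓝 (φ z))) := by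
  have key : ∀ z₀ ∈ V, ∃ U : Set (ℂ × ℂ), IsOpen U ∧ z₀ ∈ U ∧ ∃ n₁ : ℕ, ∃ K₁ : ℝ,
      ∃ Θ : ℂ × ℂ → ℂ × ℂ, DifferentiableOn ℂ Θ U ∧
      TendstoUniformlyOn (fun n z => it G n₁ (iti Gi n (H n (it F n z)))) Θ atTop U ∧
      ∀ m, n₁ ≤ m → ∀ n, m ≤ n → ∀ z ∈ U, P.N m (it G m (iti Gi n (H n (it F n z)))) ≤ K₁ := by
    intro z₀ hz₀
    obtain ⟨U, hU, hzU, n₀, K, hK⟩ := hV z₀ hz₀
    obtain ⟨n₁, K₁, Θ, h1, h2⟩ := transX T (fun n => (hGi n).continuous) U n₀ K hK
    refine ⟨U, hU, hzU, n₁, K₁, Θ, ?_, h1, h2⟩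
    refine lim_diff U hU _ Θ (fun n => ?_) h1
    exact (((cont_it hG n₁).comp ((cont_iti hGi n).comp ((hH n).comp
      (cont_it hF n)))).differentiableOn)
  refine ⟨fun z => limUnder atTop (fun n => iti Gi n (H n (it F n z))), ?_, ?_, ?_⟩
  all_goals
    intro z₀ hz₀
    obtain ⟨U, hU, hzU, n₁, K₁, Θ, hΘ, h1, h2⟩ := key z₀ hz₀
    have hback : ∀ n z, iti Gi n (H n (it F n z)) =
        iti Gi n₁ (it G n₁ (iti Gi n (H n (it F n z)))) := fun n z =>
      (iti_it T.gl n₁ _).symm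
    have hlim : ∀ z ∈ U, Tendsto (fun n => iti Gi n (H n (it F n z))) atTop
        (𝓝 (iti Gi n₁ (Θ z))) := by
      intro z hz
      have h3 : Tendsto (fun n => it G n₁ (iti Gi n (H n (it F n z)))) atTop (𝓝 (Θ z)) :=
        h1.tendsto_at hz
      have h4 := ((cont_iti hGi n₁).continuous.tendsto (Θ z)).comp h3
      refine h4.congr (fun n => ?_)
      exact (hback n z).symm
    have heq : ∀ z ∈ U, limUnder atTop (fun n => iti Gi n (H n (it F n z))) =
        iti Gi n₁ (Θ z) := fun z hz => (hlim z hz).limUnder_eq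
  · have h5 : DifferentiableAt ℂ (fun z => iti Gi n₁ (Θ z)) z₀ :=
      ((cont_iti hGi n₁) (Θ z₀)).comp z₀ (hΘ.differentiableAt (hU.mem_nhds hzU))
    refine h5.congr_of_eventuallyEq ?_
    filter_upwards [hU.mem_nhds hzU] with z hz
    exact heq z hz
  · have h6 : ∀ m, n₁ ≤ m → P.N m (it G m (iti Gi n₁ (Θ z₀))) ≤ K₁ := by
      intro m hm
      have h7 : Tendsto (fun n => P.N m (it G m (iti Gi n (H n (it F n z₀))))) atTop
          (𝓝 (P.N m (it G m (iti Gi n₁ (Θ z₀))))) :=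
        (((continuous_N m).comp (cont_it hG m).continuous).tendsto _).comp (hlim z₀ hzU)
      refine le_of_tendsto h7 ?_
      filter_upwards [eventually_ge_atTop m] with n hn
      exact h2 m hm n hn z₀ hzU
    show Tendsto (fun n => it G n (limUnder atTop (fun n => iti Gi n (H n (it F n z₀)))))
      atTop (𝓝 0)
    rw [heq z₀ hzU, Metric.tendsto_atTop]
    intro ε hε
    obtain ⟨n₂, hn₂⟩ := eventually_small (P := P) K₁ (ε / 2) (by positivity)
    refine ⟨max n₁ n₂, fun n hn => ?_⟩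
    rw [dist_zero_right]
    have := hn₂ n (le_trans (le_max_right _ _) hn) _ (h6 n (le_trans (le_max_left _ _) hn))
    linarith
  · intro p hp
    show Tendsto _ _ (𝓝 (limUnder atTop (fun n => iti Gi n (H n (it F n z₀)))))
    rw [heq z₀ hzU]
    have h8 : Tendsto (fun n => it G n₁ (iti Gi n (H n (it F n (p n))))) atTop (𝓝 (Θ z₀)) := by
      refine tendsto_comp_of_locally_uniform_limit
        (F := fun n z => it G n₁ (iti Gi n (H n (it F n z))))
        (hΘ.differentiableAt (hU.mem_nhds hzU)).continuousAt hp ?_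
      intro u hu
      exact ⟨U, hU.mem_nhds hzU, h1 u hu⟩
    have h9 := ((cont_iti hGi n₁).continuous.tendsto (Θ z₀)).comp h8
    refine h9.congr (fun n => ?_)
    exact (hback n (p n)).symm

include C in
/-- The theorem on `ℂ × ℂ`. -/
theorem main_prod (r₁ : ℝ) (hr₁ : 0 < r₁)
    (hcontr : ∀ (n₁ : ℕ) (z : ℂ × ℂ), ‖it D.f n₁ z‖ ≤ r₁ → ∀ n, n₁ ≤ n →
      ‖it D.f n z‖ ≤ Real.exp (-(P.a * (n - n₁ : ℝ)))) :
    ∃ φ ψ : ℂ × ℂ → ℂ × ℂ,
      (∀ z, Tendsto (fun n => it D.f n z) atTop (𝓝 0) → DifferentiableAt ℂ φ z) ∧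
      Differentiable ℂ ψ ∧ (∀ w, Tendsto (fun n => it D.f n (ψ w)) atTop (𝓝 0)) ∧
      (∀ z, Tendsto (fun n => it D.f n z) atTop (𝓝 0) → ψ (φ z) = z) ∧
      ∀ w, φ (ψ w) = w := by
  obtain ⟨φ, hφ1, hφ2, hφ3⟩ := half P D.f C.G C.Gi C.H (trans_FG C) D.hf (diff_G C) (diff_Gi C)
    (diff_H C) {z | Tendsto (fun n => it D.f n z) atTop (𝓝 0)}
    (fun z₀ hz₀ => orb_F D r₁ hr₁ hcontr z₀ hz₀)
  obtain ⟨ψ, hψ1, hψ2, hψ3⟩ := half P C.G D.f D.fi C.Ht (trans_GF C) (diff_G C) D.hf D.hfi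
    (diff_Ht C) Set.univ (fun z₀ _ => by
      obtain ⟨K, hK⟩ := orb_G C (‖z₀‖ + 1)
      refine ⟨Metric.ball z₀ 1, Metric.isOpen_ball, Metric.mem_ball_self one_pos, 0, K,
        fun z hz n _ => hK z ?_ n⟩
      have h1 := norm_sub_norm_le z z₀
      rw [Metric.mem_ball, dist_eq_norm] at hz
      linarith)
  have hψV : ∀ w, Tendsto (fun n => it D.f n (ψ w)) atTop (𝓝 0) := fun w =>
    hψ2 w (Set.mem_univ w)
  refine ⟨φ, ψ, fun z hz => hφ1 z hz, fun w => hψ1 w (Set.mem_univ w), hψV, ?_, ?_⟩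
  · intro z hz
    have h1 : Tendsto (fun n => iti C.Gi n (C.H n (it D.f n z))) atTop (𝓝 (φ z)) :=
      hφ3 z hz (fun _ => z) tendsto_const_nhds
    have h2 := hψ3 (φ z) (Set.mem_univ _) _ h1
    obtain ⟨U, _, hzU, n₀, K, hK⟩ := orb_F D r₁ hr₁ hcontr z hz
    obtain ⟨A, n₁, _, hA⟩ := err_HtH C K
    have h3 := transY (trans_GF C) (fun n => (D.hfi n).continuous) z (max n₀ n₁) K A
      (fun n hn => hK z hzU n (le_trans (le_max_left _ _) hn))
      (fun n => C.Ht n (C.H n (it D.f n z)))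
      (fun n hn => hA n (le_trans (le_max_right _ _) hn) _
        (hK z hzU n (le_trans (le_max_left _ _) hn)))
    refine tendsto_nhds_unique (h2.congr (fun n => ?_)) h3
    rw [it_iti (G_right C)]
  · intro w
    have h1 : Tendsto (fun n => iti D.fi n (C.Ht n (it C.G n w))) atTop (𝓝 (ψ w)) :=
      hψ3 w (Set.mem_univ _) (fun _ => w) tendsto_const_nhds
    have h2 := hφ3 (ψ w) (hψV w) _ h1
    obtain ⟨K, hK⟩ := orb_G C ‖w‖
    obtain ⟨A, n₁, _, hA⟩ := err_HHt C K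
    have h3 := transY (trans_FG C) (fun n => (diff_Gi C n).continuous) w n₁ K A
      (fun n _ => hK w le_rfl n)
      (fun n => C.H n (C.Ht n (it C.G n w)))
      (fun n hn => hA n hn _ (hK w le_rfl n))
    refine tendsto_nhds_unique (h2.congr (fun n => ?_)) h3
    rw [it_iti D.right]

end Pool.Agent.Lib.MP_b771e3_an
end
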